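import Pool.Agent.Helper53.PB.Lift

/-!
# Symplectic spaces
-/

set_option autoImplicit false

open Module Classical
open scoped LinearAlgebra.Projectivization

namespace Pool.Agent.Helper53.PB

universe u v

variable {F : Type u} {V : Type v} [Field F] [AddCommGroup V] [Module F V]

theorem symp_sing (φ : Form F V) (h : φ.kind = .symplectic) (x : V) : φ.Sing x := by
  cases φ with
  | symplectic B alt nd => trivial
  | hermitian σ i n B hm nd => cases h
  | orthogonal Q nd => cases h

theorem symp_smul (φ : Form F V) (h : φ.kind = .symplectic) (c : F) (x y : V) :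
    φ.f (c • x) y = c * φ.f x y := by
  cases φ with
  | symplectic B alt nd => simp [Form.f]
  | hermitian σ i n B hm nd => cases h
  | orthogonal Q nd => cases h

theorem symp_add (φ : Form F V) (h : φ.kind = .symplectic) (x x' y : V) :
    φ.f (x + x') y = φ.f x y + φ.f x' y := by
  cases φ with
  | symplectic B alt nd => simp [Form.f]
  | hermitian σ i n B hm nd => cases h
  | orthogonal Q nd => cases h

/-- kernel of the functional of a nonzero vector -/
theorem finrank_perp1 [FiniteDimensional F V] (φ : Form F V) (h : φ.kind = .symplectic) {x : V}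
    (hx : x ≠ 0) : finrank F (LinearMap.ker (φ.f x)) + 1 = finrank F V := by
  have h1 : φ.f x ≠ 0 := by
    intro h0
    apply hx
    apply φ.toPolar.nondeg x (symp_sing φ h x)
    intro y
    exact LinearMap.congr_fun h0 y
  exact Module.Dual.finrank_ker_add_one_of_ne_zero h1

theorem perp_not_le (φ : Form F V) (h : φ.kind = .symplectic) {x y : ℙ F V} (hxy : x ≠ y) :
    ¬ LinearMap.ker (φ.f x.rep) ≤ LinearMap.ker (φ.f y.rep) := by
  intro hle
  have h1 : φ.f y.rep ∈ Submodule.span F (Set.range fun _ : Unit => φ.f x.rep) := by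
    apply mem_span_of_iInf_ker_le_ker
    rwa [ciInf_const]
  rw [Set.range_const] at h1
  obtain ⟨c, hc⟩ := Submodule.mem_span_singleton.1 h1
  apply hxy
  symm
  apply eq_of_rep_mem_span
  rw [Submodule.mem_span_singleton]
  refine ⟨c, ?_⟩
  have h2 : y.rep + (-c) • x.rep = 0 := by
    apply φ.toPolar.nondeg _ (symp_sing φ h _)
    intro z
    change φ.f (y.rep + (-c) • x.rep) z = 0
    rw [symp_add φ h, symp_smul φ h, ← hc, LinearMap.smul_apply, smul_eq_mul]
    ring
  rw [neg_smul, ← sub_eq_add_neg, sub_eq_zero] at h2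
  exact h2.symm

theorem finrank_perp_pair [FiniteDimensional F V] (φ : Form F V) (h : φ.kind = .symplectic)
    {x y : ℙ F V} (hxy : x ≠ y) :
    finrank F (LinearMap.ker (φ.f x.rep) ⊓ LinearMap.ker (φ.f y.rep) : Submodule F V) + 2 =
      finrank F V := by
  have h1 := Polar.finrank_inf_ker _ (φ.f y.rep) (perp_not_le φ h hxy)
  have h2 := finrank_perp1 φ h x.rep_nonzero
  omega

theorem resForm_kind (φ : Form F V) {v w : V} (hv : φ.Sing v) (hw : φ.f w v ≠ 0) :
    (resForm φ hv hw).kind = φ.kind := by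
  unfold resForm
  rw [Form.restrict_kind]

/-- generators of a symplectic space of dimension `2r` have dimension `r` -/
theorem symp_gen (r : ℕ) : ∀ {V : Type v} [AddCommGroup V] [Module F V] [FiniteDimensional F V]
    (φ : Form F V), φ.kind = .symplectic → finrank F V = 2 * r →
    ∀ U, φ.toPolar.Gen U → finrank F U = r := by
  induction r with
  | zero =>
    intro V _ _ _ φ _ hV U _
    have := Submodule.finrank_le U
    omega
  | succ r ih =>
    intro V _ _ _ φ hφ hV U hU
    have hnt : Nontrivial V := Module.nontrivial_of_finrank_pos (R := F) (by omega)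
    obtain ⟨v, hv⟩ := exists_ne (0 : V)
    have hs := symp_sing φ hφ v
    obtain ⟨w, hw⟩ := exists_pair φ hs hv
    have h1 := finrank_perp2 φ hs hw
    obtain ⟨U0, hU0, _⟩ := Polar.exists_gen_ge (P := (resForm φ hs hw).toPolar) Polar.ts_bot
    have h2 := ih (resForm φ hs hw) (by rw [resForm_kind, hφ]) (by omega) U0 hU0
    have h3 := (resForm_isRes φ hs hw).lift_gen hU0
    rw [Polar.gen_finrank_eq h3 hU, (resForm_isRes φ hs hw).finrank_lift, h2]

/-- the minimum size of a point set meeting all generators is `m` for all symplectic spaces of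
dimension `2 r` over `F` -/
def SympMin (F : Type u) [Field F] (r m : ℕ) : Prop :=
  ∀ (V : Type v) [AddCommGroup V] [Module F V] [FiniteDimensional F V] (φ : Form F V),
    φ.kind = .symplectic → finrank F V = 2 * r →
    (∃ T : Finset (ℙ F V), φ.toPolar.Block T ∧ T.card ≤ m) ∧
      ∀ T : Finset (ℙ F V), φ.toPolar.Block T → m ≤ T.card

theorem exists_min {P : Polar F V} (h : ∃ T : Finset (ℙ F V), P.Block T) :
    ∃ T : Finset (ℙ F V), P.Block T ∧ ∀ T', P.Block T' → T.card ≤ T'.card := by
  obtain ⟨T, hT, hmin⟩ := WellFounded.has_min (measure (fun T : Finset (ℙ F V) => T.card)).wf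
    {T | P.Block T} h
  refine ⟨T, hT, fun T' hT' => ?_⟩
  have := hmin T' hT'
  exact not_lt.1 this

/-- upper bound through cones -/
theorem symp_cone [Finite F] {r m : ℕ} (h : ∀ {V : Type v} [AddCommGroup V] [Module F V]
    [FiniteDimensional F V] (φ : Form F V), φ.kind = .symplectic → finrank F V = 2 * r →
    ∃ T : Finset (ℙ F V), φ.toPolar.Block T ∧ T.card ≤ m)
    {V : Type v} [AddCommGroup V] [Module F V] [FiniteDimensional F V] (φ : Form F V)
    (hφ : φ.kind = .symplectic) (hV : finrank F V = 2 * (r + 1)) :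
    ∃ T : Finset (ℙ F V), φ.toPolar.Block T ∧ T.card ≤ Nat.card F * m := by
  have hnt : Nontrivial V := Module.nontrivial_of_finrank_pos (R := F) (by omega)
  obtain ⟨v, hv⟩ := exists_ne (0 : V)
  have hs := symp_sing φ hφ v
  obtain ⟨w, hw⟩ := exists_pair φ hs hv
  have h1 := finrank_perp2 φ hs hw
  obtain ⟨T, hT, hTm⟩ := h (resForm φ hs hw) (by rw [resForm_kind, hφ]) (by omega)
  obtain ⟨T', hT', hle⟩ := (resForm_isRes φ hs hw).cone (symp_gen (r + 1) φ hφ hV) hT
  exact ⟨T', hT', hle.trans (Nat.mul_le_mul_left _ hTm)⟩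

/-- points outside a blocking set -/
theorem symp_res {r m : ℕ} (h : ∀ {V : Type v} [AddCommGroup V] [Module F V]
    [FiniteDimensional F V] (φ : Form F V), φ.kind = .symplectic → finrank F V = 2 * r →
    ∀ T : Finset (ℙ F V), φ.toPolar.Block T → m ≤ T.card)
    {V : Type v} [AddCommGroup V] [Module F V] [FiniteDimensional F V] (φ : Form F V)
    (hφ : φ.kind = .symplectic) (hV : finrank F V = 2 * (r + 1)) {T : Finset (ℙ F V)}
    (hT : φ.toPolar.Block T) {R : ℙ F V} (hR : R ∉ T) : m ≤ φ.toPolar.nn T R := by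
  have hs := symp_sing φ hφ R.rep
  obtain ⟨w, hw⟩ := exists_pair φ hs R.rep_nonzero
  have h1 := finrank_perp2 φ hs hw
  obtain ⟨T', hT', hle⟩ := (resForm_isRes φ hs hw).project hT rfl hR
  exact (h (resForm φ hs hw) (by rw [resForm_kind, hφ]) (by omega) T' hT').trans hle

theorem SympMin.step [Finite F] {r m : ℕ} (hr : 2 ≤ r) (hdvd : Nat.card F ∣ m)
    (h : SympMin.{u, v} F r m) : SympMin.{u, v} F (r + 1) (Nat.card F * m) := by
  intro V _ _ _ φ hφ hV
  have : Finite V := Module.finite_of_finite F
  have hup := symp_cone (fun φ h1 h2 => (h _ φ h1 h2).1) φ hφ hV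
  refine ⟨hup, ?_⟩
  obtain ⟨T, hT, hmin⟩ := exists_min (P := φ.toPolar) ⟨_, hup.choose_spec.1⟩
  intro T' hT'
  refine le_trans ?_ (hmin T' hT')
  have h1 := Polar.core (P := φ.toPolar) hr (symp_gen (r + 1) φ hφ hV) hT hmin
    (fun R _ hR => symp_res (fun φ h1 h2 => (h _ φ h1 h2).2) φ hφ hV hT hR)
  have h4 : (-(m : ℤ)) % (Nat.card F : ℤ) = 0 := by
    apply Int.emod_eq_zero_of_dvd
    rw [dvd_neg]
    exact_mod_cast hdvd
  rw [h4, add_zero] at h1
  exact_mod_cast h1

/-- a plane: all points are needed -/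
theorem symp_one [Finite F] : SympMin.{u, v} F 1 (Nat.card F + 1) := by
  intro V _ _ _ φ hφ hV
  have : Finite V := Module.finite_of_finite F
  have hcard : (pts (⊤ : Submodule F V)).card = Nat.card F + 1 := by
    rw [card_pts, finrank_top, hV, ← geo_two]
  have hgen : ∀ P : ℙ F V, φ.toPolar.Gen (Submodule.span F {P.rep}) := by
    intro P
    apply Polar.gen_of_finrank (symp_gen 1 φ hφ hV)
    · constructor
      · intro x _
        exact symp_sing φ hφ x
      · intro x hx y hy
        obtain ⟨a, rfl⟩ := Submodule.mem_span_singleton.1 hx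
        obtain ⟨b, rfl⟩ := Submodule.mem_span_singleton.1 hy
        apply Polar.smul_left
        rw [map_smul, φ.toPolar.sing_self _ (symp_sing φ hφ _), smul_zero]
    · exact finrank_span_singleton P.rep_nonzero
  constructor
  · refine ⟨pts ⊤, ⟨fun y _ => symp_sing φ hφ _, fun U hU => ?_⟩, hcard.le⟩
    obtain ⟨x, hx⟩ := (Submodule.ne_bot_iff U).1 (by
      rintro rfl
      have := symp_gen 1 φ hφ hV _ hU
      rw [finrank_bot] at this
      omega)
    refine ⟨Projectivization.mk F x hx.2, mem_pts.2 Submodule.mem_top, ?_⟩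
    exact (rep_mk_mem hx.2).2 hx.1
  · intro T hT
    rw [← hcard]
    apply Finset.card_le_card
    intro P _
    obtain ⟨y, hy, hyP⟩ := hT.2 _ (hgen P)
    rw [← eq_of_rep_mem_span hyP]
    exact hy

end Pool.Agent.Helper53.PB
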