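import Pool.Agent.Helper53.PB.HypNb

/-!
# Hyperbolic bases, and blocking sets from sets of pairwise non-orthogonal points
-/

set_option autoImplicit false

open Module Classical
open scoped LinearAlgebra.Projectivization

namespace Pool.Agent.Helper53.PB

universe u v

variable {F : Type u} {V : Type v} [Field F] [AddCommGroup V] [Module F V]

/-- value of the quadratic form -/
def Form.q : Form F V → V → F
  | .symplectic _ _ _, _ => 0
  | .hermitian _ _ _ _ _ _, _ => 0
  | .orthogonal Q _, x => Q x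

theorem orth_sing (φ : Form F V) (h : φ.kind = .orthogonal) (x : V) : φ.Sing x ↔ φ.q x = 0 := by
  cases φ with
  | symplectic B alt nd => cases h
  | hermitian σ i n B hm nd => cases h
  | orthogonal Q nd => exact Iff.rfl

theorem orth_add (φ : Form F V) (h : φ.kind = .orthogonal) (x y : V) :
    φ.q (x + y) = φ.q x + φ.q y + φ.f x y := by
  cases φ with
  | symplectic B alt nd => cases h
  | hermitian σ i n B hm nd => cases h
  | orthogonal Q nd => exact QuadraticMap.map_add Q x y

theorem orth_smul (φ : Form F V) (h : φ.kind = .orthogonal) (c : F) (x : V) :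
    φ.q (c • x) = c * c * φ.q x := by
  cases φ with
  | symplectic B alt nd => cases h
  | hermitian σ i n B hm nd => cases h
  | orthogonal Q nd => exact QuadraticMap.map_smul Q c x

theorem orth_f_smul (φ : Form F V) (h : φ.kind = .orthogonal) (c : F) (x y : V) :
    φ.f (c • x) y = c * φ.f x y := by
  cases φ with
  | symplectic B alt nd => cases h
  | hermitian σ i n B hm nd => cases h
  | orthogonal Q nd => simp [Form.f]

theorem orth_f_add (φ : Form F V) (h : φ.kind = .orthogonal) (x x' y : V) :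
    φ.f (x + x') y = φ.f x y + φ.f x' y := by
  cases φ with
  | symplectic B alt nd => cases h
  | hermitian σ i n B hm nd => cases h
  | orthogonal Q nd => simp [Form.f]

theorem orth_f_comm (φ : Form F V) (h : φ.kind = .orthogonal) (x y : V) :
    φ.f x y = φ.f y x := by
  cases φ with
  | symplectic B alt nd => cases h
  | hermitian σ i n B hm nd => cases h
  | orthogonal Q nd => exact QuadraticMap.polar_comm _ _ _

theorem restrict_q (φ : Form F V) (W : Submodule F V)
    (h : ∀ x ∈ W, φ.Sing x → (∀ y ∈ W, φ.Perp x y) → x = 0) (x : W) :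
    (φ.restrict W h).q x = φ.q x := by
  cases φ <;> rfl

theorem class_gen {φ : Form F V} {d r : ℕ} (h : HasParams φ d r) :
    ∀ U, φ.toPolar.Gen U → finrank F U = r :=
  fun U hU => h.2 U ((isGenerator_iff _ _).2 hU)

theorem exists_sing_of_rank [FiniteDimensional F V] {φ : Form F V} {d r : ℕ}
    (h : HasParams φ d (r + 1)) : ∃ v : V, v ≠ 0 ∧ φ.Sing v := by
  obtain ⟨U, hU, _⟩ := Polar.exists_gen_ge (P := φ.toPolar) Polar.ts_bot
  obtain ⟨x, hx⟩ := (Submodule.ne_bot_iff U).1 (by
    rintro rfl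
    have := class_gen h _ hU
    rw [finrank_bot] at this
    omega)
  exact ⟨x, hx.2, hU.1.1 x hx.1⟩

theorem hyp_basis (r : ℕ) : ∀ {V : Type v} [AddCommGroup V] [Module F V] [FiniteDimensional F V]
    (φ : Form F V), φ.kind = .orthogonal → HasParams φ (2 * r) r →
    ∃ e f : Fin r → V, ∀ x y : Fin r → F,
      φ.q (∑ i, x i • e i + ∑ i, y i • f i) = ∑ i, x i * y i := by
  induction r with
  | zero =>
    intro V _ _ _ φ hφ _
    refine ⟨Fin.elim0, Fin.elim0, fun x y => ?_⟩
    simp only [Finset.univ_eq_empty, Finset.sum_empty, add_zero]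
    have := orth_smul φ hφ 0 (0 : V)
    rw [zero_smul, zero_mul, zero_mul] at this
    exact this
  | succ r ih =>
    intro V _ _ _ φ hφ hp
    obtain ⟨v, hv0, hv⟩ := exists_sing_of_rank hp
    obtain ⟨w0, hw0⟩ := exists_pair φ hv hv0
    obtain ⟨c, hc⟩ : ∃ c, c = φ.f w0 v := ⟨_, rfl⟩
    rw [← hc] at hw0
    have hqv : φ.q v = 0 := (orth_sing φ hφ v).1 hv
    have hvv : φ.f v v = 0 := φ.toPolar.sing_self v hv
    obtain ⟨w, hw⟩ : ∃ w, w = c⁻¹ • w0 + (-(c⁻¹ * c⁻¹ * φ.q w0)) • v := ⟨_, rfl⟩
    have hwv : φ.f w v = 1 := by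
      rw [hw, orth_f_add φ hφ, orth_f_smul φ hφ, orth_f_smul φ hφ, hvv, mul_zero, add_zero, ← hc,
        inv_mul_cancel₀ hw0]
    have hqw : φ.q w = 0 := by
      rw [hw, orth_add φ hφ, orth_smul φ hφ, orth_smul φ hφ, hqv, mul_zero, add_zero, map_smul,
        orth_f_smul φ hφ, ← hc, smul_eq_mul]
      field_simp
      ring
    have hwv0 : φ.f w v ≠ 0 := by
      rw [hwv]
      exact one_ne_zero
    obtain ⟨e, f, hef⟩ := ih (resForm φ hv hwv0)
      (by
        unfold resForm
        rw [Form.restrict_kind, hφ])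
      (resForm_params φ hv hwv0 (d := 2 * r) hp)
    refine ⟨Fin.cons v (fun i => (e i : V)), Fin.cons w (fun i => (f i : V)), fun x y => ?_⟩
    rw [Fin.sum_univ_succ, Fin.sum_univ_succ, Fin.sum_univ_succ]
    simp only [Fin.cons_zero, Fin.cons_succ]
    obtain ⟨u, hu⟩ : ∃ u : perp2 φ v w, u = ∑ i : Fin r, x i.succ • e i + ∑ i : Fin r,
      y i.succ • f i := ⟨_, rfl⟩
    have hu2 : (u : V) = ∑ i : Fin r, x i.succ • (e i : V) + ∑ i : Fin r, y i.succ • (f i : V) := by
      rw [hu]
      simp
    have hqu : φ.q u = ∑ i : Fin r, x i.succ * y i.succ := by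
      rw [← hef (fun i => x i.succ) (fun i => y i.succ), ← hu]
      unfold resForm
      rw [restrict_q]
    have hre : x 0 • v + ∑ i : Fin r, x i.succ • (e i : V) +
        (y 0 • w + ∑ i : Fin r, y i.succ • (f i : V)) = (x 0 • v + y 0 • w) + u := by
      rw [hu2]
      abel
    have hfu : φ.f (x 0 • v + y 0 • w) u = 0 := by
      have h1 : φ.f v u = 0 := u.2.1
      have h2 : φ.f w u = 0 := u.2.2
      rw [orth_f_add φ hφ, orth_f_smul φ hφ, orth_f_smul φ hφ, h1, h2, mul_zero, mul_zero,
        add_zero]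
    rw [hre, orth_add φ hφ, hfu, add_zero, hqu, orth_add φ hφ, orth_smul φ hφ, orth_smul φ hφ,
      hqv, hqw, mul_zero, mul_zero, zero_add, zero_add, orth_f_smul φ hφ, map_smul,
      orth_f_comm φ hφ, hwv, smul_eq_mul, mul_one]

/-- a set of `q^(r-1) + 1` pairwise non-orthogonal singular points of a hyperbolic space meets all
generators -/
theorem ovoid_block [Finite F] [FiniteDimensional F V] {P : Polar F V} {k : ℕ}
    (hgen : ∀ U, P.Gen U → finrank F U = k + 1)
    (hnb : ∀ U, P.Gen U → Nonempty (Nb P U Unit)) {T : Finset (ℙ F V)}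
    (hs : ∀ y ∈ T, P.sing y.rep) (hpw : ∀ x ∈ T, ∀ y ∈ T, x ≠ y → P.f x.rep y.rep ≠ 0)
    (hcard : T.card = Nat.card F ^ k + 1) : P.Block T := by
  refine ⟨hs, ?_⟩
  have hle : ∀ U, P.Gen U → tt T U ≤ 1 := by
    intro U hU
    unfold tt
    rw [Finset.card_le_one]
    intro x hx y hy
    rw [Finset.mem_filter] at hx hy
    by_contra hne
    exact hpw x hx.1 y hy.1 hne (hU.1.2 _ hx.2 _ hy.2)
  have hstep : ∀ U, P.Gen U → tt T U = 1 → ∀ N : Nb P U Unit, ∀ p, tt T (N.nb p) = 1 := by
    intro U hU htU N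
    have hA := sumA N (n := k) (hgen U hU) hs
    rw [htU, hcard, Fintype.card_unit] at hA
    have h4 : (Finset.univ : Finset (Unit × ℙ F (Dual F U))).card = geo (Nat.card F) (k + 1) := by
      rw [Finset.card_univ, Fintype.card_prod, Fintype.card_unit,
        ← Finset.card_univ (α := ℙ F (Dual F U)), ← hgen U hU,
        ← pts_univ, card_pts, finrank_top, Subspace.dual_finrank_eq, one_mul]
    have h5 : ∑ p, tt T (N.nb p) = ∑ p : Unit × ℙ F (Dual F U), 1 := by
      rw [← Finset.card_eq_sum_ones, h4, geo_succ']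
      omega
    have h6 := (Finset.sum_eq_sum_iff_of_le (s := Finset.univ)
      (f := fun p => tt T (N.nb p)) (g := fun _ => 1) (fun p _ => hle _ (N.gen p))).1 h5
    intro p
    exact h6 p (Finset.mem_univ _)
  obtain ⟨z, hz⟩ : T.Nonempty := by
    rw [← Finset.card_pos, hcard]
    omega
  obtain ⟨U0, hU0, hzU0⟩ := Polar.exists_gen_ge (span_ts (hs z hz))
  have hU01 : tt T U0 = 1 := by
    apply le_antisymm (hle U0 hU0)
    unfold tt
    rw [Nat.succ_le_iff, Finset.card_pos]
    exact ⟨z, Finset.mem_filter.2 ⟨hz, hzU0 (Submodule.mem_span_singleton_self _)⟩⟩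
  intro U hU
  have key : ∀ n : ℕ, ∀ W, P.Gen W → tt T W = 1 →
      finrank F U ≤ finrank F (W ⊓ U : Submodule F V) + n → tt T U = 1 := by
    intro n
    induction n with
    | zero =>
      intro W hW htW hfin
      have h1 : W ⊓ U = U := Submodule.eq_of_le_of_finrank_le inf_le_right (by omega)
      have h2 : U ≤ W := inf_eq_right.1 h1
      have h3 := hU.2 W hW.1 h2
      rw [← h3]
      exact htW
    | succ n ih =>
      intro W hW htW hfin
      by_cases hUW : U ≤ W
      · have h3 := hU.2 W hW.1 hUW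
        rw [← h3]
        exact htW
      · obtain ⟨y, hyU, hyW⟩ := Set.not_subset.1 hUW
        obtain ⟨N⟩ := hnb W hW
        obtain ⟨p, hp, _⟩ := N.out y (hU.1.1 y hyU) hyW
        apply ih (N.nb p) (N.gen p) (hstep W hW htW N p)
        have h1 : W ⊓ U < N.nb p ⊓ U := by
          rw [SetLike.lt_iff_le_and_exists]
          refine ⟨?_, y, ⟨hp, hyU⟩, fun h => hyW h.1⟩
          intro x hx
          refine ⟨?_, hx.2⟩
          have h2 := N.perp p y hp hyW ⟨x, hx.1⟩
          have h3 := N.inU p ⟨x, hx.1⟩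
          exact h3.2 (h2.1 (hU.1.2 y hyU x hx.2))
        have h2 := Submodule.finrank_lt_finrank_of_lt h1
        omega
  have h1 := key (finrank F U) U0 hU0 hU01 (by omega)
  have h2 : 0 < (T.filter (fun y => y.rep ∈ U)).card := by
    unfold tt at h1
    omega
  obtain ⟨y, hy⟩ := Finset.card_pos.1 h2
  rw [Finset.mem_filter] at hy
  exact ⟨y, hy.1, hy.2⟩

end Pool.Agent.Helper53.PB
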