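import Pool.Agent.Helper53.PB.WeightThree

/-!
# A large set of pairwise non-orthogonal points
-/

set_option autoImplicit false

open Module Classical
open scoped LinearAlgebra.Projectivization

namespace Pool.Agent.Helper53.PB

universe u v

variable {F : Type u} {V : Type v} [Field F] [AddCommGroup V] [Module F V]
variable {P : Polar F V} {T : Finset (ℙ F V)} {ι : Type} [Fintype ι] {k j : ℕ}

/-- the totally singular lines through a point of positive weight and a point of `T` -/
noncomputable def bigLines (P : Polar F V) [Finite V] (T : Finset (ℙ F V)) :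
    Finset (Submodule F V) :=
  ((Finset.univ ×ˢ T).filter (fun p : ℙ F V × ℙ F V => 0 < eps P T p.1 ∧
    P.f p.1.rep p.2.rep = 0)).image (fun p => line p.1 p.2)

theorem mem_bigLines [Finite V] {l : Submodule F V} :
    l ∈ bigLines P T ↔ ∃ X z, 0 < eps P T X ∧ z ∈ T ∧ P.f X.rep z.rep = 0 ∧ line X z = l := by
  unfold bigLines
  rw [Finset.mem_image]
  constructor
  · rintro ⟨p, hp, rfl⟩
    rw [Finset.mem_filter, Finset.mem_product] at hp
    exact ⟨p.1, p.2, hp.2.1, hp.1.2, hp.2.2, rfl⟩
  · rintro ⟨X, z, h1, h2, h3, rfl⟩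
    exact ⟨(X, z), by
      rw [Finset.mem_filter, Finset.mem_product]
      exact ⟨⟨Finset.mem_univ _, h2⟩, h1, h3⟩, rfl⟩

theorem eps_pos {X : ℙ F V} (h : 0 < eps P T X) : P.sing X.rep ∧ X ∉ T := by
  by_contra h1
  unfold eps at h
  rw [if_neg h1] at h
  exact lt_irrefl _ h

theorem line_ts {X z : ℙ F V} (hX : P.sing X.rep) (hz : P.sing z.rep)
    (h : P.f X.rep z.rep = 0) : P.TS (line X z) := by
  unfold line
  apply (span_ts hX).sup_span hz
  intro x hx
  obtain ⟨a, rfl⟩ := Submodule.mem_span_singleton.1 hx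
  exact Polar.smul_left _ h

/-- properties of the lines -/
theorem bigLines_prop [Finite F] [Finite V] [FiniteDimensional F V] (S : Setup P T ι k j)
    (hj : j * (Nat.card F + 1) < Fintype.card ι * Nat.card F ^ k) {l : Submodule F V}
    (hl : l ∈ bigLines P T) : P.TS l ∧ finrank F l = 2 ∧ (∃ z ∈ T, z.rep ∈ l) ∧
      ∑ X ∈ pts l, eps P T X + 1 = tt T l := by
  obtain ⟨X, z, h1, h2, h3, rfl⟩ := mem_bigLines.1 hl
  obtain ⟨h4, h5⟩ := eps_pos h1
  have hne : X ≠ z := by
    rintro rfl
    exact h5 h2
  have h6 := line_ts h4 (S.block.1 z h2) h3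
  exact ⟨h6, finrank_line hne, ⟨z, h2, right_mem_line _ _⟩,
    line_weight S hj hne h6 h2 (right_mem_line _ _)⟩

/-- number of the lines through a point -/
noncomputable def LL (P : Polar F V) [Finite V] (T : Finset (ℙ F V)) (X : ℙ F V) : ℕ :=
  ((bigLines P T).filter (fun l => X.rep ∈ l)).card

theorem LL_bound [Finite F] [Finite V] [FiniteDimensional F V] (S : Setup P T ι k j)
    (hj : j * (Nat.card F + 1) < Fintype.card ι * Nat.card F ^ k) {X : ℙ F V}
    (hX : 0 < eps P T X) : LL P T X ≤ Fintype.card ι * Nat.card F ^ k + (1 + j) / 2 := by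
  obtain ⟨hs, hXT⟩ := eps_pos hX
  obtain ⟨h1, h2, h3⟩ := nn_lower S hs hXT
  have heps := eps_not hs hXT
  -- the lines through X meet T in many points
  have h4 : (1 + eps P T X) * LL P T X ≤
      ∑ l ∈ (bigLines P T).filter (fun l => X.rep ∈ l), tt T l := by
    unfold LL
    rw [mul_comm, ← smul_eq_mul]
    apply Finset.card_nsmul_le_sum
    intro l hl
    rw [Finset.mem_filter] at hl
    obtain ⟨_, _, _, h5⟩ := bigLines_prop S hj hl.1
    have h6 : eps P T X ≤ ∑ X ∈ pts l, eps P T X :=
      Finset.single_le_sum (f := fun X => eps P T X) (fun _ _ => Nat.zero_le _)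
        (mem_pts.2 hl.2)
    omega
  have h5 : ∑ l ∈ (bigLines P T).filter (fun l => X.rep ∈ l), tt T l ≤ P.nn T X := by
    unfold tt Polar.nn
    simp_rw [Finset.card_filter]
    rw [Finset.sum_comm]
    apply Finset.sum_le_sum
    intro y hy
    rw [← Finset.card_filter]
    have hyX : X ≠ y := by
      rintro rfl
      exact hXT hy
    have h6 : ((bigLines P T).filter (fun l => X.rep ∈ l)).filter (fun l => y.rep ∈ l) ⊆
        if P.f y.rep X.rep = 0 then {line X y} else ∅ := by
      intro l hl
      rw [Finset.mem_filter, Finset.mem_filter] at hl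
      obtain ⟨⟨h7, h8⟩, h9⟩ := hl
      obtain ⟨h10, h11, _, _⟩ := bigLines_prop S hj h7
      rw [if_pos (h10.2 _ h9 _ h8), Finset.mem_singleton]
      symm
      apply Submodule.eq_of_le_of_finrank_eq (line_le h8 h9)
      rw [finrank_line hyX, h11]
    refine (Finset.card_le_card h6).trans ?_
    split_ifs <;> simp
  obtain ⟨e, he⟩ : ∃ e, e = eps P T X := ⟨_, rfl⟩
  rw [← he] at hX heps h4
  obtain ⟨L, hL⟩ : ∃ L, L = LL P T X := ⟨_, rfl⟩
  rw [← hL] at h4 ⊢
  obtain ⟨m, hm⟩ : ∃ m, m = Fintype.card ι * Nat.card F ^ k := ⟨_, rfl⟩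
  rw [← hm] at h3 ⊢
  have h6 : tmin P T X = 1 + e := by omega
  rw [h6] at h3
  have h7 : (1 + e) * L ≤ 1 + j + (1 + e) * m := h4.trans (h5.trans h3)
  by_contra hlt
  push Not at hlt
  have h8 : m + (1 + j) / 2 + 1 ≤ L := hlt
  have h9 : (1 + e) * (m + (1 + j) / 2 + 1) ≤ (1 + e) * L := Nat.mul_le_mul_left _ h8
  have h10 : 2 * ((1 + j) / 2 + 1) ≤ (1 + e) * ((1 + j) / 2 + 1) :=
    Nat.mul_le_mul_right _ (by omega)
  have h11 : (1 + e) * (m + (1 + j) / 2 + 1) = (1 + e) * m + (1 + e) * ((1 + j) / 2 + 1) := by ring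
  omega

theorem exists_indep [Finite F] [Finite V] [FiniteDimensional F V] (S : Setup P T ι k j)
    (hj : j * (Nat.card F + 1) < Fintype.card ι * Nat.card F ^ k) :
    ∃ I : Finset (ℙ F V), I ⊆ T ∧ (∀ x ∈ I, ∀ y ∈ I, x ≠ y → P.f x.rep y.rep ≠ 0) ∧
      T.card ≤ I.card + j * (Fintype.card ι * Nat.card F ^ k + (1 + j) / 2) := by
  have hch : ∀ l : bigLines P T, ∃ z, z ∈ T ∧ z.rep ∈ (l : Submodule F V) := fun l => by
    obtain ⟨_, _, ⟨z, hz, hzl⟩, _⟩ := bigLines_prop S hj l.2
    exact ⟨z, hz, hzl⟩
  choose g hg1 hg2 using hch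
  obtain ⟨D, hD⟩ : ∃ D, D = (Finset.univ : Finset (bigLines P T)).biUnion
    (fun l => (T.filter (fun y => y.rep ∈ (l : Submodule F V))).erase (g l)) := ⟨_, rfl⟩
  refine ⟨T \ D, Finset.sdiff_subset, ?_, ?_⟩
  · intro x hx y hy hxy hperp
    rw [Finset.mem_sdiff] at hx hy
    have hts := line_ts (S.block.1 x hx.1) (S.block.1 y hy.1) hperp
    have hw := line_weight S hj hxy hts hx.1 (left_mem_line _ _)
    have h2 : 2 ≤ tt T (line x y) := by
      unfold tt
      have : ({x, y} : Finset (ℙ F V)) ⊆ T.filter (fun z => z.rep ∈ line x y) := by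
        intro z hz
        simp only [Finset.mem_insert, Finset.mem_singleton] at hz
        rw [Finset.mem_filter]
        rcases hz with rfl | rfl
        · exact ⟨hx.1, left_mem_line _ _⟩
        · exact ⟨hy.1, right_mem_line _ _⟩
      have h3 := Finset.card_le_card this
      rwa [Finset.card_pair hxy] at h3
    obtain ⟨X, hX, hXe⟩ : ∃ X ∈ pts (line x y), 0 < eps P T X := by
      by_contra hno
      push Not at hno
      have : ∑ X ∈ pts (line x y), eps P T X = 0 := by
        apply Finset.sum_eq_zero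
        intro X hX
        exact Nat.le_zero.1 (hno X hX)
      omega
    obtain ⟨hXs, hXT⟩ := eps_pos hXe
    rw [mem_pts] at hX
    have hXx : X ≠ x := by
      rintro rfl
      exact hXT hx.1
    have hl : line X x = line x y := by
      apply Submodule.eq_of_le_of_finrank_eq (line_le hX (left_mem_line _ _))
      rw [finrank_line hXx, finrank_line hxy]
    have hmem : line x y ∈ bigLines P T :=
      mem_bigLines.2 ⟨X, x, hXe, hx.1, hts.2 _ hX _ (left_mem_line _ _), hl⟩
    -- one of the two points is deleted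
    by_cases hxg : x = g ⟨line x y, hmem⟩
    · apply hy.2
      rw [hD, Finset.mem_biUnion]
      refine ⟨⟨line x y, hmem⟩, Finset.mem_univ _, Finset.mem_erase.2 ⟨?_,
        Finset.mem_filter.2 ⟨hy.1, right_mem_line _ _⟩⟩⟩
      rw [← hxg]
      exact hxy.symm
    · apply hx.2
      rw [hD, Finset.mem_biUnion]
      exact ⟨⟨line x y, hmem⟩, Finset.mem_univ _, Finset.mem_erase.2 ⟨hxg,
        Finset.mem_filter.2 ⟨hx.1, left_mem_line _ _⟩⟩⟩
  · have h1 : D.card ≤ j * (Fintype.card ι * Nat.card F ^ k + (1 + j) / 2) := by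
      calc D.card ≤ ∑ l : bigLines P T,
            ((T.filter (fun y => y.rep ∈ (l : Submodule F V))).erase (g l)).card := by
              rw [hD]
              exact Finset.card_biUnion_le
        _ = ∑ l : bigLines P T, ∑ X ∈ pts (l : Submodule F V), eps P T X := by
              apply Finset.sum_congr rfl
              intro l _
              obtain ⟨_, _, _, h5⟩ := bigLines_prop S hj l.2
              rw [Finset.card_erase_of_mem (Finset.mem_filter.2 ⟨hg1 l, hg2 l⟩)]
              unfold tt at h5
              omega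
        _ = ∑ l ∈ bigLines P T, ∑ X ∈ pts l, eps P T X :=
              Finset.sum_coe_sort (bigLines P T) (fun l => ∑ X ∈ pts l, eps P T X)
        _ = ∑ X, eps P T X * LL P T X := by
              have h2 : ∀ l ∈ bigLines P T, ∑ X ∈ pts l, eps P T X =
                  ∑ X, if X.rep ∈ l then eps P T X else 0 := by
                intro l _
                rw [← Finset.sum_filter]
                rfl
              rw [Finset.sum_congr rfl h2, Finset.sum_comm]
              apply Finset.sum_congr rfl
              intro X _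
              rw [← Finset.sum_filter, Finset.sum_const, smul_eq_mul, mul_comm]
              rfl
        _ ≤ ∑ X, eps P T X * (Fintype.card ι * Nat.card F ^ k + (1 + j) / 2) := by
              apply Finset.sum_le_sum
              intro X _
              rcases Nat.eq_zero_or_pos (eps P T X) with h | h
              · rw [h, zero_mul, zero_mul]
              · exact Nat.mul_le_mul_left _ (LL_bound S hj h)
        _ = _ := by rw [← Finset.sum_mul, total_weight S hj]
    have h2 := Finset.le_card_sdiff D T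
    omega

end Pool.Agent.Helper53.PB
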