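import Pool.Agent.Helper53.PB.Lift
import Pool.Agent.Helper53.PB.Indep

/-!
# Neighbours of generators in hyperbolic spaces
-/

set_option autoImplicit false

open Module Classical
open scoped LinearAlgebra.Projectivization

namespace Pool.Agent.Helper53.PB

universe u v

variable {F : Type u} {V : Type v} [Field F] [AddCommGroup V] [Module F V]

section

variable (Q : QuadraticForm F V)
  (nd : ∀ x, Q x = 0 → (∀ y, QuadraticMap.polar Q x y = 0) → x = 0)

include nd

theorem surj_dual [FiniteDimensional F V] {U : Submodule F V} (hU : ∀ x ∈ U, Q x = 0)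
    (g : Dual F U) : ∃ y : V, ∀ u : U, QuadraticMap.polar Q y u = g u := by
  obtain ⟨L, hL⟩ : ∃ L : U →ₗ[F] Dual F V, ∀ u y, L u y = QuadraticMap.polar Q u y :=
    ⟨(QuadraticMap.polarBilin Q).comp U.subtype, fun u y => rfl⟩
  have hinj : Function.Injective L := by
    rw [← LinearMap.ker_eq_bot, LinearMap.ker_eq_bot']
    intro u hu
    apply Subtype.ext
    apply nd _ (hU _ u.2)
    intro y
    rw [← hL, hu]
    rfl
  have hsurj := LinearMap.dualMap_surjective_of_injective hinj
  obtain ⟨Φ, hΦ⟩ := hsurj g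
  obtain ⟨y, hy⟩ := (Module.evalEquiv F V).surjective Φ
  refine ⟨y, fun u => ?_⟩
  rw [← hΦ, LinearMap.dualMap_apply, ← hy, QuadraticMap.polar_comm, ← hL]
  rfl

theorem perp_self [FiniteDimensional F V] {U : Submodule F V} (hU : ∀ x ∈ U, Q x = 0)
    (hU2 : ∀ x ∈ U, ∀ y ∈ U, QuadraticMap.polar Q x y = 0) {r : ℕ} (hr : finrank F U = r)
    (hV : finrank F V = 2 * r) {y : V} (hy : ∀ u ∈ U, QuadraticMap.polar Q y u = 0) : y ∈ U := by
  obtain ⟨L, hL⟩ : ∃ L : V →ₗ[F] Dual F U, ∀ y u, L y u = QuadraticMap.polar Q y u :=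
    ⟨(Module.Dual.transpose (R := F) U.subtype).comp (QuadraticMap.polarBilin Q), fun y u => rfl⟩
  have hsurj : LinearMap.range L = ⊤ := by
    rw [LinearMap.range_eq_top]
    intro g
    obtain ⟨y, hy⟩ := surj_dual Q nd hU g
    refine ⟨y, ?_⟩
    ext u
    rw [hL, hy]
  have h1 := LinearMap.finrank_range_add_finrank_ker L
  rw [hsurj, finrank_top, Subspace.dual_finrank_eq, hr, hV] at h1
  have h2 : U ≤ LinearMap.ker L := by
    intro x hx
    rw [LinearMap.mem_ker]
    ext u
    rw [hL]
    exact hU2 x hx u u.2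
  have h3 : U = LinearMap.ker L := Submodule.eq_of_le_of_finrank_eq h2 (by omega)
  rw [h3, LinearMap.mem_ker]
  ext u
  rw [hL]
  exact hy u u.2

theorem exists_sing [FiniteDimensional F V] {U : Submodule F V} (hU : ∀ x ∈ U, Q x = 0)
    (hU2 : ∀ x ∈ U, ∀ y ∈ U, QuadraticMap.polar Q x y = 0) {g : Dual F U} (hg : g ≠ 0) :
    ∃ y : V, Q y = 0 ∧ ∀ u : U, QuadraticMap.polar Q y u = g u := by
  obtain ⟨y, hy⟩ := surj_dual Q nd hU g
  obtain ⟨u, hu⟩ : ∃ u, g u ≠ 0 := by
    by_contra h
    push Not at h
    exact hg (LinearMap.ext h)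
  refine ⟨y + (-(Q y) / g u) • (u : V), ?_, ?_⟩
  · rw [QuadraticMap.map_add Q, QuadraticMap.map_smul, hU _ u.2, QuadraticMap.polar_smul_right, hy u,
      smul_zero, add_zero, smul_eq_mul, div_mul_cancel₀ _ hu]
    ring
  · intro u'
    rw [QuadraticMap.polar_add_left, QuadraticMap.polar_smul_left, hU2 _ u.2 _ u'.2, smul_zero,
      add_zero, hy]

end

theorem hyp_nb [FiniteDimensional F V] (φ : Form F V) (hφ : φ.kind = .orthogonal) {r : ℕ}
    (hV : finrank F V = 2 * r) (hgen : ∀ U, φ.toPolar.Gen U → finrank F U = r)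
    {U : Submodule F V} (hU : φ.toPolar.Gen U) : Nonempty (Nb φ.toPolar U Unit) := by
  cases φ with
  | symplectic B alt nd => cases hφ
  | hermitian σ i n B hm nd => cases hφ
  | orthogonal Q nd =>
    obtain ⟨P, hP⟩ : ∃ P, P = (Form.orthogonal Q nd).toPolar := ⟨_, rfl⟩
    have hPf : ∀ x y, P.f x y = QuadraticMap.polar Q x y := by
      rw [hP]
      intro x y
      rfl
    have hPs : ∀ x, P.sing x ↔ Q x = 0 := by
      rw [hP]
      intro x
      exact Iff.rfl
    rw [← hP] at hgen hU ⊢
    have hUr := hgen U hU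
    have hU1 : ∀ x ∈ U, Q x = 0 := fun x hx => (hPs x).1 (hU.1.1 x hx)
    have hU2 : ∀ x ∈ U, ∀ y ∈ U, QuadraticMap.polar Q x y = 0 := fun x hx y hy => by
      rw [← hPf]
      exact hU.1.2 x hx y hy
    have hch : ∀ G : ℙ F (Dual F U), ∃ y : V, Q y = 0 ∧ ∀ u : U, QuadraticMap.polar Q y u = G.rep u :=
      fun G => exists_sing Q nd hU1 hU2 G.rep_nonzero
    choose Y hY1 hY2 using hch
    have hYU : ∀ G, Y G ∉ U := by
      intro G hG
      apply G.rep_nonzero
      ext u
      rw [← hY2, hU2 _ hG _ u.2]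
      rfl
    obtain ⟨nb, hnb⟩ : ∃ nb : Unit × ℙ F (Dual F U) → Submodule F V,
      ∀ p, nb p = (LinearMap.ker p.2.rep).map U.subtype ⊔ Submodule.span F {Y p.2} :=
      ⟨_, fun _ => rfl⟩
    have hmem : ∀ p x, x ∈ nb p ↔ ∃ u : U, p.2.rep u = 0 ∧ ∃ c : F, x = (u : V) + c • Y p.2 := by
      intro p x
      rw [hnb, Submodule.mem_sup]
      constructor
      · rintro ⟨y, ⟨u, hu, rfl⟩, z, hz, rfl⟩
        obtain ⟨c, rfl⟩ := Submodule.mem_span_singleton.1 hz
        exact ⟨u, hu, c, rfl⟩
      · rintro ⟨u, hu, c, rfl⟩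
        exact ⟨u, ⟨u, hu, rfl⟩, c • Y p.2,
          Submodule.smul_mem _ _ (Submodule.mem_span_singleton_self _), rfl⟩
    have hfx : ∀ p x, x ∈ nb p → x ∉ U → ∃ c : F, c ≠ 0 ∧ ∀ u : U, P.f x u = c * p.2.rep u := by
      intro p x hx hxU
      obtain ⟨u, hu, c, rfl⟩ := (hmem p x).1 hx
      refine ⟨c, ?_, ?_⟩
      · rintro rfl
        apply hxU
        rw [zero_smul, add_zero]
        exact u.2
      · intro u'
        rw [hPf, QuadraticMap.polar_add_left, QuadraticMap.polar_smul_left, hU2 _ u.2 _ u'.2, hY2,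
          zero_add, smul_eq_mul]
    refine ⟨⟨nb, ?_, ?_, ?_, ?_⟩⟩
    · intro p
      have hTS : P.TS (nb p) := by
        rw [hnb]
        apply Polar.TS.sup_span
        · apply hU.1.mono
          rintro _ ⟨u, _, rfl⟩
          exact u.2
        · exact (hPs _).2 (hY1 _)
        · rintro _ ⟨u, hu, rfl⟩
          rw [hPf, QuadraticMap.polar_comm]
          change QuadraticMap.polar Q (Y p.2) u = 0
          rw [hY2]
          exact hu
      apply Polar.gen_of_finrank hgen hTS
      have h1 : (LinearMap.ker p.2.rep).map U.subtype ⊓ Submodule.span F {Y p.2} = ⊥ := by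
        rw [eq_bot_iff]
        rintro x ⟨⟨u, hu, rfl⟩, hx⟩
        obtain ⟨c, hc⟩ := Submodule.mem_span_singleton.1 hx
        by_cases hc0 : c = 0
        · rw [hc0, zero_smul] at hc
          rw [← hc]
          exact zero_mem _
        · exfalso
          apply hYU p.2
          rw [← Submodule.smul_mem_iff U hc0, hc]
          exact u.2
      have h2 := Submodule.finrank_sup_add_finrank_inf_eq
        ((LinearMap.ker p.2.rep).map U.subtype) (Submodule.span F {Y p.2})
      have hY0 : Y p.2 ≠ 0 := fun h => hYU p.2 (by rw [h]; exact zero_mem _)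
      rw [h1, finrank_bot, finrank_span_singleton hY0, add_zero,
        ← (Submodule.equivMapOfInjective U.subtype (Submodule.injective_subtype U)
          (LinearMap.ker p.2.rep)).finrank_eq] at h2
      have h3 := Module.Dual.finrank_ker_add_one_of_ne_zero p.2.rep_nonzero
      rw [hnb, h2, h3, hUr]
    · intro p x
      rw [hmem]
      constructor
      · rintro ⟨u, hu, c, hc⟩
        by_cases hc0 : c = 0
        · rw [hc0, zero_smul, add_zero] at hc
          rw [Subtype.ext hc]
          exact hu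
        · exfalso
          apply hYU p.2
          rw [← Submodule.smul_mem_iff U hc0]
          have : c • Y p.2 = x - u := by
            rw [hc]
            abel
          rw [this]
          exact U.sub_mem x.2 u.2
      · intro hx
        exact ⟨x, hx, 0, by simp⟩
    · intro x hx hxU
      have hg : (P.f x).domRestrict U ≠ 0 := by
        intro h0
        apply hU.not_le hx hxU
        intro u hu
        exact LinearMap.congr_fun h0 ⟨u, hu⟩
      obtain ⟨a, ha⟩ := Projectivization.exists_smul_eq_mk_rep F _ hg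
      refine ⟨((), Projectivization.mk F _ hg), ?_, ?_⟩
      · obtain ⟨y, hy⟩ : ∃ y, y = Y (Projectivization.mk F _ hg) := ⟨_, rfl⟩
        have h1 : (a : F) • x - y ∈ U := by
          apply perp_self Q nd hU1 hU2 hUr hV
          intro u hu
          rw [sub_eq_add_neg, QuadraticMap.polar_add_left, QuadraticMap.polar_smul_left,
            QuadraticMap.polar_neg_left, hy]
          have h2 := hY2 (Projectivization.mk F _ hg) ⟨u, hu⟩
          change QuadraticMap.polar Q _ u = _ at h2
          rw [h2, ← ha, ← hPf]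
          simp [Units.smul_def]
        have h3 : Q ((a : F) • x) = 0 := by
          rw [QuadraticMap.map_smul, (hPs x).1 hx, smul_zero]
        have h4 : (a : F) • x = ((a : F) • x - y) + y := by abel
        have h5 : QuadraticMap.polar Q y ((a : F) • x - y) = 0 := by
          rw [h4, QuadraticMap.map_add Q, hU1 _ h1, hy, hY1, ← hy, zero_add, zero_add,
            QuadraticMap.polar_comm] at h3
          exact h3
        change x ∈ nb _
        have h6 : (a : F) • x ∈ nb ((), Projectivization.mk F _ hg) := by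
          rw [hmem]
          refine ⟨⟨_, h1⟩, ?_, 1, ?_⟩
          · rw [← hY2, ← hy]
            exact h5
          · change (a : F) • x = ((a : F) • x - y) + (1 : F) • Y (Projectivization.mk F _ hg)
            rw [one_smul, ← hy]
            abel
        exact (Submodule.smul_mem_iff _ a.ne_zero).1 h6
      · rintro ⟨⟨⟩, G⟩ hG
        obtain ⟨c, hc0, hc⟩ := hfx _ x hG hxU
        refine Prod.ext rfl ?_
        change G = Projectivization.mk F _ hg
        rw [← G.mk_rep, Projectivization.mk_eq_mk_iff']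
        refine ⟨c⁻¹, ?_⟩
        ext u
        rw [LinearMap.smul_apply, smul_eq_mul]
        change c⁻¹ * P.f x u = _
        rw [hc, ← mul_assoc, inv_mul_cancel₀ hc0, one_mul]
    · intro p x hx hxU u
      obtain ⟨c, hc0, hc⟩ := hfx p x hx hxU
      rw [hc, mul_eq_zero]
      exact or_iff_right hc0

end Pool.Agent.Helper53.PB
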