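import Pool.Agent.Helper53.PB.Lower

/-!
# Small sets meeting all generators are weighted ovoids together with a few points
-/

set_option autoImplicit false

open Module Classical
open scoped LinearAlgebra.Projectivization

namespace Pool.Agent.Helper53.PB

universe u v

variable {F : Type u} {V : Type v} [Field F] [AddCommGroup V] [Module F V]

theorem pts_univ [Finite V] : pts (⊤ : Submodule F V) = Finset.univ := by
  ext P
  rw [mem_pts]
  simp

noncomputable instance dualFinite [Finite F] [FiniteDimensional F V] (U : Submodule F V) :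
    Finite (Dual F U) := Module.finite_of_finite F

/-- The generators meeting a generator `U` in a hyperplane: for each hyperplane of `U` (given by a
point of the dual space) they are indexed by `ι`. -/
structure Nb (P : Polar F V) (U : Submodule F V) (ι : Type) where
  nb : ι × ℙ F (Dual F U) → Submodule F V
  gen : ∀ p, P.Gen (nb p)
  inU : ∀ p (x : U), (x : V) ∈ nb p ↔ p.2.rep x = 0
  out : ∀ x, P.sing x → x ∉ U → ∃! p : ι × ℙ F (Dual F U), x ∈ nb p
  perp : ∀ p x, x ∈ nb p → x ∉ U → ∀ u : U, P.f x u = 0 ↔ p.2.rep u = 0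

/-- number of points of `T` in `U` -/
noncomputable def tt (T : Finset (ℙ F V)) (U : Submodule F V) : ℕ :=
  (T.filter (fun y => y.rep ∈ U)).card

section count

variable {P : Polar F V} {U : Submodule F V} {ι : Type} [Fintype ι]

theorem card_eval_one [Finite F] [FiniteDimensional F V] {n : ℕ} (hU : finrank F U = n + 1)
    {x : U} (hx : x ≠ 0) :
    (Finset.univ.filter (fun G : ℙ F (Dual F U) => G.rep x = 0)).card = geo (Nat.card F) n := by
  have h1 : Finset.univ.filter (fun G : ℙ F (Dual F U) => G.rep x = 0) =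
      pts (LinearMap.ker (Dual.eval F U x)) := by
    ext G
    simp [mem_pts]
  rw [h1, card_pts]
  congr 1
  have h2 : Dual.eval F U x ≠ 0 := by
    intro h0
    apply hx
    exact (Module.forall_dual_apply_eq_zero_iff F x).1 (fun g => LinearMap.congr_fun h0 g)
  have h3 := Module.Dual.finrank_ker_add_one_of_ne_zero h2
  rw [Subspace.dual_finrank_eq, hU] at h3
  omega

theorem card_eval_two [Finite F] [FiniteDimensional F V] {n : ℕ} (hU : finrank F U = n + 2)
    {x y : U} (hx : x ≠ 0) (hxy : y ∉ Submodule.span F {x}) :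
    (Finset.univ.filter (fun G : ℙ F (Dual F U) => G.rep x = 0 ∧ G.rep y = 0)).card =
      geo (Nat.card F) n := by
  have h1 : Finset.univ.filter (fun G : ℙ F (Dual F U) => G.rep x = 0 ∧ G.rep y = 0) =
      pts (LinearMap.ker (Dual.eval F U x) ⊓ LinearMap.ker (Dual.eval F U y)) := by
    ext G
    simp [mem_pts]
  rw [h1, card_pts]
  congr 1
  have h2 : Dual.eval F U x ≠ 0 := by
    intro h0
    apply hx
    exact (Module.forall_dual_apply_eq_zero_iff F x).1 (fun g => LinearMap.congr_fun h0 g)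
  have h3 := Module.Dual.finrank_ker_add_one_of_ne_zero h2
  rw [Subspace.dual_finrank_eq, hU] at h3
  have h4 : ¬ LinearMap.ker (Dual.eval F U x) ≤ LinearMap.ker (Dual.eval F U y) := by
    intro hle
    obtain ⟨g, hg1, hg2⟩ := Submodule.exists_le_ker_of_notMem hxy
    apply hg1
    exact hle (x := g) (by
      rw [LinearMap.mem_ker]
      exact hg2 (Submodule.mem_span_singleton_self _))
  have h5 := Polar.finrank_inf_ker _ _ h4
  omega

theorem rep_ne {U : Submodule F V} {x y : ℙ F V} (hx : x.rep ∈ U) (hy : y.rep ∈ U) (h : y ≠ x) :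
    (⟨y.rep, hy⟩ : U) ∉ Submodule.span F {(⟨x.rep, hx⟩ : U)} := by
  intro hmem
  obtain ⟨c, hc⟩ := Submodule.mem_span_singleton.1 hmem
  apply h
  apply eq_of_rep_mem_span
  rw [Submodule.mem_span_singleton]
  exact ⟨c, congrArg Subtype.val hc⟩

/-- sum over all neighbours -/
theorem sumA [Finite F] [FiniteDimensional F V] (N : Nb P U ι) {n : ℕ} (hU : finrank F U = n + 1)
    {T : Finset (ℙ F V)} (hT : ∀ y ∈ T, P.sing y.rep) :
    ∑ p, tt T (N.nb p) + tt T U =
      T.card + tt T U * (Fintype.card ι * geo (Nat.card F) n) := by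
  unfold tt
  simp_rw [Finset.card_filter]
  rw [Finset.sum_comm, Finset.card_eq_sum_ones T, Finset.sum_mul, ← Finset.sum_add_distrib,
    ← Finset.sum_add_distrib]
  apply Finset.sum_congr rfl
  intro y hy
  rw [← Finset.card_filter]
  by_cases hyU : y.rep ∈ U
  · rw [if_pos hyU]
    have h1 : Finset.univ.filter (fun p : ι × ℙ F (Dual F U) => y.rep ∈ N.nb p) =
        Finset.univ ×ˢ Finset.univ.filter (fun G : ℙ F (Dual F U) => G.rep ⟨y.rep, hyU⟩ = 0) := by
      ext p
      rw [Finset.mem_filter, Finset.mem_product, Finset.mem_filter, ← N.inU p ⟨y.rep, hyU⟩]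
      simp
    rw [h1, Finset.card_product, Finset.card_univ, card_eval_one hU]
    · ring
    · intro h0
      exact y.rep_nonzero (congrArg Subtype.val h0)
  · rw [if_neg hyU]
    obtain ⟨p, hp, huniq⟩ := N.out y.rep (hT y hy) hyU
    have h1 : Finset.univ.filter (fun p : ι × ℙ F (Dual F U) => y.rep ∈ N.nb p) = {p} := by
      ext p'
      rw [Finset.mem_filter, Finset.mem_singleton]
      constructor
      · rintro ⟨_, h⟩
        exact huniq p' h
      · rintro rfl
        exact ⟨Finset.mem_univ _, hp⟩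
    rw [h1, Finset.card_singleton]
    ring

/-- sum over the neighbours containing a point of `U` -/
theorem sumB [Finite F] [FiniteDimensional F V] (N : Nb P U ι) {n : ℕ} (hU : finrank F U = n + 2)
    (hTS : P.TS U) {T : Finset (ℙ F V)} (hT : ∀ y ∈ T, P.sing y.rep) {X : ℙ F V}
    (hX : X.rep ∈ U) :
    ∑ p ∈ Finset.univ.filter (fun p => X.rep ∈ N.nb p), tt T (N.nb p) + tt T U =
      P.nn T X + tt T U * (Fintype.card ι * geo (Nat.card F) n) +
        (if X ∈ T then Fintype.card ι * Nat.card F ^ n else 0) := by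
  have hlast : (if X ∈ T then Fintype.card ι * Nat.card F ^ n else 0) =
      ∑ y ∈ T, if y = X then Fintype.card ι * Nat.card F ^ n else 0 := by
    rw [Finset.sum_ite_eq']
  rw [hlast]
  unfold tt Polar.nn
  simp_rw [Finset.card_filter]
  rw [Finset.sum_comm, Finset.sum_mul, ← Finset.sum_add_distrib,
    ← Finset.sum_add_distrib, ← Finset.sum_add_distrib]
  apply Finset.sum_congr rfl
  intro y hy
  rw [← Finset.card_filter, Finset.filter_filter]
  by_cases hyU : y.rep ∈ U
  · rw [if_pos hyU, if_pos (hTS.2 _ hyU _ hX)]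
    have h1 : Finset.univ.filter (fun p : ι × ℙ F (Dual F U) => X.rep ∈ N.nb p ∧ y.rep ∈ N.nb p) =
        Finset.univ ×ˢ Finset.univ.filter (fun G : ℙ F (Dual F U) => G.rep ⟨X.rep, hX⟩ = 0 ∧
          G.rep ⟨y.rep, hyU⟩ = 0) := by
      ext p
      rw [Finset.mem_filter, Finset.mem_product, Finset.mem_filter, ← N.inU p ⟨y.rep, hyU⟩,
        ← N.inU p ⟨X.rep, hX⟩]
      simp
    have hX0 : (⟨X.rep, hX⟩ : U) ≠ 0 := fun h0 => X.rep_nonzero (congrArg Subtype.val h0)
    rw [h1, Finset.card_product, Finset.card_univ]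
    by_cases hyX : y = X
    · subst hyX
      simp only [and_self, if_true]
      rw [card_eval_one (n := n + 1) hU hX0, geo_succ']
      ring
    · rw [if_neg hyX, card_eval_two hU hX0 (rep_ne hX hyU hyX)]
      ring
  · have hyX : y ≠ X := by
      rintro rfl
      exact hyU hX
    rw [if_neg hyU, if_neg hyX]
    obtain ⟨p, hp, huniq⟩ := N.out y.rep (hT y hy) hyU
    by_cases hperp : P.f y.rep X.rep = 0
    · have h1 : Finset.univ.filter (fun p : ι × ℙ F (Dual F U) => X.rep ∈ N.nb p ∧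
          y.rep ∈ N.nb p) = {p} := by
        ext p'
        rw [Finset.mem_filter, Finset.mem_singleton]
        constructor
        · rintro ⟨_, _, h⟩
          exact huniq p' h
        · rintro rfl
          refine ⟨Finset.mem_univ _, ?_, hp⟩
          rw [N.inU p' ⟨X.rep, hX⟩, ← N.perp p' y.rep hp hyU ⟨X.rep, hX⟩]
          exact hperp
      rw [h1, Finset.card_singleton, if_pos hperp]
      ring
    · have h1 : Finset.univ.filter (fun p : ι × ℙ F (Dual F U) => X.rep ∈ N.nb p ∧
          y.rep ∈ N.nb p) = ∅ := by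
        ext p'
        simp only [Finset.mem_filter, Finset.mem_univ, true_and, Finset.notMem_empty, iff_false,
          not_and]
        intro h2 h3
        apply hperp
        rw [N.inU p' ⟨X.rep, hX⟩, ← N.perp p' y.rep h3 hyU ⟨X.rep, hX⟩] at h2
        exact h2
      rw [h1, Finset.card_empty, if_neg hperp]
      ring

end count

/-- smallest number of points of `T` in a generator through `X` -/
noncomputable def tmin (P : Polar F V) (T : Finset (ℙ F V)) (X : ℙ F V) : ℕ :=
  sInf {t | ∃ U, P.Gen U ∧ X.rep ∈ U ∧ tt T U = t}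

/-- the weights -/
noncomputable def eps (P : Polar F V) (T : Finset (ℙ F V)) (X : ℙ F V) : ℕ :=
  if P.sing X.rep ∧ X ∉ T then tmin P T X - 1 else 0

theorem eps_mem {P : Polar F V} {T : Finset (ℙ F V)} {X : ℙ F V} (h : X ∈ T) : eps P T X = 0 := by
  unfold eps
  rw [if_neg]
  exact fun h1 => h1.2 h

theorem eps_not {P : Polar F V} {T : Finset (ℙ F V)} {X : ℙ F V} (hs : P.sing X.rep)
    (h : X ∉ T) : eps P T X = tmin P T X - 1 := by
  unfold eps
  rw [if_pos ⟨hs, h⟩]

theorem tt_pos {P : Polar F V} {T : Finset (ℙ F V)} (hT : P.Block T) {U : Submodule F V}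
    (hU : P.Gen U) : 1 ≤ tt T U := by
  obtain ⟨y, hy, hyU⟩ := hT.2 U hU
  unfold tt
  rw [Nat.succ_le_iff, Finset.card_pos]
  exact ⟨y, Finset.mem_filter.2 ⟨hy, hyU⟩⟩

theorem span_ts {P : Polar F V} {x : V} (hx : P.sing x) : P.TS (Submodule.span F {x}) := by
  constructor
  · intro y hy
    obtain ⟨a, rfl⟩ := Submodule.mem_span_singleton.1 hy
    exact P.sing_smul a x hx
  · intro y hy z hz
    obtain ⟨a, rfl⟩ := Submodule.mem_span_singleton.1 hy
    obtain ⟨b, rfl⟩ := Submodule.mem_span_singleton.1 hz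
    apply Polar.smul_left
    rw [map_smul, P.sing_self _ hx, smul_zero]

theorem tmin_mem [FiniteDimensional F V] {P : Polar F V} (T : Finset (ℙ F V)) {X : ℙ F V}
    (hs : P.sing X.rep) : ∃ U, P.Gen U ∧ X.rep ∈ U ∧ tt T U = tmin P T X := by
  apply Nat.sInf_mem (s := {t | ∃ U, P.Gen U ∧ X.rep ∈ U ∧ tt T U = t})
  obtain ⟨W, hW, hle⟩ := Polar.exists_gen_ge (span_ts hs)
  exact ⟨_, W, hW, hle (Submodule.mem_span_singleton_self _), rfl⟩

theorem tmin_le {P : Polar F V} {T : Finset (ℙ F V)} {X : ℙ F V} {U : Submodule F V}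
    (hU : P.Gen U) (hX : X.rep ∈ U) : tmin P T X ≤ tt T U :=
  Nat.sInf_le ⟨U, hU, hX, rfl⟩

/-- the standing assumptions: rank `k + 2`, all generators have neighbours indexed by `ι`, and `T` is
an inclusion-minimal blocking set of size `s q^(k+1) + 1 + j` -/
structure Setup (P : Polar F V) (T : Finset (ℙ F V)) (ι : Type) [Fintype ι] (k j : ℕ) : Prop where
  gen : ∀ U, P.Gen U → finrank F U = k + 2
  nbs : ∀ U, P.Gen U → Nonempty (Nb P U ι)
  block : P.Block T
  tangent : ∀ z ∈ T, ∃ U, P.Gen U ∧ z.rep ∈ U ∧ ∀ y ∈ T, y.rep ∈ U → y = z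
  card : T.card = Fintype.card ι * Nat.card F ^ (k + 1) + 1 + j

section main

variable {P : Polar F V} {T : Finset (ℙ F V)} {ι : Type} [Fintype ι] {k j : ℕ}

theorem tt_one {U : Submodule F V} {z : ℙ F V} (hz : z ∈ T) (hzU : z.rep ∈ U)
    (huniq : ∀ y ∈ T, y.rep ∈ U → y = z) : tt T U = 1 := by
  unfold tt
  rw [Finset.card_eq_one]
  refine ⟨z, ?_⟩
  ext y
  rw [Finset.mem_filter, Finset.mem_singleton]
  constructor
  · rintro ⟨h1, h2⟩
    exact huniq y h1 h2
  · rintro rfl
    exact ⟨hz, hzU⟩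

/-- neighbours not through a point of `U` -/
theorem card_not [Finite F] [FiniteDimensional F V] {U : Submodule F V} (N : Nb P U ι) {n : ℕ}
    (hU : finrank F U = n + 1) {X : ℙ F V} (hX : X.rep ∈ U) :
    (Finset.univ.filter (fun p => X.rep ∈ N.nb p)).card = Fintype.card ι * geo (Nat.card F) n ∧
    (Finset.univ.filter (fun p => ¬ X.rep ∈ N.nb p)).card = Fintype.card ι * Nat.card F ^ n := by
  have h1 : Finset.univ.filter (fun p : ι × ℙ F (Dual F U) => X.rep ∈ N.nb p) =
      Finset.univ ×ˢ Finset.univ.filter (fun G : ℙ F (Dual F U) => G.rep ⟨X.rep, hX⟩ = 0) := by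
    ext p
    rw [Finset.mem_filter, Finset.mem_product, Finset.mem_filter, ← N.inU p ⟨X.rep, hX⟩]
    simp
  have hX0 : (⟨X.rep, hX⟩ : U) ≠ 0 := fun h0 => X.rep_nonzero (congrArg Subtype.val h0)
  have h2 : (Finset.univ.filter (fun p => X.rep ∈ N.nb p)).card =
      Fintype.card ι * geo (Nat.card F) n := by
    rw [h1, Finset.card_product, Finset.card_univ, card_eval_one hU hX0]
  refine ⟨h2, ?_⟩
  have h3 := Finset.card_filter_add_card_filter_not (s := Finset.univ)
    (fun p : ι × ℙ F (Dual F U) => X.rep ∈ N.nb p)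
  have h4 : (Finset.univ : Finset (ι × ℙ F (Dual F U))).card =
      Fintype.card ι * geo (Nat.card F) (n + 1) := by
    rw [Finset.card_univ, Fintype.card_prod, ← Finset.card_univ (α := ℙ F (Dual F U)), ← hU,
      ← pts_univ, card_pts, finrank_top, Subspace.dual_finrank_eq]
  rw [h2, h4, geo_succ'] at h3
  have h5 : Fintype.card ι * (geo (Nat.card F) n + Nat.card F ^ n) =
    Fintype.card ι * geo (Nat.card F) n + Fintype.card ι * Nat.card F ^ n := by ring
  omega

theorem nn_lower [Finite F] [FiniteDimensional F V] (S : Setup P T ι k j) {X : ℙ F V}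
    (hs : P.sing X.rep) (hX : X ∉ T) :
    1 ≤ tmin P T X ∧ tmin P T X * (Fintype.card ι * Nat.card F ^ k + 1) ≤ P.nn T X ∧
      P.nn T X ≤ 1 + j + tmin P T X * (Fintype.card ι * Nat.card F ^ k) := by
  obtain ⟨U, hU, hXU, htU⟩ := tmin_mem T hs
  obtain ⟨N⟩ := S.nbs U hU
  have hfin := S.gen U hU
  have hA := sumA N (n := k + 1) hfin S.block.1
  have hB := sumB N hfin hU.1 S.block.1 hXU
  obtain ⟨hc1, hc2⟩ := card_not N (n := k + 1) hfin hXU
  rw [if_neg hX, add_zero] at hB
  rw [← htU]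
  obtain ⟨s, hs'⟩ : ∃ s, s = Fintype.card ι := ⟨_, rfl⟩
  obtain ⟨q, hq⟩ : ∃ q, q = Nat.card F := ⟨_, rfl⟩
  obtain ⟨t, ht⟩ : ∃ t, t = tt T U := ⟨_, rfl⟩
  have h1 : (s * geo q (k + 1)) * t ≤
      ∑ p ∈ Finset.univ.filter (fun p => X.rep ∈ N.nb p), tt T (N.nb p) := by
    rw [← hs', ← hq] at hc1
    rw [← hc1, ← smul_eq_mul]
    apply Finset.card_nsmul_le_sum
    intro p hp
    rw [ht, htU]
    exact tmin_le (N.gen p) (Finset.mem_filter.1 hp).2
  have h2 : s * q ^ (k + 1) ≤
      ∑ p ∈ Finset.univ.filter (fun p => ¬ X.rep ∈ N.nb p), tt T (N.nb p) := by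
    rw [← hs', ← hq] at hc2
    rw [← hc2, Finset.card_eq_sum_ones]
    apply Finset.sum_le_sum
    intro p _
    exact tt_pos S.block (N.gen p)
  have h3 := Finset.sum_filter_add_sum_filter_not Finset.univ
    (fun p : ι × ℙ F (Dual F U) => X.rep ∈ N.nb p) (fun p => tt T (N.nb p))
  have hcard := S.card
  rw [← hs', ← hq] at hA hB hcard ⊢
  rw [← ht] at hA hB ⊢
  rw [geo_succ'] at hA h1
  refine ⟨ht ▸ tt_pos S.block hU, ?_, ?_⟩
  · have e1 : s * (geo q k + q ^ k) * t = t * (s * geo q k) + t * (s * q ^ k) := by ring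
    have e2 : t * (s * q ^ k + 1) = t * (s * q ^ k) + t := by ring
    omega
  · have e1 : t * (s * (geo q k + q ^ k)) = t * (s * geo q k) + t * (s * q ^ k) := by ring
    omega

theorem nn_self_le [Finite F] [FiniteDimensional F V] (S : Setup P T ι k j) {z : ℙ F V}
    (hz : z ∈ T) : P.nn T z ≤ 1 + j := by
  obtain ⟨U, hU, hzU, huniq⟩ := S.tangent z hz
  obtain ⟨N⟩ := S.nbs U hU
  have hfin := S.gen U hU
  have htU := tt_one hz hzU huniq
  have hA := sumA N (n := k + 1) hfin S.block.1
  have hB := sumB N hfin hU.1 S.block.1 hzU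
  obtain ⟨hc1, hc2⟩ := card_not N (n := k + 1) hfin hzU
  rw [if_pos hz, htU] at hB
  rw [htU] at hA
  obtain ⟨s, hs'⟩ : ∃ s, s = Fintype.card ι := ⟨_, rfl⟩
  obtain ⟨q, hq⟩ : ∃ q, q = Nat.card F := ⟨_, rfl⟩
  have h2 : s * q ^ (k + 1) ≤
      ∑ p ∈ Finset.univ.filter (fun p => ¬ z.rep ∈ N.nb p), tt T (N.nb p) := by
    rw [← hs', ← hq] at hc2
    rw [← hc2, Finset.card_eq_sum_ones]
    apply Finset.sum_le_sum
    intro p _
    exact tt_pos S.block (N.gen p)
  have h3 := Finset.sum_filter_add_sum_filter_not Finset.univ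
    (fun p : ι × ℙ F (Dual F U) => z.rep ∈ N.nb p) (fun p => tt T (N.nb p))
  have hcard := S.card
  rw [← hs', ← hq] at hA hB hcard
  rw [geo_succ'] at hA
  have e1 : s * (geo q k + q ^ k) = s * geo q k + s * q ^ k := by ring
  omega

end main

end Pool.Agent.Helper53.PB
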