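import Pool.Agent.Helper53.PB.Polar

/-!
# Counting points
-/

set_option autoImplicit false

open Module Classical
open scoped LinearAlgebra.Projectivization

namespace Pool.Agent.Helper53.PB

universe u v

variable {F : Type u} {V : Type v} [Field F] [AddCommGroup V] [Module F V]

/-- `1 + q + ... + q^(n-1)` -/
def geo (q n : ℕ) : ℕ := ∑ i ∈ Finset.range n, q ^ i

theorem geo_succ (q n : ℕ) : geo q (n + 1) = q * geo q n + 1 := by
  unfold geo
  rw [Finset.sum_range_succ', Finset.mul_sum]
  simp [pow_succ, mul_comm]

theorem geo_succ' (q n : ℕ) : geo q (n + 1) = geo q n + q ^ n := by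
  unfold geo
  rw [Finset.sum_range_succ]

theorem geo_one (q : ℕ) : geo q 1 = 1 := by simp [geo]

theorem geo_two (q : ℕ) : geo q 2 = q + 1 := by simp [geo, Finset.sum_range_succ, add_comm]

theorem geo_mono (q : ℕ) {m n : ℕ} (h : m ≤ n) : geo q m ≤ geo q n := by
  unfold geo
  apply Finset.sum_le_sum_of_subset
  intro x hx
  simp only [Finset.mem_range] at *
  omega

noncomputable instance ptFintype [Finite V] : Fintype (ℙ F V) := Fintype.ofFinite _

/-- the points contained in a subspace -/
noncomputable def pts [Finite V] (W : Submodule F V) : Finset (ℙ F V) :=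
  Finset.univ.filter (fun P => P.rep ∈ W)

theorem mem_pts [Finite V] {W : Submodule F V} {P : ℙ F V} : P ∈ pts W ↔ P.rep ∈ W := by
  simp [pts]

theorem rep_mk_mem {W : Submodule F V} {v : V} (hv : v ≠ 0) :
    (Projectivization.mk F v hv).rep ∈ W ↔ v ∈ W := by
  obtain ⟨a, ha⟩ := Projectivization.exists_smul_eq_mk_rep F v hv
  rw [← ha, Units.smul_def]
  exact Submodule.smul_mem_iff W a.ne_zero

theorem card_pts [Finite F] [Finite V] (W : Submodule F V) :
    (pts W).card = geo (Nat.card F) (finrank F W) := by
  have h1 : pts W = Finset.image (Projectivization.map W.subtype W.injective_subtype) Finset.univ := by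
    ext P
    rw [mem_pts, Finset.mem_image]
    constructor
    · intro h
      have h0 : (⟨P.rep, h⟩ : W) ≠ 0 := by
        intro h1
        exact P.rep_nonzero (congrArg Subtype.val h1)
      refine ⟨Projectivization.mk F ⟨P.rep, h⟩ h0, Finset.mem_univ _, ?_⟩
      rw [Projectivization.map_mk]
      exact P.mk_rep
    · rintro ⟨Q, _, rfl⟩
      induction Q using Projectivization.ind with
      | h v hv =>
        rw [Projectivization.map_mk, rep_mk_mem]
        exact v.2
  rw [h1, Finset.card_image_of_injective _ (Projectivization.map_injective _ _), Finset.card_univ,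
    ← Nat.card_eq_fintype_card, Projectivization.card_of_finrank F W rfl]
  rfl

theorem eq_of_rep_mem_span {P R : ℙ F V} (h : P.rep ∈ Submodule.span F {R.rep}) : P = R := by
  obtain ⟨c, hc⟩ := Submodule.mem_span_singleton.1 h
  rw [← P.mk_rep, ← R.mk_rep, Projectivization.mk_eq_mk_iff']
  exact ⟨c, hc⟩

theorem pts_span [Finite V] (R : ℙ F V) : pts (Submodule.span F {R.rep}) = {R} := by
  ext P
  rw [mem_pts, Finset.mem_singleton]
  constructor
  · exact eq_of_rep_mem_span
  · rintro rfl
    exact Submodule.mem_span_singleton_self _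

/-- the line through two points -/
def line (P R : ℙ F V) : Submodule F V := Submodule.span F {P.rep} ⊔ Submodule.span F {R.rep}

theorem left_mem_line (P R : ℙ F V) : P.rep ∈ line P R :=
  Submodule.mem_sup_left (Submodule.mem_span_singleton_self _)

theorem right_mem_line (P R : ℙ F V) : R.rep ∈ line P R :=
  Submodule.mem_sup_right (Submodule.mem_span_singleton_self _)

theorem line_le {P R : ℙ F V} {W : Submodule F V} (h1 : P.rep ∈ W) (h2 : R.rep ∈ W) :
    line P R ≤ W := by
  unfold line
  rw [sup_le_iff, Submodule.span_singleton_le_iff_mem, Submodule.span_singleton_le_iff_mem]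
  exact ⟨h1, h2⟩

theorem finrank_line [FiniteDimensional F V] {P R : ℙ F V} (h : P ≠ R) :
    finrank F (line P R) = 2 := by
  have h1 : Submodule.span F {P.rep} ⊓ Submodule.span F {R.rep} = ⊥ := by
    rw [eq_bot_iff]
    intro x hx
    rw [Submodule.mem_bot]
    by_contra h0
    obtain ⟨c, hc⟩ := Submodule.mem_span_singleton.1 hx.1
    have hc0 : c ≠ 0 := by
      rintro rfl
      rw [zero_smul] at hc
      exact h0 hc.symm
    apply h
    apply eq_of_rep_mem_span
    have h2 : P.rep = c⁻¹ • x := by
      rw [← hc, smul_smul, inv_mul_cancel₀ hc0, one_smul]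
    rw [h2]
    exact Submodule.smul_mem _ _ hx.2
  have h2 := Submodule.finrank_sup_add_finrank_inf_eq (Submodule.span F {P.rep})
    (Submodule.span F {R.rep})
  rw [h1, finrank_bot, finrank_span_singleton P.rep_nonzero, finrank_span_singleton R.rep_nonzero]
    at h2
  unfold line
  omega

theorem mem_line {P R : ℙ F V} {x : V} :
    x ∈ line P R ↔ ∃ a b : F, a • P.rep + b • R.rep = x := by
  unfold line
  rw [Submodule.mem_sup]
  constructor
  · rintro ⟨y, hy, z, hz, rfl⟩
    obtain ⟨a, rfl⟩ := Submodule.mem_span_singleton.1 hy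
    obtain ⟨b, rfl⟩ := Submodule.mem_span_singleton.1 hz
    exact ⟨a, b, rfl⟩
  · rintro ⟨a, b, rfl⟩
    exact ⟨_, Submodule.smul_mem _ _ (Submodule.mem_span_singleton_self _), _,
      Submodule.smul_mem _ _ (Submodule.mem_span_singleton_self _), rfl⟩

/-- a line is spanned by any two of its points -/
theorem line_eq [FiniteDimensional F V] {P R X : ℙ F V} (hPR : P ≠ R) (hX : X.rep ∈ line P R)
    (hXP : X ≠ P) : line P X = line P R := by
  apply Submodule.eq_of_le_of_finrank_eq (line_le (left_mem_line _ _) hX)
  rw [finrank_line (Ne.symm hXP), finrank_line hPR]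

/-- number of points of `T` perpendicular to `R` -/
noncomputable def Polar.nn (P : Polar F V) (T : Finset (ℙ F V)) (R : ℙ F V) : ℕ :=
  (T.filter (fun y => P.f y.rep R.rep = 0)).card

theorem double_count [Finite V] (P : Polar F V) (T : Finset (ℙ F V)) (W : Submodule F V) :
    ∑ R ∈ pts W, P.nn T R = ∑ y ∈ T, (pts (W ⊓ LinearMap.ker (P.f y.rep))).card := by
  unfold Polar.nn
  simp_rw [Finset.card_filter]
  rw [Finset.sum_comm]
  apply Finset.sum_congr rfl
  intro y _
  rw [← Finset.card_filter]
  congr 1
  ext R
  simp only [Finset.mem_filter, mem_pts, Submodule.mem_inf, LinearMap.mem_ker]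

theorem line_count [Finite F] [Finite V] (P : Polar F V) (T : Finset (ℙ F V)) {A B : ℙ F V}
    (h : A ≠ B) :
    ∑ R ∈ pts (line A B), P.nn T R =
      T.card + Nat.card F * (T.filter (fun y => line A B ≤ LinearMap.ker (P.f y.rep))).card := by
  have : FiniteDimensional F V := Module.Finite.of_finite
  rw [double_count, Finset.card_filter, Finset.mul_sum, Finset.card_eq_sum_ones T,
    ← Finset.sum_add_distrib]
  apply Finset.sum_congr rfl
  intro y _
  rw [card_pts]
  by_cases hle : line A B ≤ LinearMap.ker (P.f y.rep)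
  · rw [if_pos hle, inf_eq_left.2 hle, finrank_line h, geo_two]
    ring
  · rw [if_neg hle]
    have h1 := Polar.finrank_inf_ker _ _ hle
    rw [finrank_line h] at h1
    have h2 : finrank F (line A B ⊓ LinearMap.ker (P.f y.rep) : Submodule F V) = 1 := by omega
    rw [h2, geo_one]
    ring

end Pool.Agent.Helper53.PB
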