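import Mathlib

/-!
# Finite classical polar spaces and point sets meeting every generator
-/

set_option autoImplicit false

open scoped LinearAlgebra.Projectivization

namespace Pool.Agent.Helper53.PB

universe u v

/-- The three kinds of forms. -/
inductive Kind
  | symplectic
  | hermitian
  | orthogonal

/-- A non-degenerate form defining a classical polar space on the vector space `V`: an alternating
bilinear form, a Hermitian form, or a quadratic form. -/
inductive Form (F : Type u) (V : Type v) [Field F] [AddCommGroup V] [Module F V]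
  | symplectic (B : LinearMap.BilinForm F V) (alt : ∀ x, B x x = 0)
      (nondeg : ∀ x, (∀ y, B x y = 0) → x = 0)
  | hermitian (σ : F →+* F) (invol : ∀ a, σ (σ a) = a) (ne : ∃ a, σ a ≠ a)
      (B : V →ₗ[F] V →ₛₗ[σ] F) (herm : ∀ x y, B y x = σ (B x y))
      (nondeg : ∀ x, (∀ y, B x y = 0) → x = 0)
  | orthogonal (Q : QuadraticForm F V)
      (nondeg : ∀ x, Q x = 0 → (∀ y, QuadraticMap.polar Q x y = 0) → x = 0)

variable {F : Type u} {V : Type v} [Field F] [AddCommGroup V] [Module F V]

/-- The kind of a form. -/
def Form.kind : Form F V → Kind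
  | .symplectic _ _ _ => .symplectic
  | .hermitian _ _ _ _ _ _ => .hermitian
  | .orthogonal _ _ => .orthogonal

/-- Orthogonality of vectors. -/
def Form.Perp : Form F V → V → V → Prop
  | .symplectic B _ _, x, y => B x y = 0
  | .hermitian _ _ _ B _ _, x, y => B x y = 0
  | .orthogonal Q _, x, y => QuadraticMap.polar Q x y = 0

/-- Singular (isotropic) vectors. -/
def Form.Sing : Form F V → V → Prop
  | .symplectic _ _ _, _ => True
  | .hermitian _ _ _ B _ _, x => B x x = 0
  | .orthogonal Q _, x => Q x = 0

/-- `U` belongs to the polar space: all its vectors are singular and pairwise orthogonal. -/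
def TotSing (φ : Form F V) (U : Submodule F V) : Prop :=
  (∀ x ∈ U, φ.Sing x) ∧ ∀ x ∈ U, ∀ y ∈ U, φ.Perp x y

/-- Generators: the maximal subspaces belonging to the polar space. -/
def IsGenerator (φ : Form F V) (U : Submodule F V) : Prop :=
  TotSing φ U ∧ ∀ W : Submodule F V, TotSing φ W → U ≤ W → W = U

/-- A set of singular points meeting every generator. -/
def Blocking (φ : Form F V) (T : Finset (ℙ F V)) : Prop :=
  (∀ P ∈ T, φ.Sing P.rep) ∧ ∀ U : Submodule F V, IsGenerator φ U → ∃ P ∈ T, P.rep ∈ U

end Pool.Agent.Helper53.PB
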