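import Pool.Agent.Helper53.PB.Defs

/-!
# Minimum sizes in a class of polar spaces
-/

set_option autoImplicit false

open scoped LinearAlgebra.Projectivization

namespace Pool.Agent.Helper53.PB

universe u v

variable {F : Type u} {V : Type v} [Field F] [AddCommGroup V] [Module F V]

/-- Vector space dimension `d` and rank `r` (the common vector space dimension of the
generators). -/
def HasParams (φ : Form F V) (d r : ℕ) : Prop :=
  Module.finrank F V = d ∧ ∀ U : Submodule F V, IsGenerator φ U → Module.finrank F U = r

/-- There is a classical polar space over `F` of the given kind, vector space dimension `d` and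
rank `r`. -/
def Exist (F : Type u) [Field F] (κ : Kind) (d r : ℕ) : Prop :=
  ∃ (V : Type u) (_ : AddCommGroup V) (_ : Module F V) (φ : Form F V),
    FiniteDimensional F V ∧ φ.kind = κ ∧ HasParams φ d r

/-- The smallest size of a set of singular points meeting every generator, for the classical polar
spaces over `F` of the given kind, vector space dimension `d` and rank `r`. -/
noncomputable def minBlock (F : Type u) [Field F] (κ : Kind) (d r : ℕ) : ℕ :=
  sInf {k | ∃ (V : Type u) (_ : AddCommGroup V) (_ : Module F V) (φ : Form F V)
    (T : Finset (ℙ F V)), FiniteDimensional F V ∧ φ.kind = κ ∧ HasParams φ d r ∧ Blocking φ T ∧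
      T.card = k}

end Pool.Agent.Helper53.PB
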