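import Pool.Agent.Helper53.PB.Lower

/-!
# Residues of points: projection and cone
-/

set_option autoImplicit false

open Module Classical
open scoped LinearAlgebra.Projectivization

namespace Pool.Agent.Helper53.PB

universe u v

variable {F : Type u} {V V0 : Type v} [Field F] [AddCommGroup V] [Module F V] [AddCommGroup V0]
  [Module F V0]

/-- `P0` is the residue of the point spanned by `v`, realised on `{v, w}^⊥` -/
structure IsRes (P0 : Polar F V0) (P : Polar F V) (ι : V0 →ₗ[F] V) (v w : V) : Prop where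
  inj : Function.Injective ι
  range : LinearMap.range ι = LinearMap.ker (P.f v) ⊓ LinearMap.ker (P.f w)
  sing_v : P.sing v
  pair : P.f w v ≠ 0
  perp : ∀ x y, P0.f x y = 0 ↔ P.f (ι x) (ι y) = 0
  sing : ∀ x, P0.sing x ↔ P.sing (ι x)

namespace IsRes

variable {P0 : Polar F V0} {P : Polar F V} {ι : V0 →ₗ[F] V} {v w : V}

theorem fv (h : IsRes P0 P ι v w) (x : V0) : P.f v (ι x) = 0 := by
  have : ι x ∈ LinearMap.range ι := ⟨x, rfl⟩
  rw [h.range] at this
  exact this.1

theorem fw (h : IsRes P0 P ι v w) (x : V0) : P.f w (ι x) = 0 := by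
  have : ι x ∈ LinearMap.range ι := ⟨x, rfl⟩
  rw [h.range] at this
  exact this.2

theorem vne (h : IsRes P0 P ι v w) : v ≠ 0 := by
  rintro rfl
  exact h.pair (map_zero _)

theorem proj (h : IsRes P0 P ι v w) {x : V} (hx : P.f v x = 0) :
    ∃ y, ι y = x - (P.f w x / P.f w v) • v := by
  have : x - (P.f w x / P.f w v) • v ∈ LinearMap.range ι := by
    rw [h.range, Submodule.mem_inf, LinearMap.mem_ker, LinearMap.mem_ker]
    constructor
    · rw [map_sub, map_smul, hx, P.sing_self v h.sing_v, smul_zero, sub_zero]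
    · rw [map_sub, map_smul, smul_eq_mul, div_mul_cancel₀ _ h.pair, sub_self]
  exact this

/-- totally singular subspaces of the residue lifted -/
def lift (ι : V0 →ₗ[F] V) (v : V) (U : Submodule F V0) : Submodule F V :=
  U.map ι ⊔ Submodule.span F {v}

theorem mem_lift {ι : V0 →ₗ[F] V} {v : V} {U : Submodule F V0} {x : V} :
    x ∈ lift ι v U ↔ ∃ u ∈ U, ∃ c : F, x = ι u + c • v := by
  unfold lift
  rw [Submodule.mem_sup]
  constructor
  · rintro ⟨y, ⟨u, hu, rfl⟩, z, hz, rfl⟩
    obtain ⟨c, rfl⟩ := Submodule.mem_span_singleton.1 hz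
    exact ⟨u, hu, c, rfl⟩
  · rintro ⟨u, hu, c, rfl⟩
    exact ⟨ι u, ⟨u, hu, rfl⟩, c • v, Submodule.smul_mem _ _ (Submodule.mem_span_singleton_self _), rfl⟩

theorem lift_ts (h : IsRes P0 P ι v w) {U : Submodule F V0} (hU : P0.TS U) :
    P.TS (lift ι v U) := by
  have h1 : P.TS (U.map ι) := by
    constructor
    · rintro _ ⟨x, hx, rfl⟩
      exact (h.sing x).1 (hU.1 x hx)
    · rintro _ ⟨x, hx, rfl⟩ _ ⟨y, hy, rfl⟩
      exact (h.perp x y).1 (hU.2 x hx y hy)
  apply h1.sup_span h.sing_v
  rintro _ ⟨x, _, rfl⟩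
  exact P.symm _ _ (h.fv x)

/-- a combination `ι u + c v` in the range of `ι` has `c = 0` -/
theorem coef_zero (h : IsRes P0 P ι v w) {u x : V0} {c : F} (e : ι x = ι u + c • v) :
    c = 0 ∧ x = u := by
  have h1 := congrArg (P.f w) e
  rw [map_add, map_smul, h.fw, h.fw, zero_add, smul_eq_mul] at h1
  have h2 : c = 0 := by
    rcases mul_eq_zero.1 h1.symm with h3 | h3
    · exact h3
    · exact absurd h3 h.pair
  refine ⟨h2, h.inj ?_⟩
  rw [e, h2, zero_smul, add_zero]

theorem lift_gen (h : IsRes P0 P ι v w) {U : Submodule F V0} (hU : P0.Gen U) :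
    P.Gen (lift ι v U) := by
  refine ⟨h.lift_ts hU.1, ?_⟩
  intro X hX hle
  have hvX : v ∈ X := hle (mem_lift.2 ⟨0, zero_mem _, 1, by simp⟩)
  have hc : X.comap ι = U := by
    apply hU.2
    · constructor
      · intro x hx
        exact (h.sing x).2 (hX.1 _ hx)
      · intro x hx y hy
        exact (h.perp x y).2 (hX.2 _ hx _ hy)
    · intro u hu
      exact hle (mem_lift.2 ⟨u, hu, 0, by simp⟩)
  apply le_antisymm _ hle
  intro x hx
  obtain ⟨y, hy⟩ := h.proj (hX.2 v hvX x hx)
  have hy2 : y ∈ U := by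
    rw [← hc, Submodule.mem_comap, hy]
    exact Submodule.sub_mem _ hx (Submodule.smul_mem _ _ hvX)
  rw [mem_lift]
  exact ⟨y, hy2, P.f w x / P.f w v, by rw [hy]; abel⟩

theorem finrank_lift [FiniteDimensional F V] [FiniteDimensional F V0] (h : IsRes P0 P ι v w)
    (U : Submodule F V0) : finrank F (lift ι v U) = finrank F U + 1 := by
  have h1 : U.map ι ⊓ Submodule.span F {v} = ⊥ := by
    rw [eq_bot_iff]
    rintro x ⟨⟨u, hu, rfl⟩, hx⟩
    obtain ⟨c, hc⟩ := Submodule.mem_span_singleton.1 hx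
    have h2 : ι u = ι 0 + c • v := by rw [map_zero, zero_add, hc]
    have h3 := (h.coef_zero h2).2
    rw [h3, map_zero]
    exact zero_mem _
  have h2 := Submodule.finrank_sup_add_finrank_inf_eq (U.map ι) (Submodule.span F {v})
  rw [h1, finrank_bot, finrank_span_singleton h.vne, add_zero] at h2
  unfold lift
  rw [h2, ← (Submodule.equivMapOfInjective ι h.inj U).finrank_eq]

theorem gen_finrank [FiniteDimensional F V] [FiniteDimensional F V0] (h : IsRes P0 P ι v w) {r : ℕ}
    (hgen : ∀ U, P.Gen U → finrank F U = r + 1) : ∀ U, P0.Gen U → finrank F U = r := by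
  intro U hU
  have h1 := hgen _ (h.lift_gen hU)
  rw [h.finrank_lift] at h1
  omega

/-- projecting a blocking set from a point outside -/
theorem project (h : IsRes P0 P ι v w) {T : Finset (ℙ F V)} (hT : P.Block T) {R : ℙ F V}
    (hR : R.rep = v) (hRT : R ∉ T) : ∃ T' : Finset (ℙ F V0), P0.Block T' ∧ T'.card ≤ P.nn T R := by
  subst hR
  have hyv : ∀ y : T.filter (fun y => P.f y.rep R.rep = 0), P.f R.rep (y : ℙ F V).rep = 0 := by
    rintro ⟨y, hy⟩
    rw [Finset.mem_filter] at hy
    exact P.symm _ _ hy.2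
  choose g hg using fun y : T.filter (fun y => P.f y.rep R.rep = 0) => h.proj (hyv y)
  have hg0 : ∀ y, g y ≠ 0 := by
    intro y h0
    have h1 := hg y
    rw [h0, map_zero] at h1
    apply hRT
    have h2 : (y : ℙ F V) = R := by
      apply eq_of_rep_mem_span
      rw [Submodule.mem_span_singleton]
      exact ⟨_, (sub_eq_zero.1 h1.symm).symm⟩
    rw [← h2]
    exact (Finset.mem_filter.1 y.2).1
  refine ⟨Finset.univ.image (fun y => Projectivization.mk F (g y) (hg0 y)), ⟨?_, ?_⟩, ?_⟩
  · intro Q hQ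
    rw [Finset.mem_image] at hQ
    obtain ⟨y, _, rfl⟩ := hQ
    obtain ⟨a, ha⟩ := Projectivization.exists_smul_eq_mk_rep F (g y) (hg0 y)
    rw [← ha, Units.smul_def]
    apply P0.sing_smul
    rw [h.sing, hg, sub_eq_add_neg, ← neg_smul]
    apply P.sing_add
    · exact hT.1 _ (Finset.mem_filter.1 y.2).1
    · exact P.sing_smul _ _ h.sing_v
    · rw [map_smul, P.symm _ _ (hyv y), smul_zero]
  · intro U hU
    obtain ⟨y, hyT, hyU⟩ := hT.2 _ (h.lift_gen hU)
    have h1 : P.f y.rep R.rep = 0 := by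
      exact (h.lift_ts hU.1).2 _ hyU _ (mem_lift.2 ⟨0, zero_mem _, 1, by simp⟩)
    refine ⟨_, Finset.mem_image.2 ⟨⟨y, Finset.mem_filter.2 ⟨hyT, h1⟩⟩, Finset.mem_univ _, rfl⟩, ?_⟩
    rw [rep_mk_mem]
    obtain ⟨u, hu, c, hc⟩ := mem_lift.1 hyU
    have h2 := hg ⟨y, Finset.mem_filter.2 ⟨hyT, h1⟩⟩
    have h3 : ι (g ⟨y, Finset.mem_filter.2 ⟨hyT, h1⟩⟩) =
        ι u + (c - P.f w y.rep / P.f w R.rep) • R.rep := by
      rw [h2]
      simp only
      nth_rewrite 1 [hc]
      rw [sub_smul]
      abel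
    rw [(h.coef_zero h3).2]
    exact hu
  · refine Finset.card_image_le.trans ?_
    rw [Finset.card_univ, Fintype.card_coe]
    rfl

/-- the cone over a blocking set of the residue -/
theorem cone [Finite F] [FiniteDimensional F V] [FiniteDimensional F V0] (h : IsRes P0 P ι v w)
    {r : ℕ} (hgen : ∀ U, P.Gen U → finrank F U = r + 1) {T : Finset (ℙ F V0)}
    (hT : P0.Block T) : ∃ T' : Finset (ℙ F V), P.Block T' ∧ T'.card ≤ Nat.card F * T.card := by
  have : Fintype F := Fintype.ofFinite F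
  have hne : ∀ p : ℙ F V0 × F, ι p.1.rep + p.2 • v ≠ 0 := by
    intro p h0
    have h1 : ι 0 = ι p.1.rep + p.2 • v := by rw [h0, map_zero]
    exact p.1.rep_nonzero (h.coef_zero h1).2.symm
  refine ⟨(T ×ˢ (Finset.univ : Finset F)).image (fun p => Projectivization.mk F _ (hne p)),
    ⟨?_, ?_⟩, ?_⟩
  · intro Q hQ
    rw [Finset.mem_image] at hQ
    obtain ⟨p, hp, rfl⟩ := hQ
    rw [Finset.mem_product] at hp
    obtain ⟨a, ha⟩ := Projectivization.exists_smul_eq_mk_rep F _ (hne p)
    rw [← ha, Units.smul_def]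
    apply P.sing_smul
    apply P.sing_add
    · rw [← h.sing]
      exact hT.1 _ hp.1
    · exact P.sing_smul _ _ h.sing_v
    · rw [map_smul, P.symm _ _ (h.fv _), smul_zero]
  · intro U hU
    -- the subspace X = (U ∩ v^⊥) + v
    obtain ⟨X, hX⟩ : ∃ X, X = (U ⊓ LinearMap.ker (P.f v)) ⊔ Submodule.span F {v} := ⟨_, rfl⟩
    have hXts : P.TS X := by
      rw [hX]
      apply (hU.1.mono inf_le_left).sup_span h.sing_v
      intro x hx
      exact P.symm _ _ hx.2
    have hvX : v ∈ X := by
      rw [hX]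
      exact Submodule.mem_sup_right (Submodule.mem_span_singleton_self _)
    have hXr : finrank F X = r + 1 := by
      by_cases hv : v ∈ U
      · have h1 : U ⊓ LinearMap.ker (P.f v) = U := by
          rw [inf_eq_left]
          intro x hx
          exact hU.1.2 v hv x hx
        rw [hX, h1, sup_eq_left.2, hgen U hU]
        rwa [Submodule.span_singleton_le_iff_mem]
      · have h1 := Polar.finrank_inf_ker U (P.f v) (hU.not_le h.sing_v hv)
        rw [hgen U hU] at h1
        have h2 : (U ⊓ LinearMap.ker (P.f v)) ⊓ Submodule.span F {v} = ⊥ := by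
          rw [eq_bot_iff]
          rintro x ⟨hx1, hx2⟩
          obtain ⟨c, rfl⟩ := Submodule.mem_span_singleton.1 hx2
          by_cases hc : c = 0
          · rw [hc, zero_smul]
            exact zero_mem _
          · exact absurd ((Submodule.smul_mem_iff U hc).1 hx1.1) hv
        have h3 := Submodule.finrank_sup_add_finrank_inf_eq (U ⊓ LinearMap.ker (P.f v))
          (Submodule.span F {v})
        rw [h2, finrank_bot, finrank_span_singleton h.vne, add_zero] at h3
        rw [hX, h3]
        omega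
    have hY : finrank F (X.comap ι) = r := by
      have h1 : ¬ X ≤ LinearMap.ker (P.f w) := fun hle => h.pair (hle hvX)
      have h2 := Polar.finrank_inf_ker X (P.f w) h1
      rw [hXr] at h2
      have h3 : (X.comap ι).map ι = X ⊓ LinearMap.ker (P.f w) := by
        rw [Submodule.map_comap_eq, h.range]
        apply le_antisymm
        · rintro x ⟨⟨_, h4⟩, h5⟩
          exact ⟨h5, h4⟩
        · rintro x ⟨h4, h5⟩
          exact ⟨⟨hXts.2 v hvX x h4, h5⟩, h4⟩
      rw [(Submodule.equivMapOfInjective ι h.inj (X.comap ι)).finrank_eq, h3]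
      omega
    have hYts : P0.TS (X.comap ι) := by
      constructor
      · intro x hx
        exact (h.sing x).2 (hXts.1 _ hx)
      · intro x hx y hy
        exact (h.perp x y).2 (hXts.2 _ hx _ hy)
    have hYgen : P0.Gen (X.comap ι) :=
      Polar.gen_of_finrank (h.gen_finrank hgen) hYts hY
    obtain ⟨Q, hQT, hQ⟩ := hT.2 _ hYgen
    rw [Submodule.mem_comap, hX, Submodule.mem_sup] at hQ
    obtain ⟨x, hx, z, hz, hxz⟩ := hQ
    obtain ⟨c, rfl⟩ := Submodule.mem_span_singleton.1 hz
    refine ⟨_, Finset.mem_image.2 ⟨(Q, -c), ?_, rfl⟩, ?_⟩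
    · rw [Finset.mem_product]
      exact ⟨hQT, Finset.mem_univ _⟩
    · rw [rep_mk_mem]
      simp only
      rw [← hxz, neg_smul, add_neg_cancel_right]
      exact hx.1
  · refine Finset.card_image_le.trans ?_
    rw [Finset.card_product, Finset.card_univ, Nat.card_eq_fintype_card, mul_comm]

end IsRes

end Pool.Agent.Helper53.PB
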