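import Pool.Agent.Helper53.PB.DefsMin
import Pool.Agent.Helper53.PB.Residue

/-!
# Classical forms as abstract polar geometries
-/

set_option autoImplicit false

open Module
open scoped LinearAlgebra.Projectivization

namespace Pool.Agent.Helper53.PB

universe u v

variable {F : Type u} {V : Type v} [Field F] [AddCommGroup V] [Module F V]

/-- the linear functional attached to a vector -/
noncomputable def Form.f : Form F V → V → Dual F V
  | .symplectic B _ _, x => B x
  | .hermitian _ _ _ B _ _, x => B.flip x
  | .orthogonal Q _, x => QuadraticMap.polarBilin Q x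

theorem Form.perp_iff (φ : Form F V) (x y : V) : φ.Perp x y ↔ φ.f x y = 0 := by
  cases φ with
  | symplectic B alt nd => rfl
  | hermitian σ i n B hm nd =>
    change B x y = 0 ↔ B y x = 0
    rw [hm x y]
    exact (map_eq_zero σ).symm
  | orthogonal Q nd => rfl

theorem Form.f_symm (φ : Form F V) (x y : V) (h : φ.f x y = 0) : φ.f y x = 0 := by
  cases φ with
  | symplectic B alt nd =>
    change B y x = 0
    change B x y = 0 at h
    have h1 := alt (x + y)
    rw [map_add, map_add, LinearMap.add_apply, LinearMap.add_apply, alt, alt, h, zero_add, add_zero,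
      add_zero] at h1
    exact h1
  | hermitian σ i n B hm nd =>
    change B x y = 0
    change B y x = 0 at h
    rw [hm y x, h, map_zero]
  | orthogonal Q nd =>
    change QuadraticMap.polar Q y x = 0
    rw [QuadraticMap.polar_comm]
    exact h

/-- the abstract polar geometry of a form -/
noncomputable def Form.toPolar (φ : Form F V) : Polar F V where
  f := φ.f
  symm := φ.f_symm
  sing := φ.Sing
  sing_zero := by
    cases φ with
    | symplectic B alt nd => trivial
    | hermitian σ i n B hm nd =>
      change B 0 0 = 0
      simp
    | orthogonal Q nd =>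
      change Q 0 = 0
      simp
  sing_smul := by
    intro c x hx
    cases φ with
    | symplectic B alt nd => trivial
    | hermitian σ i n B hm nd =>
      change B x x = 0 at hx
      change B (c • x) (c • x) = 0
      rw [LinearMap.map_smulₛₗ, map_smul, LinearMap.smul_apply, hx, smul_zero, smul_zero]
    | orthogonal Q nd =>
      change Q x = 0 at hx
      change Q (c • x) = 0
      rw [QuadraticMap.map_smul, hx, smul_zero]
  sing_self := by
    intro x hx
    cases φ with
    | symplectic B alt nd => exact alt x
    | hermitian σ i n B hm nd => exact hx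
    | orthogonal Q nd =>
      change Q x = 0 at hx
      change QuadraticMap.polar Q x x = 0
      rw [QuadraticMap.polar_self, hx, smul_zero]
  sing_add := by
    intro x y hx hy hxy
    have hyx := φ.f_symm _ _ hxy
    cases φ with
    | symplectic B alt nd => trivial
    | hermitian σ i n B hm nd =>
      change B x x = 0 at hx
      change B y y = 0 at hy
      change B y x = 0 at hxy
      change B x y = 0 at hyx
      change B (x + y) (x + y) = 0
      rw [map_add, map_add, LinearMap.add_apply, LinearMap.add_apply, hx, hy, hxy, hyx]
      simp
    | orthogonal Q nd =>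
      change Q x = 0 at hx
      change Q y = 0 at hy
      change QuadraticMap.polar Q x y = 0 at hxy
      change Q (x + y) = 0
      unfold QuadraticMap.polar at hxy
      rw [hx, hy] at hxy
      simpa using hxy
  nondeg := by
    intro x hx h
    have h' : ∀ y, φ.Perp x y := fun y => (φ.perp_iff x y).2 (h y)
    cases φ with
    | symplectic B alt nd => exact nd x h'
    | hermitian σ i n B hm nd => exact nd x h'
    | orthogonal Q nd => exact nd x hx h'

theorem totSing_iff (φ : Form F V) (U : Submodule F V) : TotSing φ U ↔ φ.toPolar.TS U := by
  unfold TotSing Polar.TS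
  refine and_congr Iff.rfl ?_
  exact forall_congr' fun x => forall_congr' fun _ => forall_congr' fun y => forall_congr' fun _ =>
    φ.perp_iff x y

theorem isGenerator_iff (φ : Form F V) (U : Submodule F V) : IsGenerator φ U ↔ φ.toPolar.Gen U := by
  unfold IsGenerator Polar.Gen
  rw [totSing_iff]
  refine and_congr Iff.rfl (forall_congr' fun W => ?_)
  rw [totSing_iff]

theorem blocking_iff (φ : Form F V) (T : Finset (ℙ F V)) : Blocking φ T ↔ φ.toPolar.Block T := by
  unfold Blocking Polar.Block
  refine and_congr Iff.rfl (forall_congr' fun U => ?_)
  rw [isGenerator_iff]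

/-- restriction of a form to a subspace on which it is non-degenerate -/
noncomputable def Form.restrict : (φ : Form F V) → (W : Submodule F V) →
    (∀ x ∈ W, φ.Sing x → (∀ y ∈ W, φ.Perp x y) → x = 0) → Form F W
  | .symplectic B alt _, W, h => .symplectic (B.domRestrict₁₂ W W) (fun x => alt x)
      (fun x hx => Subtype.ext (h x x.2 trivial (fun y hy => hx ⟨y, hy⟩)))
  | .hermitian σ i n B hm _, W, h => .hermitian σ i n
      (LinearMap.mk₂'ₛₗ (RingHom.id F) σ (fun x y => B x y) (by intros; simp) (by intros; simp)
        (by intros; simp) (by intros; simp))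
      (fun x y => hm x y)
      (fun x hx => Subtype.ext (h x x.2 (hx x) (fun y hy => hx ⟨y, hy⟩)))
  | .orthogonal Q _, W, h => .orthogonal (Q.comp W.subtype)
      (fun x hx hp => Subtype.ext (h x x.2 hx (fun y hy => hp ⟨y, hy⟩)))

theorem Form.restrict_kind (φ : Form F V) (W : Submodule F V)
    (h : ∀ x ∈ W, φ.Sing x → (∀ y ∈ W, φ.Perp x y) → x = 0) : (φ.restrict W h).kind = φ.kind := by
  cases φ <;> rfl

theorem Form.restrict_f (φ : Form F V) (W : Submodule F V)
    (h : ∀ x ∈ W, φ.Sing x → (∀ y ∈ W, φ.Perp x y) → x = 0) (x y : W) :
    (φ.restrict W h).f x y = φ.f x y := by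
  cases φ <;> rfl

theorem Form.restrict_sing (φ : Form F V) (W : Submodule F V)
    (h : ∀ x ∈ W, φ.Sing x → (∀ y ∈ W, φ.Perp x y) → x = 0) (x : W) :
    (φ.restrict W h).Sing x ↔ φ.Sing x := by
  cases φ <;> rfl

/-- orthogonal sum with a hyperbolic plane -/
noncomputable def Form.ext : Form F V → Form F (V × F × F)
  | .symplectic B alt nd => .symplectic
      (LinearMap.mk₂ F (fun x y => B x.1 y.1 + x.2.1 * y.2.2 - x.2.2 * y.2.1)
        (by intros; simp; ring) (by intros; simp; ring) (by intros; simp; ring)
        (by intros; simp; ring))
      (fun x => by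
        simp only [LinearMap.mk₂_apply, alt]
        ring)
      (by
        intro x hx
        have h1 : x.2.1 = 0 := by simpa using hx (0, 0, 1)
        have h2 : x.2.2 = 0 := by simpa using hx (0, 1, 0)
        have h3 : x.1 = 0 := nd _ (fun y => by simpa using hx (y, 0, 0))
        exact Prod.ext h3 (Prod.ext h1 h2))
  | .hermitian σ i n B hm nd => .hermitian σ i n
      (LinearMap.mk₂'ₛₗ (RingHom.id F) σ
        (fun x y => B x.1 y.1 + x.2.1 * σ y.2.2 + x.2.2 * σ y.2.1)
        (by intros; simp; ring) (by intros; simp; ring) (by intros; simp; ring)
        (by intros; simp; ring))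
      (by
        intro x y
        simp only [LinearMap.mk₂'ₛₗ_apply, map_add, map_mul, i, hm x.1 y.1]
        ring)
      (by
        intro x hx
        have h1 : x.2.1 = 0 := by simpa using hx (0, 0, 1)
        have h2 : x.2.2 = 0 := by simpa using hx (0, 1, 0)
        have h3 : x.1 = 0 := nd _ (fun y => by simpa using hx (y, 0, 0))
        exact Prod.ext h3 (Prod.ext h1 h2))
  | .orthogonal Q nd => .orthogonal
      (Q.comp (LinearMap.fst F V (F × F)) + QuadraticMap.linMulLin
        ((LinearMap.fst F F F).comp (LinearMap.snd F V (F × F)))
        ((LinearMap.snd F F F).comp (LinearMap.snd F V (F × F))))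
      (by
        intro x hx hp
        have h1 : x.2.1 = 0 := by
          have := hp (0, 0, 1)
          simp [QuadraticMap.polar] at this
          linear_combination this
        have h2 : x.2.2 = 0 := by
          have := hp (0, 1, 0)
          simp [QuadraticMap.polar] at this
          linear_combination this
        have h3 : x.1 = 0 := by
          apply nd
          · simpa [h1, h2] using hx
          · intro y
            have := hp (y, 0, 0)
            simp [QuadraticMap.polar] at this
            unfold QuadraticMap.polar
            linear_combination this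
        exact Prod.ext h3 (Prod.ext h1 h2))

end Pool.Agent.Helper53.PB
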