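import Mathlib

/-!
# Rank bound for pairwise non-orthogonal points in even characteristic
-/

set_option autoImplicit false

open Module

namespace Pool.Agent.Helper53.PB

universe u v w

theorem sum_two_pow (h : ℕ) : ∑ t : Fin h, 2 ^ (t : ℕ) + 1 = 2 ^ h := by
  induction h with
  | zero => simp
  | succ h ih =>
    rw [Fin.sum_univ_castSucc]
    simp only [Fin.val_castSucc, Fin.val_last]
    rw [pow_succ]
    omega

/-- Frobenius powers and sums of products -/
theorem pow_expand {F : Type u} [Field F] [CharP F 2] (h d : ℕ) (a b : Fin d → F) :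
    (∑ k, a k * b k) ^ (2 ^ h - 1) =
      ∑ κ : Fin h → Fin d, (∏ t, a (κ t) ^ 2 ^ (t : ℕ)) * ∏ t, b (κ t) ^ 2 ^ (t : ℕ) := by
  have h1 : 2 ^ h - 1 = ∑ t : Fin h, 2 ^ (t : ℕ) := by
    have := sum_two_pow h
    omega
  have h2 : ∀ t : Fin h, (∑ k, a k * b k) ^ 2 ^ (t : ℕ) = ∑ k, (a k * b k) ^ 2 ^ (t : ℕ) := by
    intro t
    have h3 := map_sum (iterateFrobenius F 2 (t : ℕ)) (fun k => a k * b k) Finset.univ
    simpa only [iterateFrobenius_def] using h3
  rw [h1, ← Finset.prod_pow_eq_pow_sum]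
  simp_rw [h2]
  rw [Finset.prod_univ_sum]
  simp only [Fintype.piFinset_univ]
  apply Finset.sum_congr rfl
  intro κ _
  rw [← Finset.prod_mul_distrib]
  apply Finset.prod_congr rfl
  intro t _
  rw [mul_pow]

theorem rank_bound {F : Type u} {V : Type v} [Field F] [Finite F] [AddCommGroup V] [Module F V]
    [FiniteDimensional F V] {h : ℕ} (hF : Nat.card F = 2 ^ h) (B : V →ₗ[F] V →ₗ[F] F)
    {α : Type w} [Fintype α] (x : α → V) (h0 : ∀ i, B (x i) (x i) = 0)
    (h1 : ∀ i j, i ≠ j → B (x i) (x j) ≠ 0) :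
    Fintype.card α ≤ (finrank F V) ^ h + 1 := by
  classical
  have hfin : Fintype F := Fintype.ofFinite F
  have hcard : Fintype.card F = 2 ^ h := by rw [← Nat.card_eq_fintype_card, hF]
  have hp : Fact (Nat.Prime 2) := ⟨Nat.prime_two⟩
  have hchar : CharP F 2 := charP_of_card_eq_prime_pow hcard
  have hh : h ≠ 0 := by
    rintro rfl
    have := Fintype.one_lt_card (α := F)
    rw [hcard] at this
    simp at this
  obtain ⟨d, hd⟩ : ∃ d, d = finrank F V := ⟨_, rfl⟩
  have b : Basis (Fin d) F V := finBasisOfFinrankEq F V hd.symm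
  have hB : ∀ x y : V, B x y = ∑ k, b.repr x k * B (b k) y := by
    intro x y
    conv_lhs => rw [← b.sum_repr x]
    rw [map_sum, LinearMap.sum_apply]
    apply Finset.sum_congr rfl
    intro k _
    rw [map_smul, LinearMap.smul_apply, smul_eq_mul]
  obtain ⟨u, hu⟩ : ∃ u : α → (Fin h → Fin d) → F,
    u = fun i κ => ∏ t : Fin h, b.repr (x i) (κ t) ^ 2 ^ (t : ℕ) := ⟨_, rfl⟩
  obtain ⟨w, hw⟩ : ∃ w : α → (Fin h → Fin d) → F,
    w = fun j κ => ∏ t : Fin h, B (b (κ t)) (x j) ^ 2 ^ (t : ℕ) := ⟨_, rfl⟩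
  have hpow : ∀ i j, B (x i) (x j) ^ (2 ^ h - 1) = ∑ κ, u i κ * w j κ := by
    intro i j
    rw [hB, pow_expand, hu, hw]
  have hq : 2 ^ h - 1 ≠ 0 := by
    have : 2 ≤ 2 ^ h := by
      calc 2 = 2 ^ 1 := by norm_num
        _ ≤ 2 ^ h := Nat.pow_le_pow_right (by norm_num) (by omega)
    omega
  have hone : ∀ i j, B (x i) (x j) ^ (2 ^ h - 1) = if i = j then 0 else 1 := by
    intro i j
    by_cases hij : i = j
    · subst hij
      rw [if_pos rfl, h0, zero_pow hq]
    · rw [if_neg hij, ← hcard]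
      exact FiniteField.pow_card_sub_one_eq_one _ (h1 i j hij)
  obtain ⟨L, hL⟩ : ∃ L : (α → F) →ₗ[F] ((Fin h → Fin d) → F) × F,
      ∀ a, L a = (∑ i, a i • u i, ∑ i, a i) := by
    refine ⟨LinearMap.prod (∑ i, (LinearMap.proj i).smulRight (u i)) (∑ i, LinearMap.proj i), ?_⟩
    intro a
    simp
  have hinj : Function.Injective L := by
    rw [← LinearMap.ker_eq_bot, LinearMap.ker_eq_bot']
    intro a ha
    rw [hL, Prod.mk_eq_zero] at ha
    funext j
    have e1 : ∑ i, a i * B (x i) (x j) ^ (2 ^ h - 1) = 0 := by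
      calc ∑ i, a i * B (x i) (x j) ^ (2 ^ h - 1) = ∑ i, a i * ∑ κ, u i κ * w j κ := by
            simp_rw [hpow]
        _ = ∑ κ, (∑ i, a i • u i) κ * w j κ := by
            simp_rw [Finset.mul_sum, Finset.sum_apply, Finset.sum_mul]
            rw [Finset.sum_comm]
            apply Finset.sum_congr rfl
            intro κ _
            apply Finset.sum_congr rfl
            intro i _
            simp only [Pi.smul_apply, smul_eq_mul]
            ring
        _ = 0 := by
            rw [ha.1]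
            simp
    have e2 : ∑ i, a i * B (x i) (x j) ^ (2 ^ h - 1) = ∑ i, a i - a j := by
      rw [eq_sub_iff_add_eq, ← Finset.sum_erase_add _ _ (Finset.mem_univ j),
        ← Finset.sum_erase_add _ (fun i => a i) (Finset.mem_univ j), hone, if_pos rfl, mul_zero,
        add_zero]
      congr 1
      apply Finset.sum_congr rfl
      intro i hi
      rw [hone, if_neg (Finset.ne_of_mem_erase hi), mul_one]
    rw [e1, ha.2, zero_sub] at e2
    simpa using e2.symm
  have hle := LinearMap.finrank_le_finrank_of_injective hinj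
  rw [finrank_prod, finrank_self, finrank_fintype_fun_eq_card, finrank_fintype_fun_eq_card,
    Fintype.card_fun, Fintype.card_fin, Fintype.card_fin, hd] at hle
  exact hle

end Pool.Agent.Helper53.PB
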