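import Pool.Agent.Helper53.PB.Ovoid
import Pool.Agent.Helper53.PB.RankBd
import Pool.Agent.Helper53.PB.Symp

/-!
# Hyperbolic spaces over the fields with 4 and 8 elements
-/

set_option autoImplicit false

open Module Classical
open scoped LinearAlgebra.Projectivization

namespace Pool.Agent.Helper53.PB

universe u v

/-- the minimum size of a point set meeting all generators is `m` for all polar spaces of the class -/
def ClassMin (F : Type u) [Field F] (κ : Kind) (d r m : ℕ) : Prop :=
  ∀ (V : Type v) [AddCommGroup V] [Module F V] [FiniteDimensional F V] (φ : Form F V),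
    φ.kind = κ → HasParams φ d r →
    (∃ T : Finset (ℙ F V), φ.toPolar.Block T ∧ T.card ≤ m) ∧
      ∀ T : Finset (ℙ F V), φ.toPolar.Block T → m ≤ T.card

variable {F : Type u} [Field F]

/-- points outside a blocking set -/
theorem class_res {κ : Kind} {d r m : ℕ} (h : ∀ (V : Type v) [AddCommGroup V] [Module F V]
    [FiniteDimensional F V] (φ : Form F V), φ.kind = κ → HasParams φ d r →
    ∀ T : Finset (ℙ F V), φ.toPolar.Block T → m ≤ T.card)
    {V : Type v} [AddCommGroup V] [Module F V] [FiniteDimensional F V] (φ : Form F V)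
    (hφ : φ.kind = κ) (hp : HasParams φ (d + 2) (r + 1)) {T : Finset (ℙ F V)}
    (hT : φ.toPolar.Block T) {R : ℙ F V} (hs : φ.Sing R.rep) (hR : R ∉ T) :
    m ≤ φ.toPolar.nn T R := by
  obtain ⟨w, hw⟩ := exists_pair φ hs R.rep_nonzero
  obtain ⟨T', hT', hle⟩ := (resForm_isRes φ hs hw).project hT rfl hR
  exact (h _ (resForm φ hs hw) (by rw [resForm_kind, hφ]) (resForm_params φ hs hw hp) T' hT').trans
    hle

/-- upper bound through cones -/
theorem class_cone [Finite F] {κ : Kind} {d r m : ℕ}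
    (h : ∀ (V : Type v) [AddCommGroup V] [Module F V]
    [FiniteDimensional F V] (φ : Form F V), φ.kind = κ → HasParams φ d r →
    ∃ T : Finset (ℙ F V), φ.toPolar.Block T ∧ T.card ≤ m)
    {V : Type v} [AddCommGroup V] [Module F V] [FiniteDimensional F V] (φ : Form F V)
    (hφ : φ.kind = κ) (hp : HasParams φ (d + 2) (r + 1)) :
    ∃ T : Finset (ℙ F V), φ.toPolar.Block T ∧ T.card ≤ Nat.card F * m := by
  obtain ⟨v, hv, hs⟩ := exists_sing_of_rank hp
  obtain ⟨w, hw⟩ := exists_pair φ hs hv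
  obtain ⟨T, hT, hTm⟩ := h _ (resForm φ hs hw) (by rw [resForm_kind, hφ])
    (resForm_params φ hs hw hp)
  obtain ⟨T', hT', hle⟩ := (resForm_isRes φ hs hw).cone (class_gen hp) hT
  exact ⟨T', hT', hle.trans (Nat.mul_le_mul_left _ hTm)⟩

theorem ClassMin.step [Finite F] {κ : Kind} {d r m : ℕ} (hr : 2 ≤ r) (hdvd : Nat.card F ∣ m)
    (h : ClassMin.{u, v} F κ d r m) : ClassMin.{u, v} F κ (d + 2) (r + 1) (Nat.card F * m) := by
  intro V _ _ _ φ hφ hp
  have : Finite V := Module.finite_of_finite F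
  have hup := class_cone (fun V _ _ _ φ h1 h2 => (h V φ h1 h2).1) φ hφ hp
  refine ⟨hup, ?_⟩
  obtain ⟨T, hT, hmin⟩ := exists_min (P := φ.toPolar) ⟨_, hup.choose_spec.1⟩
  intro T' hT'
  refine le_trans ?_ (hmin T' hT')
  have h1 := Polar.core (P := φ.toPolar) hr (class_gen hp) hT hmin
    (fun R hs hR => class_res (fun V _ _ _ φ h1 h2 => (h V φ h1 h2).2) φ hφ hp hT hs hR)
  have h4 : (-(m : ℤ)) % (Nat.card F : ℤ) = 0 := by
    apply Int.emod_eq_zero_of_dvd
    rw [dvd_neg]
    exact_mod_cast hdvd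
  rw [h4, add_zero] at h1
  exact_mod_cast h1

/-- the Setup for a smallest blocking set of a hyperbolic space -/
theorem hyp_setup [Finite F] {V : Type v} [AddCommGroup V] [Module F V] [FiniteDimensional F V]
    (φ : Form F V) (hφ : φ.kind = .orthogonal) {k : ℕ} (hp : HasParams φ (2 * (k + 2)) (k + 2))
    {T : Finset (ℙ F V)} (hT : φ.toPolar.Block T)
    (hmin : ∀ T', φ.toPolar.Block T' → T.card ≤ T'.card) :
    ∃ j, Setup φ.toPolar T Unit k j := by
  have hnb : ∀ U, φ.toPolar.Gen U → Nonempty (Nb φ.toPolar U Unit) := fun U hU =>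
    hyp_nb φ hφ hp.1 (class_gen hp) hU
  obtain ⟨U0, hU0, _⟩ := Polar.exists_gen_ge (P := φ.toPolar) Polar.ts_bot
  obtain ⟨z, hz, _⟩ := hT.2 U0 hU0
  obtain ⟨U, hU, hzU, huniq⟩ := Polar.exists_tangent hT hmin hz
  obtain ⟨N⟩ := hnb U hU
  have hA := sumA N (n := k + 1) (class_gen hp U hU) hT.1
  rw [tt_one hz hzU huniq, Fintype.card_unit] at hA
  have h4 : (Finset.univ : Finset (Unit × ℙ F (Dual F U))).card = geo (Nat.card F) (k + 2) := by
    rw [Finset.card_univ, Fintype.card_prod, Fintype.card_unit,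
      ← Finset.card_univ (α := ℙ F (Dual F U)), ← class_gen hp U hU,
      ← pts_univ, card_pts, finrank_top, Subspace.dual_finrank_eq, one_mul]
  have h5 : geo (Nat.card F) (k + 2) ≤ ∑ p, tt T (N.nb p) := by
    rw [← h4, Finset.card_eq_sum_ones]
    apply Finset.sum_le_sum
    intro p _
    exact tt_pos hT (N.gen p)
  rw [geo_succ'] at h5
  refine ⟨T.card - (Nat.card F ^ (k + 1) + 1), ⟨class_gen hp, hnb, hT, ?_, ?_⟩⟩
  · intro z hz
    exact Polar.exists_tangent hT hmin hz
  · rw [Fintype.card_unit]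
    omega

theorem hyp_five_lower [Finite F] {h : ℕ} (hF : Nat.card F = 2 ^ h) (h2 : h = 2 ∨ h = 3)
    (V : Type v) [AddCommGroup V] [Module F V] [FiniteDimensional F V] (φ : Form F V)
    (hφ : φ.kind = .orthogonal) (hp : HasParams φ 10 5) (T : Finset (ℙ F V))
    (hT : φ.toPolar.Block T) : Nat.card F ^ 4 + Nat.card F ≤ T.card := by
  have : Finite V := Module.finite_of_finite F
  by_contra hlt
  push Not at hlt
  obtain ⟨S, hS, hmin⟩ := exists_min (P := φ.toPolar) ⟨T, hT⟩
  have hST := hmin T hT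
  obtain ⟨j, hset⟩ := hyp_setup φ hφ (k := 3) hp hS hmin
  have hcard := hset.card
  rw [Fintype.card_unit, one_mul, show 3 + 1 = 4 by rfl] at hcard
  have hj1 : j * (Nat.card F + 1) < Fintype.card Unit * Nat.card F ^ 3 := by
    rw [Fintype.card_unit, one_mul]
    have h5 : j + 2 ≤ Nat.card F := by omega
    have h6 : j * (Nat.card F + 1) ≤ Nat.card F * (Nat.card F + 1) :=
      Nat.mul_le_mul_right _ (by omega)
    have h7 : Nat.card F * (Nat.card F + 1) < Nat.card F ^ 3 := by
      rcases h2 with rfl | rfl <;> rw [hF] <;> norm_num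
    omega
  obtain ⟨I, hIS, hI, hIcard⟩ := exists_indep hset hj1
  have hrank : I.card ≤ 10 ^ h + 1 := by
    cases φ with
    | symplectic B alt nd => cases hφ
    | hermitian σ i n B hm nd => cases hφ
    | orthogonal Q nd =>
      have h1 := rank_bound hF (QuadraticMap.polarBilin Q) (α := I) (fun y => (y : ℙ F V).rep)
        (fun y => (Form.orthogonal Q nd).toPolar.sing_self _ (hS.1 _ (hIS y.2)))
        (fun y z hyz => hI y y.2 z z.2 (fun h => hyz (Subtype.ext h)))
      rw [Fintype.card_coe, hp.1] at h1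
      exact h1
  rw [Fintype.card_unit, one_mul] at hIcard
  rcases h2 with rfl | rfl
  · rw [hF] at hcard hIcard hlt
    norm_num at hcard hIcard hlt hrank
    have h5 : j ≤ 2 := by omega
    interval_cases j <;> omega
  · rw [hF] at hcard hIcard hlt
    norm_num at hcard hIcard hlt hrank
    have h5 : j ≤ 6 := by omega
    interval_cases j <;> omega

theorem hyp_class [Finite F] {h : ℕ} (hF : Nat.card F = 2 ^ h) (h2 : h = 2 ∨ h = 3) (n : ℕ) :
    ClassMin.{u, v} F .orthogonal (2 * (n + 5)) (n + 5)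
      (Nat.card F ^ (n + 4) + Nat.card F ^ (n + 1)) := by
  induction n with
  | zero =>
    intro V _ _ _ φ hφ hp
    refine ⟨?_, fun T hT => ?_⟩
    · obtain ⟨T, hT, hle⟩ := class_cone (d := 8) (r := 4) (m := Nat.card F ^ 3 + 1)
        (fun V _ _ _ φ h1 h3 => by
          obtain ⟨T, hT, hc⟩ := exists_ovoid hF φ h1 h3
          exact ⟨T, hT, hc.le⟩) φ hφ hp
      refine ⟨T, hT, hle.trans (le_of_eq ?_)⟩
      ring
    · have := hyp_five_lower hF h2 V φ hφ hp T hT
      simpa using this
  | succ n ih =>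
    have h3 := ClassMin.step (by omega) (by
      rw [pow_succ, pow_succ]
      exact (Nat.dvd_mul_left _ _).add (Nat.dvd_mul_left _ _)) ih
    have h4 : Nat.card F * (Nat.card F ^ (n + 4) + Nat.card F ^ (n + 1)) =
        Nat.card F ^ (n + 1 + 4) + Nat.card F ^ (n + 1 + 1) := by ring
    rw [h4] at h3
    exact h3

/-- a hyperbolic quadratic form has the right parameters -/
theorem hyp_params {V : Type v} [AddCommGroup V] [Module F V] [FiniteDimensional F V]
    (Q : QuadraticForm F V) (nd : ∀ x, Q x = 0 → (∀ y, QuadraticMap.polar Q x y = 0) → x = 0)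
    {r : ℕ} (hV : finrank F V = 2 * r)
    (hyp : ∃ U : Submodule F V, (∀ x ∈ U, Q x = 0) ∧ finrank F U = r) :
    HasParams (Form.orthogonal Q nd) (2 * r) r := by
  obtain ⟨U0, hU0, hr⟩ := hyp
  refine ⟨hV, ?_⟩
  have hTS : (Form.orthogonal Q nd).toPolar.TS U0 := by
    refine ⟨hU0, fun x hx y hy => ?_⟩
    change QuadraticMap.polar Q x y = 0
    unfold QuadraticMap.polar
    rw [hU0 _ (U0.add_mem hx hy), hU0 x hx, hU0 y hy]
    ring
  obtain ⟨W, hW, hle⟩ := Polar.exists_gen_ge hTS
  have h1 := Submodule.finrank_mono hle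
  have h2 : finrank F W ≤ r := by
    obtain ⟨L, hL⟩ : ∃ L : V →ₗ[F] Dual F W, ∀ y u, L y u = QuadraticMap.polar Q y u :=
      ⟨(Module.Dual.transpose (R := F) W.subtype).comp (QuadraticMap.polarBilin Q),
        fun y u => rfl⟩
    have hsurj : LinearMap.range L = ⊤ := by
      rw [LinearMap.range_eq_top]
      intro g
      obtain ⟨y, hy⟩ := surj_dual Q nd (U := W) hW.1.1 g
      refine ⟨y, ?_⟩
      ext u
      rw [hL, hy]
    have h1 := LinearMap.finrank_range_add_finrank_ker L
    rw [hsurj, finrank_top, Subspace.dual_finrank_eq, hV] at h1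
    have h2 : W ≤ LinearMap.ker L := by
      intro x hx
      rw [LinearMap.mem_ker]
      ext u
      rw [hL]
      exact hW.1.2 x hx u u.2
    have h3 := Submodule.finrank_mono h2
    omega
  intro U hU
  rw [Polar.gen_finrank_eq hW ((isGenerator_iff _ _).1 hU)]
  omega

end Pool.Agent.Helper53.PB
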