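import Pool.Agent.Helper53.PB.Forms

/-!
# The lifting theorem for all classical polar spaces
-/

set_option autoImplicit false

open Module Classical
open scoped LinearAlgebra.Projectivization

namespace Pool.Agent.Helper53.PB

universe u v

variable {F : Type u} {V : Type v} [Field F] [AddCommGroup V] [Module F V]

/-- the space `{v, w}^⊥` -/
noncomputable def perp2 (φ : Form F V) (v w : V) : Submodule F V :=
  LinearMap.ker (φ.f v) ⊓ LinearMap.ker (φ.f w)

theorem perp2_nondeg (φ : Form F V) {v w : V} (hv : φ.Sing v) (hw : φ.f w v ≠ 0) :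
    ∀ x ∈ perp2 φ v w, φ.Sing x → (∀ y ∈ perp2 φ v w, φ.Perp x y) → x = 0 := by
  intro x hx hs hp
  apply φ.toPolar.nondeg x hs
  intro y
  have hvw : φ.f v w ≠ 0 := fun h => hw (φ.f_symm _ _ h)
  have hvv : φ.f v v = 0 := φ.toPolar.sing_self v hv
  obtain ⟨b, hb⟩ : ∃ b, b = φ.f v y / φ.f v w := ⟨_, rfl⟩
  obtain ⟨a, ha⟩ : ∃ a, a = (φ.f w y - b * φ.f w w) / φ.f w v := ⟨_, rfl⟩
  have hb' : b * φ.f v w = φ.f v y := by rw [hb, div_mul_cancel₀ _ hvw]
  have ha' : a * φ.f w v = φ.f w y - b * φ.f w w := by rw [ha, div_mul_cancel₀ _ hw]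
  have hmem : y - (a • v + b • w) ∈ perp2 φ v w := by
    unfold perp2
    rw [Submodule.mem_inf, LinearMap.mem_ker, LinearMap.mem_ker]
    constructor
    · simp only [map_sub, map_add, map_smul, smul_eq_mul, hvv]
      linear_combination -hb'
    · simp only [map_sub, map_add, map_smul, smul_eq_mul]
      linear_combination -ha'
  have h1 := (φ.perp_iff _ _).1 (hp _ hmem)
  have h2 : φ.f x v = 0 := φ.f_symm _ _ hx.1
  have h3 : φ.f x w = 0 := φ.f_symm _ _ hx.2
  rw [map_sub, map_add, map_smul, map_smul, h2, h3, smul_zero, smul_zero, add_zero, sub_zero] at h1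
  exact h1

/-- the residue of the point spanned by `v` -/
noncomputable def resForm (φ : Form F V) {v w : V} (hv : φ.Sing v) (hw : φ.f w v ≠ 0) :
    Form F (perp2 φ v w) :=
  φ.restrict _ (perp2_nondeg φ hv hw)

theorem resForm_isRes (φ : Form F V) {v w : V} (hv : φ.Sing v) (hw : φ.f w v ≠ 0) :
    IsRes (resForm φ hv hw).toPolar φ.toPolar (perp2 φ v w).subtype v w where
  inj := Submodule.injective_subtype _
  range := Submodule.range_subtype _
  sing_v := hv
  pair := hw
  perp := fun x y => by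
    change (resForm φ hv hw).f x y = 0 ↔ φ.f x y = 0
    unfold resForm
    rw [Form.restrict_f]
  sing := fun x => φ.restrict_sing _ _ x

theorem exists_pair (φ : Form F V) {v : V} (hv : φ.Sing v) (h0 : v ≠ 0) : ∃ w, φ.f w v ≠ 0 := by
  by_contra hcon
  push Not at hcon
  exact h0 (φ.toPolar.nondeg v hv (fun y => φ.f_symm _ _ (hcon y)))

theorem finrank_perp2 [FiniteDimensional F V] (φ : Form F V) {v w : V} (hv : φ.Sing v)
    (hw : φ.f w v ≠ 0) : finrank F (perp2 φ v w) + 2 = finrank F V := by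
  have hvw : φ.f v w ≠ 0 := fun h => hw (φ.f_symm _ _ h)
  have h1 : ¬ (⊤ : Submodule F V) ≤ LinearMap.ker (φ.f v) := fun h => hvw (h (Submodule.mem_top))
  have h2 := Polar.finrank_inf_ker ⊤ (φ.f v) h1
  rw [top_inf_eq, finrank_top] at h2
  have h3 : ¬ LinearMap.ker (φ.f v) ≤ LinearMap.ker (φ.f w) :=
    fun h => hw (h (φ.toPolar.sing_self v hv))
  have h4 := Polar.finrank_inf_ker _ (φ.f w) h3
  unfold perp2
  omega

theorem resForm_params [FiniteDimensional F V] (φ : Form F V) {v w : V} (hv : φ.Sing v)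
    (hw : φ.f w v ≠ 0) {d r : ℕ} (h : HasParams φ (d + 2) (r + 1)) :
    HasParams (resForm φ hv hw) d r := by
  constructor
  · have := finrank_perp2 φ hv hw
    have := h.1
    omega
  · intro U hU
    apply (resForm_isRes φ hv hw).gen_finrank _ U ((isGenerator_iff _ _).1 hU)
    intro W hW
    exact h.2 W ((isGenerator_iff _ _).2 hW)

theorem Form.ext_kind (φ : Form F V) : φ.ext.kind = φ.kind := by
  cases φ <;> rfl

section ext

variable {V : Type u} [AddCommGroup V] [Module F V]

theorem ext_isRes (φ : Form F V) :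
    IsRes φ.toPolar φ.ext.toPolar (LinearMap.inl F V (F × F)) ((0, 1, 0) : V × F × F)
      ((0, 0, 1) : V × F × F) where
  inj := LinearMap.inl_injective
  range := by
    have h1 : ∀ y : V × F × F, φ.ext.f (0, 1, 0) y = 0 ↔ y.2.2 = 0 := by
      intro y
      cases φ with
      | symplectic B alt nd => simp [Form.ext, Form.f]
      | hermitian σ i n B hm nd => simp [Form.ext, Form.f]
      | orthogonal Q nd =>
        simp [Form.ext, Form.f, QuadraticMap.polar]
        rw [show (1 + y.2.1) * y.2.2 - y.2.1 * y.2.2 = y.2.2 by ring]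
    have h2 : ∀ y : V × F × F, φ.ext.f (0, 0, 1) y = 0 ↔ y.2.1 = 0 := by
      intro y
      cases φ with
      | symplectic B alt nd => simp [Form.ext, Form.f]
      | hermitian σ i n B hm nd => simp [Form.ext, Form.f]
      | orthogonal Q nd =>
        simp [Form.ext, Form.f, QuadraticMap.polar]
        rw [show y.2.1 * (1 + y.2.2) - y.2.1 * y.2.2 = y.2.1 by ring]
    ext y
    rw [Submodule.mem_inf, LinearMap.mem_ker, LinearMap.mem_ker]
    change _ ↔ φ.ext.f (0, 1, 0) y = 0 ∧ φ.ext.f (0, 0, 1) y = 0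
    rw [h1, h2]
    constructor
    · rintro ⟨x, rfl⟩
      simp
    · rintro ⟨h3, h4⟩
      exact ⟨y.1, Prod.ext rfl (Prod.ext h4.symm h3.symm)⟩
  sing_v := by
    change φ.ext.Sing _
    cases φ with
    | symplectic B alt nd => trivial
    | hermitian σ i n B hm nd => simp [Form.ext, Form.Sing]
    | orthogonal Q nd => simp [Form.ext, Form.Sing]
  pair := by
    change φ.ext.f _ _ ≠ 0
    cases φ with
    | symplectic B alt nd => simp [Form.ext, Form.f]
    | hermitian σ i n B hm nd => simp [Form.ext, Form.f]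
    | orthogonal Q nd => simp [Form.ext, Form.f, QuadraticMap.polar]
  perp := by
    intro x y
    change φ.f x y = 0 ↔ φ.ext.f _ _ = 0
    cases φ with
    | symplectic B alt nd => simp [Form.ext, Form.f]
    | hermitian σ i n B hm nd => simp [Form.ext, Form.f]
    | orthogonal Q nd => simp [Form.ext, Form.f, QuadraticMap.polar]
  sing := by
    intro x
    change φ.Sing x ↔ φ.ext.Sing _
    cases φ with
    | symplectic B alt nd => exact Iff.rfl
    | hermitian σ i n B hm nd => simp [Form.ext, Form.Sing]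
    | orthogonal Q nd => simp [Form.ext, Form.Sing]

theorem ext_params [FiniteDimensional F V] (φ : Form F V) {d r : ℕ} (h : HasParams φ d r) :
    HasParams φ.ext (d + 2) (r + 1) := by
  constructor
  · rw [finrank_prod, finrank_prod, finrank_self, h.1]
  · intro U hU
    obtain ⟨U0, hU0, _⟩ := Polar.exists_gen_ge (P := φ.toPolar) Polar.ts_bot
    have h1 := (ext_isRes φ).lift_gen hU0
    have h2 := Polar.gen_finrank_eq h1 ((isGenerator_iff _ _).1 hU)
    rw [h2, (ext_isRes φ).finrank_lift, h.2 U0 ((isGenerator_iff _ _).2 hU0)]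

end ext

/-- the set of sizes of blocking sets in the class -/
def sizes (F : Type u) [Field F] (κ : Kind) (d r : ℕ) : Set ℕ :=
  {k | ∃ (V : Type u) (_ : AddCommGroup V) (_ : Module F V) (φ : Form F V)
    (T : Finset (ℙ F V)), FiniteDimensional F V ∧ φ.kind = κ ∧ HasParams φ d r ∧ Blocking φ T ∧
      T.card = k}

theorem Exist.succ {F : Type u} [Field F] {κ : Kind} {d r : ℕ} (h : Exist F κ d r) :
    Exist F κ (d + 2) (r + 1) := by
  obtain ⟨V, _, _, φ, hfd, hκ, hp⟩ := h
  exact ⟨V × F × F, inferInstance, inferInstance, φ.ext, inferInstance, by rw [φ.ext_kind, hκ],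
    ext_params φ hp⟩

theorem Exist.add {F : Type u} [Field F] {κ : Kind} {d r : ℕ} (h : Exist F κ d r) (k : ℕ) :
    Exist F κ (d + 2 * k) (r + k) := by
  induction k with
  | zero => simpa using h
  | succ k ih => exact ih.succ

theorem sizes_nonempty {F : Type u} [Field F] [Finite F] {κ : Kind} {d r : ℕ} (hr : 1 ≤ r)
    (h : Exist F κ d r) : (sizes F κ d r).Nonempty := by
  obtain ⟨V, _, _, φ, hfd, hκ, hp⟩ := h
  have : Finite V := Module.finite_of_finite F
  refine ⟨_, V, _, _, φ, Finset.univ.filter (fun P : ℙ F V => φ.Sing P.rep), hfd, hκ, hp, ⟨?_, ?_⟩,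
    rfl⟩
  · intro P hP
    exact (Finset.mem_filter.1 hP).2
  · intro U hU
    have h1 : 0 < finrank F U := by
      rw [hp.2 U hU]
      exact hr
    obtain ⟨x, hx⟩ := (Submodule.ne_bot_iff U).1 (by
      rintro rfl
      rw [finrank_bot] at h1
      omega)
    refine ⟨Projectivization.mk F x hx.2, Finset.mem_filter.2 ⟨Finset.mem_univ _, ?_⟩,
      (rep_mk_mem hx.2).2 hx.1⟩
    apply hU.1.1
    exact (rep_mk_mem hx.2).2 hx.1

theorem sizes_min_mem {F : Type u} [Field F] [Finite F] {κ : Kind} {d r : ℕ} (hr : 1 ≤ r)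
    (h : Exist F κ d r) : minBlock F κ d r ∈ sizes F κ d r :=
  Nat.sInf_mem (sizes_nonempty hr h)

theorem minBlock_le {F : Type u} [Field F] {κ : Kind} {d r : ℕ} {V : Type u} [AddCommGroup V]
    [Module F V] (φ : Form F V) [FiniteDimensional F V] (hκ : φ.kind = κ) (hp : HasParams φ d r)
    {T : Finset (ℙ F V)} (hT : Blocking φ T) : minBlock F κ d r ≤ T.card :=
  Nat.sInf_le ⟨V, _, _, φ, T, inferInstance, hκ, hp, hT, rfl⟩

/-- upper bound: cones -/
theorem minBlock_succ_le {F : Type u} [Field F] [Finite F] {κ : Kind} {d r : ℕ} (hr : 1 ≤ r)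
    (h : Exist F κ d r) : minBlock F κ (d + 2) (r + 1) ≤ Nat.card F * minBlock F κ d r := by
  obtain ⟨V, _, _, φ, T, hfd, hκ, hp, hT, hcard⟩ := sizes_min_mem hr h
  obtain ⟨T', hT', hle⟩ := (ext_isRes φ).cone (r := r)
    (fun U hU => (ext_params φ hp).2 U ((isGenerator_iff _ _).2 hU)) ((blocking_iff _ _).1 hT)
  rw [hcard] at hle
  exact (minBlock_le φ.ext (by rw [φ.ext_kind, hκ]) (ext_params φ hp)
    ((blocking_iff _ _).2 hT')).trans hle

/-- lower bound -/
theorem le_minBlock_succ {F : Type u} [Field F] [Finite F] {κ : Kind} {d r : ℕ} (hr : 2 ≤ r)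
    (h : Exist F κ d r) : (Nat.card F : ℤ) * minBlock F κ d r ≤
      minBlock F κ (d + 2) (r + 1) + (-(minBlock F κ d r : ℤ)) % (Nat.card F : ℤ) := by
  obtain ⟨V, _, _, φ, T, hfd, hκ, hp, hT, hcard⟩ := sizes_min_mem (by omega) h.succ
  have : Finite V := Module.finite_of_finite F
  rw [← hcard]
  apply Polar.core (P := φ.toPolar) hr
  · intro U hU
    exact hp.2 U ((isGenerator_iff _ _).2 hU)
  · exact (blocking_iff _ _).1 hT
  · intro T' hT'
    rw [hcard]
    exact minBlock_le φ hκ hp ((blocking_iff _ _).2 hT')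
  · intro R hR hRT
    obtain ⟨w, hw⟩ := exists_pair φ hR R.rep_nonzero
    obtain ⟨T', hT', hle⟩ := (resForm_isRes φ hR hw).project ((blocking_iff _ _).1 hT) rfl hRT
    exact (minBlock_le (resForm φ hR hw) (by
      unfold resForm
      rw [Form.restrict_kind, hκ]) (resForm_params φ hR hw hp) ((blocking_iff _ _).2 hT')).trans hle

/-- once the minimum is divisible by `q`, all further minima are obtained by multiplying by `q` -/
theorem minBlock_stable {F : Type u} [Field F] [Finite F] {κ : Kind} {d r : ℕ} (hr : 2 ≤ r)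
    (h : Exist F κ d r) (hdvd : Nat.card F ∣ minBlock F κ d r) (k : ℕ) :
    minBlock F κ (d + 2 * k) (r + k) = Nat.card F ^ k * minBlock F κ d r := by
  induction k with
  | zero => simp
  | succ k ih =>
    have h1 := h.add k
    have h2 := minBlock_succ_le (by omega) h1
    have h3 := le_minBlock_succ (by omega) h1
    rw [ih] at h2 h3
    have h4 : (-((Nat.card F ^ k * minBlock F κ d r : ℕ) : ℤ)) % (Nat.card F : ℤ) = 0 := by
      apply Int.emod_eq_zero_of_dvd
      rw [dvd_neg]
      exact_mod_cast hdvd.mul_left _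
    rw [h4, add_zero] at h3
    have h5 : Nat.card F * (Nat.card F ^ k * minBlock F κ d r) ≤
        minBlock F κ (d + 2 * k + 2) (r + k + 1) := by exact_mod_cast h3
    have h6 := le_antisymm h2 h5
    rw [show d + 2 * (k + 1) = d + 2 * k + 2 by ring, show r + (k + 1) = r + k + 1 by ring, h6,
      pow_succ]
    ring

/-- the sequence of defects is non-increasing -/
theorem minBlock_defects {F : Type u} [Field F] [Finite F] {κ : Kind} {d r : ℕ} (hr : 2 ≤ r)
    (h : Exist F κ d r) : ∃ δ : ℕ → ℕ, Antitone δ ∧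
      (δ 0 : ℤ) ≤ (-(minBlock F κ d r : ℤ)) % (Nat.card F : ℤ) ∧
      ∀ k, minBlock F κ (d + 2 * (k + 1)) (r + (k + 1)) + δ k =
        Nat.card F * minBlock F κ (d + 2 * k) (r + k) := by
  have hq : 2 ≤ Nat.card F := Finite.one_lt_card
  have h2 : ∀ k, minBlock F κ (d + 2 * (k + 1)) (r + (k + 1)) ≤
      Nat.card F * minBlock F κ (d + 2 * k) (r + k) :=
    fun k => minBlock_succ_le (r := r + k) (d := d + 2 * k) (by omega) (h.add k)
  have h3 : ∀ k, (Nat.card F : ℤ) * minBlock F κ (d + 2 * k) (r + k) ≤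
      minBlock F κ (d + 2 * (k + 1)) (r + (k + 1)) +
        (-(minBlock F κ (d + 2 * k) (r + k) : ℤ)) % (Nat.card F : ℤ) :=
    fun k => le_minBlock_succ (r := r + k) (d := d + 2 * k) (by omega) (h.add k)
  obtain ⟨δ, hδ⟩ : ∃ δ : ℕ → ℕ, δ = fun k => Nat.card F * minBlock F κ (d + 2 * k) (r + k) -
    minBlock F κ (d + 2 * (k + 1)) (r + (k + 1)) := ⟨_, rfl⟩
  have h1 : ∀ k, minBlock F κ (d + 2 * (k + 1)) (r + (k + 1)) + δ k =
      Nat.card F * minBlock F κ (d + 2 * k) (r + k) := by
    intro k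
    rw [hδ]
    simp only
    have := h2 k
    omega
  have h4 : ∀ k, (δ k : ℤ) ≤
      (-(minBlock F κ (d + 2 * k) (r + k) : ℤ)) % (Nat.card F : ℤ) := by
    intro k
    have e1 := congrArg (Nat.cast : ℕ → ℤ) (h1 k)
    push_cast at e1
    have e2 := h3 k
    linarith
  refine ⟨δ, antitone_nat_of_succ_le ?_, ?_, h1⟩
  · intro k
    have e1 := h4 (k + 1)
    have e2 := congrArg (Nat.cast : ℕ → ℤ) (h1 k)
    push_cast at e2
    have e3 : (-(minBlock F κ (d + 2 * (k + 1)) (r + (k + 1)) : ℤ)) % (Nat.card F : ℤ) =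
        (δ k : ℤ) % (Nat.card F : ℤ) := by
      have e4 : (-(minBlock F κ (d + 2 * (k + 1)) (r + (k + 1)) : ℤ)) = (δ k : ℤ) +
          (Nat.card F : ℤ) * (-(minBlock F κ (d + 2 * k) (r + k) : ℤ)) := by
        linear_combination -e2
      rw [e4, Int.add_mul_emod_self_left]
    have e5 : (δ k : ℤ) % (Nat.card F : ℤ) = δ k := by
      apply Int.emod_eq_of_lt (by positivity)
      have := h4 k
      have e6 := Int.emod_lt_of_pos (-(minBlock F κ (d + 2 * k) (r + k) : ℤ))
        (show (0 : ℤ) < (Nat.card F : ℤ) by omega)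
      linarith
    rw [e3, e5] at e1
    exact_mod_cast e1
  · have := h4 0
    simpa using this

end Pool.Agent.Helper53.PB
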