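import Pool.Agent.Helper53.PB.Count

/-!
# The lower bound
-/

set_option autoImplicit false

open Module Classical
open scoped LinearAlgebra.Projectivization

namespace Pool.Agent.Helper53.PB

universe u v

variable {F : Type u} {V : Type v} [Field F] [AddCommGroup V] [Module F V]

/-- blocking sets of an abstract polar geometry -/
def Polar.Block (P : Polar F V) (T : Finset (ℙ F V)) : Prop :=
  (∀ y ∈ T, P.sing y.rep) ∧ ∀ U, P.Gen U → ∃ y ∈ T, y.rep ∈ U

namespace Polar

variable {P : Polar F V} {T : Finset (ℙ F V)}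

theorem exists_tangent (hT : P.Block T) (hmin : ∀ T', P.Block T' → T.card ≤ T'.card) {z : ℙ F V}
    (hz : z ∈ T) : ∃ U, P.Gen U ∧ z.rep ∈ U ∧ ∀ y ∈ T, y.rep ∈ U → y = z := by
  by_contra hcon
  push Not at hcon
  have h1 : P.Block (T.erase z) := by
    refine ⟨fun y hy => hT.1 y (Finset.mem_of_mem_erase hy), fun U hU => ?_⟩
    obtain ⟨y, hy, hyU⟩ := hT.2 U hU
    by_cases hyz : y = z
    · subst hyz
      obtain ⟨x, hx, hxU, hxz⟩ := hcon U hU hyU
      exact ⟨x, Finset.mem_erase.2 ⟨hxz, hx⟩, hxU⟩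
    · exact ⟨y, Finset.mem_erase.2 ⟨hyz, hy⟩, hyU⟩
  have h2 := hmin _ h1
  have h3 := Finset.card_erase_lt_of_mem hz
  omega

theorem tangent_sum [Finite F] [Finite V] {U : Submodule F V} {r : ℕ} (hT : P.Block T)
    (hU : P.Gen U) (hr : finrank F U = r + 1) {z : ℙ F V} (hz : z ∈ T) (hzU : z.rep ∈ U)
    (huniq : ∀ y ∈ T, y.rep ∈ U → y = z) :
    ∑ R ∈ pts U, P.nn T R + geo (Nat.card F) r =
      T.card * geo (Nat.card F) r + geo (Nat.card F) (r + 1) := by
  have : FiniteDimensional F V := Module.Finite.of_finite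
  rw [double_count, ← Finset.add_sum_erase T _ hz]
  have h1 : U ⊓ LinearMap.ker (P.f z.rep) = U := by
    rw [inf_eq_left]
    intro x hx
    exact hU.1.2 _ hzU _ hx
  rw [h1, card_pts, hr]
  have h2 : ∀ y ∈ T.erase z, (pts (U ⊓ LinearMap.ker (P.f y.rep))).card = geo (Nat.card F) r := by
    intro y hy
    rw [Finset.mem_erase] at hy
    have hyU : y.rep ∉ U := fun h => hy.1 (huniq y hy.2 h)
    have h3 := finrank_inf_ker U (P.f y.rep) (hU.not_le (hT.1 y hy.2) hyU)
    rw [card_pts]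
    congr 1
    omega
  rw [Finset.sum_congr rfl h2, Finset.sum_const, Finset.card_erase_of_mem hz, smul_eq_mul]
  have h3 : 0 < T.card := Finset.card_pos.2 ⟨z, hz⟩
  obtain ⟨k, hk⟩ : ∃ k, T.card = k + 1 := ⟨T.card - 1, by omega⟩
  rw [hk]
  simp only [Nat.add_sub_cancel]
  ring

/-- weight estimate on a tangent generator -/
theorem tangent_bound [Finite F] [Finite V] {U : Submodule F V} {r m : ℕ} (hT : P.Block T)
    (hU : P.Gen U) (hr : finrank F U = r + 1) {z : ℙ F V} (hz : z ∈ T) (hzU : z.rep ∈ U)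
    (huniq : ∀ y ∈ T, y.rep ∈ U → y = z) :
    ∑ R ∈ (pts U).erase z, ((P.nn T R : ℤ) - m) =
      geo (Nat.card F) r * (T.card + Nat.card F - 1 - Nat.card F * m) + 1 - P.nn T z := by
  have h1 := tangent_sum hT hU hr hz hzU huniq
  have h2 : z ∈ pts U := mem_pts.2 hzU
  have h3 : (pts U).card = geo (Nat.card F) (r + 1) := by rw [card_pts, hr]
  rw [Finset.sum_sub_distrib, Finset.sum_const, Finset.card_erase_of_mem h2, h3, geo_succ]
  rw [← Finset.add_sum_erase _ _ h2, geo_succ] at h1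
  simp only [Nat.add_sub_cancel, nsmul_eq_mul]
  push_cast
  have h4 := congrArg (Nat.cast : ℕ → ℤ) h1
  push_cast at h4
  linarith

theorem nn_self_pos (hT : P.Block T) {z : ℙ F V} (hz : z ∈ T) : 1 ≤ P.nn T z := by
  unfold nn
  rw [Nat.succ_le_iff, Finset.card_pos]
  exact ⟨z, Finset.mem_filter.2 ⟨hz, P.sing_self _ (hT.1 z hz)⟩⟩

/-- rank at least two: `|T| ≥ q m - (q - 1)`, and equality only for ovoids -/
theorem weak_bound [Finite F] [Finite V] [FiniteDimensional F V] {r m : ℕ} (hr : 1 ≤ r)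
    (hgen : ∀ U, P.Gen U → finrank F U = r + 1) (hT : P.Block T)
    (hmin : ∀ T', P.Block T' → T.card ≤ T'.card)
    (hres : ∀ R : ℙ F V, P.sing R.rep → R ∉ T → m ≤ P.nn T R) :
    Nat.card F * m + 1 ≤ T.card + Nat.card F ∧
      (Nat.card F * m + 1 = T.card + Nat.card F → ∀ z ∈ T, P.nn T z = 1) := by
  have key : ∀ z ∈ T, 0 ≤ (geo (Nat.card F) r : ℤ) * (T.card + Nat.card F - 1 - Nat.card F * m) + 1
      - P.nn T z := by
    intro z hz
    obtain ⟨U, hU, hzU, huniq⟩ := exists_tangent hT hmin hz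
    rw [← tangent_bound hT hU (hgen U hU) hz hzU huniq]
    apply Finset.sum_nonneg
    intro R hR
    rw [Finset.mem_erase, mem_pts] at hR
    have h1 : R ∉ T := fun h => hR.1 (huniq R h hR.2)
    have := hres R (hU.1.1 _ hR.2) h1
    omega
  have hgeo : 0 < geo (Nat.card F) r := by
    have := geo_mono (Nat.card F) hr
    rw [geo_one] at this
    omega
  obtain ⟨U0, hU0, _⟩ := exists_gen_ge (P := P) ts_bot
  obtain ⟨z, hz, _⟩ := hT.2 U0 hU0
  constructor
  · by_contra hlt
    push Not at hlt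
    have h1 := key z hz
    have h2 := nn_self_pos hT hz
    have h3 : (T.card + Nat.card F - 1 - Nat.card F * m : ℤ) ≤ -1 := by
      have := Int.ofNat_lt.2 hlt
      push_cast at this
      linarith
    have h4 : (geo (Nat.card F) r : ℤ) * (T.card + Nat.card F - 1 - Nat.card F * m) ≤
        geo (Nat.card F) r * (-1) := by
      apply mul_le_mul_of_nonneg_left h3
      positivity
    omega
  · intro heq w hw
    have h1 := key w hw
    have h2 := nn_self_pos hT hw
    have h3 : (T.card + Nat.card F - 1 - Nat.card F * m : ℤ) = 0 := by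
      have := congrArg (Nat.cast : ℕ → ℤ) heq
      push_cast at this
      linarith
    rw [h3, mul_zero] at h1
    omega

/-- The main inequality: in rank at least three the defect `q m - |T|` is at most `-m` mod `q`. -/
theorem core [Finite F] [Finite V] [FiniteDimensional F V] {r m : ℕ} (hr : 2 ≤ r)
    (hgen : ∀ U, P.Gen U → finrank F U = r + 1) (hT : P.Block T)
    (hmin : ∀ T', P.Block T' → T.card ≤ T'.card)
    (hres : ∀ R : ℙ F V, P.sing R.rep → R ∉ T → m ≤ P.nn T R) :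
    (Nat.card F : ℤ) * m ≤ T.card + (-(m : ℤ)) % (Nat.card F : ℤ) := by
  obtain ⟨q, hq⟩ : ∃ q, q = Nat.card F := ⟨_, rfl⟩
  have hq2 : 2 ≤ q := by
    rw [hq]
    exact Finite.one_lt_card
  rw [← hq]
  obtain ⟨δ, hδ⟩ : ∃ δ : ℤ, δ = q * m - T.card := ⟨_, rfl⟩
  obtain ⟨ρ, hρ⟩ : ∃ ρ : ℤ, ρ = (-(m : ℤ)) % (q : ℤ) := ⟨_, rfl⟩
  rw [← hρ]
  by_contra hcon
  push Not at hcon
  have hδρ : ρ < δ := by linarith
  have hρ0 : 0 ≤ ρ := by
    rw [hρ]
    apply Int.emod_nonneg
    omega
  obtain ⟨k, hk⟩ : ∃ k : ℤ, (m : ℤ) = q * k - ρ := by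
    refine ⟨-(-(m : ℤ) / q), ?_⟩
    have := Int.emod_add_mul_ediv (-(m : ℤ)) q
    rw [← hρ] at this
    linarith
  obtain ⟨U0, hU0, _⟩ := exists_gen_ge (P := P) ts_bot
  obtain ⟨z, hz, _⟩ := hT.2 U0 hU0
  obtain ⟨U, hU, hzU, huniq⟩ := exists_tangent hT hmin hz
  obtain ⟨A, hA⟩ : ∃ A : ℙ F V → ℤ, A = fun R => (P.nn T R : ℤ) - m := ⟨_, rfl⟩
  have hsum := tangent_bound (m := m) hT hU (hgen U hU) hz hzU huniq
  rw [← hA, ← hq] at hsum
  obtain ⟨θ, hθ⟩ : ∃ θ : ℕ, θ = geo q r := ⟨_, rfl⟩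
  rw [← hθ] at hsum
  have hθq : q + 1 ≤ θ := by
    rw [hθ, ← geo_two]
    exact geo_mono q hr
  have hnn := nn_self_pos hT hz
  have hle : ∑ R ∈ (pts U).erase z, A R ≤ θ * (q - 1 - δ) := by
    rw [hsum, hδ]
    have : (1 : ℤ) ≤ P.nn T z := by exact_mod_cast hnn
    linarith
  have hApos : ∀ R, R.rep ∈ U → R ≠ z → 0 ≤ A R := by
    intro R hR hRz
    have h1 : R ∉ T := fun h => hRz (huniq R h hR)
    have := hres R (hU.1.1 _ hR) h1
    rw [hA]
    simp only
    omega
  have hcardE : ((pts U).erase z).card = q * θ := by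
    rw [Finset.card_erase_of_mem (mem_pts.2 hzU), card_pts, hgen U hU, geo_succ, ← hq, ← hθ]
    omega
  -- a point with value zero
  obtain ⟨R0, hR0U, hR0z, hR00⟩ : ∃ R0 : ℙ F V, R0.rep ∈ U ∧ R0 ≠ z ∧ A R0 = 0 := by
    by_contra hno
    push Not at hno
    have h1 : ∑ R ∈ (pts U).erase z, (1 : ℤ) ≤ ∑ R ∈ (pts U).erase z, A R := by
      apply Finset.sum_le_sum
      intro R hR
      rw [Finset.mem_erase, mem_pts] at hR
      have h2 := hApos R hR.2 hR.1
      have h3 := hno R hR.2 hR.1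
      omega
    rw [Finset.sum_const, hcardE] at h1
    simp only [nsmul_eq_mul, mul_one] at h1
    push_cast at h1
    have h4 : (0 : ℤ) < θ := by
      have : (q : ℤ) + 1 ≤ θ := by exact_mod_cast hθq
      linarith [hq2]
    nlinarith
  -- a functional separating
  obtain ⟨g, hgR, hgz⟩ : ∃ g : V →ₗ[F] F, g R0.rep ≠ 0 ∧ g z.rep = 0 := by
    have h1 : R0.rep ∉ Submodule.span F {z.rep} := fun h => hR0z (eq_of_rep_mem_span h)
    obtain ⟨g, hg1, hg2⟩ := Submodule.exists_le_ker_of_notMem h1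
    exact ⟨g, hg1, hg2 (Submodule.mem_span_singleton_self _)⟩
  obtain ⟨H, hH⟩ : ∃ H, H = U ⊓ LinearMap.ker g := ⟨_, rfl⟩
  have hHr : finrank F H = r := by
    have h1 : ¬ U ≤ LinearMap.ker g := fun h => hgR (h hR0U)
    have h2 := finrank_inf_ker U g h1
    rw [hH]
    have := hgen U hU
    omega
  have hzH : z ∈ pts H := by
    rw [mem_pts, hH]
    exact ⟨hzU, hgz⟩
  have hcardI : ((pts H).erase z).card = θ - 1 := by
    rw [Finset.card_erase_of_mem hzH, card_pts, hHr, ← hq, ← hθ]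
  have hI : ∀ X ∈ (pts H).erase z, X.rep ∈ U ∧ g X.rep = 0 ∧ X ≠ z ∧ R0 ≠ X := by
    intro X hX
    rw [Finset.mem_erase, mem_pts, hH] at hX
    refine ⟨hX.2.1, hX.2.2, hX.1, ?_⟩
    rintro rfl
    exact hgR hX.2.2
  have hlineU : ∀ X ∈ (pts H).erase z, ∀ R : ℙ F V, R.rep ∈ line R0 X → R.rep ∈ U ∧ R ≠ z := by
    intro X hX R hR
    obtain ⟨h1, h2, h3, h4⟩ := hI X hX
    refine ⟨line_le hR0U h1 hR, ?_⟩
    rintro rfl
    obtain ⟨a, b, hab⟩ := mem_line.1 hR
    have h5 : a * g R0.rep = 0 := by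
      have := congrArg g hab
      rw [map_add, map_smul, map_smul, h2, smul_zero, add_zero, hgz, smul_eq_mul] at this
      exact this
    have h6 : a = 0 := by
      rcases mul_eq_zero.1 h5 with h | h
      · exact h
      · exact absurd h hgR
    rw [h6, zero_smul, zero_add] at hab
    apply h3
    symm
    apply eq_of_rep_mem_span
    rw [← hab]
    exact Submodule.smul_mem _ _ (Submodule.mem_span_singleton_self _)
  -- line sums
  have hline : ∀ X ∈ (pts H).erase z,
      (q : ℤ) - δ ≤ ∑ R ∈ (pts (line R0 X)).erase R0, A R := by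
    intro X hX
    have h1 := line_count P T (hI X hX).2.2.2
    have h2 : R0 ∈ pts (line R0 X) := mem_pts.2 (left_mem_line _ _)
    have h3 : ∑ R ∈ pts (line R0 X), A R = ∑ R ∈ (pts (line R0 X)).erase R0, A R := by
      rw [← Finset.add_sum_erase _ _ h2, hR00, zero_add]
    rw [← h3]
    have h4 : 0 ≤ ∑ R ∈ pts (line R0 X), A R := by
      apply Finset.sum_nonneg
      intro R hR
      obtain ⟨h5, h6⟩ := hlineU X hX R (mem_pts.1 hR)
      exact hApos R h5 h6
    obtain ⟨t, ht⟩ : ∃ t : ℕ, t =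
      (T.filter (fun y => line R0 X ≤ LinearMap.ker (P.f y.rep))).card := ⟨_, rfl⟩
    rw [← ht, ← hq] at h1
    have h7 : ∑ R ∈ pts (line R0 X), A R = ρ - δ + q * (t - k) := by
      rw [hA]
      rw [Finset.sum_sub_distrib, Finset.sum_const, card_pts, finrank_line (hI X hX).2.2.2, ← hq,
        geo_two]
      have h8 := congrArg (Nat.cast : ℕ → ℤ) h1
      push_cast at h8
      rw [h8]
      simp only [nsmul_eq_mul]
      push_cast
      linear_combination hδ - hk
    rw [h7] at h4 ⊢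
    have h9 : (1 : ℤ) ≤ t - k := by
      by_contra h10
      push Not at h10
      have h11 : (t : ℤ) - k ≤ 0 := by omega
      have : (q : ℤ) * (t - k) ≤ 0 := mul_nonpos_of_nonneg_of_nonpos (by positivity) h11
      linarith
    nlinarith
  -- disjointness
  have hdisj : ((((pts H).erase z : Finset (ℙ F V)) : Set (ℙ F V))).PairwiseDisjoint
      (fun X => (pts (line R0 X)).erase R0) := by
    intro X hX Y hY hXY
    rw [Function.onFun, Finset.disjoint_left]
    intro R hRX hRY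
    rw [Finset.mem_erase, mem_pts] at hRX hRY
    have hX' := hI X hX
    have hY' := hI Y hY
    have e1 := line_eq hX'.2.2.2 hRX.2 hRX.1
    have e2 := line_eq hY'.2.2.2 hRY.2 hRY.1
    have h1 : Y.rep ∈ line R0 X := by
      rw [← e1, e2]
      exact right_mem_line _ _
    obtain ⟨a, b, hab⟩ := mem_line.1 h1
    have h5 : a * g R0.rep = 0 := by
      have := congrArg g hab
      rw [map_add, map_smul, map_smul, hX'.2.1, smul_zero, add_zero, hY'.2.1, smul_eq_mul] at this
      exact this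
    have h6 : a = 0 := by
      rcases mul_eq_zero.1 h5 with h | h
      · exact h
      · exact absurd h hgR
    rw [h6, zero_smul, zero_add] at hab
    apply hXY
    symm
    apply eq_of_rep_mem_span
    rw [← hab]
    exact Submodule.smul_mem _ _ (Submodule.mem_span_singleton_self _)
  have hbig : ∑ X ∈ (pts H).erase z, ∑ R ∈ (pts (line R0 X)).erase R0, A R ≤
      ∑ R ∈ (pts U).erase z, A R := by
    rw [← Finset.sum_biUnion hdisj]
    apply Finset.sum_le_sum_of_subset_of_nonneg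
    · intro R hR
      rw [Finset.mem_biUnion] at hR
      obtain ⟨X, hX, hR⟩ := hR
      rw [Finset.mem_erase, mem_pts] at hR
      obtain ⟨h1, h2⟩ := hlineU X hX R hR.2
      rw [Finset.mem_erase, mem_pts]
      exact ⟨h2, h1⟩
    · intro R hR _
      rw [Finset.mem_erase, mem_pts] at hR
      exact hApos R hR.2 hR.1
  have hsmall : ((θ : ℤ) - 1) * (q - δ) ≤
      ∑ X ∈ (pts H).erase z, ∑ R ∈ (pts (line R0 X)).erase R0, A R := by
    have h1 := Finset.card_nsmul_le_sum ((pts H).erase z)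
      (fun X => ∑ R ∈ (pts (line R0 X)).erase R0, A R) ((q : ℤ) - δ) hline
    rw [hcardI, nsmul_eq_mul, Nat.cast_sub (by omega)] at h1
    exact_mod_cast h1
  have hfin : ((θ : ℤ) - 1) * (q - δ) ≤ θ * (q - 1 - δ) := hsmall.trans (hbig.trans hle)
  have hθq' : (q : ℤ) + 1 ≤ θ := by exact_mod_cast hθq
  nlinarith

end Polar

end Pool.Agent.Helper53.PB
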