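import Pool.Agent.Helper53.PB.HypStd

/-!
# Ovoids of hyperbolic spaces of rank four in even characteristic
-/

set_option autoImplicit false

open Module Classical
open scoped LinearAlgebra.Projectivization

namespace Pool.Agent.Helper53.PB

universe u v w

section field

variable {F : Type u} [Field F] [Finite F] {K : Type w} [Field K] [Finite K] [Algebra F K]

/-- trace and norm of a cubic extension of a finite field of characteristic two -/
theorem cubic (h : ℕ) (hF : Nat.card F = 2 ^ h) (hK : finrank F K = 3) :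
    ∃ σ : K →+* K, (∀ x, σ (σ (σ x)) = x) ∧
      (∀ x, algebraMap F K (Algebra.trace F K x) = x + σ x + σ (σ x)) ∧
      ∀ x, algebraMap F K (Algebra.norm F x) = x * σ x * σ (σ x) := by
  have : Fintype F := Fintype.ofFinite F
  have : Fintype K := Fintype.ofFinite K
  have hp : Fact (Nat.Prime 2) := ⟨Nat.prime_two⟩
  have hcardF : Fintype.card F = 2 ^ h := by rw [← Nat.card_eq_fintype_card, hF]
  have hcharF : CharP F 2 := charP_of_card_eq_prime_pow hcardF
  have hcharK : CharP K 2 := charP_of_injective_algebraMap (algebraMap F K).injective 2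
  have hcardK : Fintype.card K = 2 ^ (h * 3) := by
    have h1 := Module.card_eq_pow_finrank (K := F) (V := K)
    rw [h1, hcardF, hK, ← pow_mul]
  have hσ : ∀ x : K, iterateFrobenius K 2 h x = x ^ Nat.card F := by
    intro x
    rw [iterateFrobenius_def, hF]
  refine ⟨iterateFrobenius K 2 h, ?_, ?_, ?_⟩
  · intro x
    have h1 := FiniteField.pow_card x
    rw [hcardK] at h1
    rw [hσ, hσ, hσ, ← pow_mul, ← pow_mul, hF, ← pow_add, ← pow_add,
      show h + (h + h) = h * 3 by ring]
    exact h1
  · intro x
    rw [FiniteField.algebraMap_trace_eq_sum_pow, hK, Finset.sum_range_succ, Finset.sum_range_succ,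
      Finset.sum_range_one, hσ, hσ, pow_zero, pow_one, pow_one, ← pow_mul, ← pow_two]
  · intro x
    rw [FiniteField.algebraMap_norm_eq_prod_pow, hK, Finset.prod_range_succ,
      Finset.prod_range_succ, Finset.prod_range_one, hσ, hσ, pow_zero, pow_one, pow_one, ← pow_mul,
      ← pow_two]

end field

variable {F : Type u} {V : Type v} [Field F] [AddCommGroup V] [Module F V]

theorem f_formula {n : ℕ} (φ : Form F V) (hφ : φ.kind = .orthogonal) (e f : Fin n → V)
    (hef : ∀ x y : Fin n → F, φ.q (∑ i, x i • e i + ∑ i, y i • f i) = ∑ i, x i * y i)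
    (x y x' y' : Fin n → F) :
    φ.f (∑ i, x i • e i + ∑ i, y i • f i) (∑ i, x' i • e i + ∑ i, y' i • f i) =
      ∑ i, x i * y' i + ∑ i, x' i * y i := by
  have h1 := orth_add φ hφ (∑ i, x i • e i + ∑ i, y i • f i) (∑ i, x' i • e i + ∑ i, y' i • f i)
  have h2 : ∑ i, x i • e i + ∑ i, y i • f i + (∑ i, x' i • e i + ∑ i, y' i • f i) =
      ∑ i, (x i + x' i) • e i + ∑ i, (y i + y' i) • f i := by
    simp_rw [add_smul, Finset.sum_add_distrib]
    abel
  rw [h2, hef (fun i => x i + x' i) (fun i => y i + y' i), hef, hef] at h1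
  have h3 : ∑ i, (x i + x' i) * (y i + y' i) =
      ∑ i, x i * y i + ∑ i, x' i * y' i + (∑ i, x i * y' i + ∑ i, x' i * y i) := by
    rw [← Finset.sum_add_distrib, ← Finset.sum_add_distrib, ← Finset.sum_add_distrib]
    apply Finset.sum_congr rfl
    intro i _
    ring
  rw [h3] at h1
  exact (add_left_cancel h1).symm

/-- In even characteristic the hyperbolic space of rank four has `q^3 + 1` pairwise non-orthogonal
singular points. -/
theorem exists_ovoid [Finite F] [FiniteDimensional F V] {h : ℕ} (hF : Nat.card F = 2 ^ h)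
    (φ : Form F V) (hφ : φ.kind = .orthogonal) (hp : HasParams φ 8 4) :
    ∃ T : Finset (ℙ F V), φ.toPolar.Block T ∧ T.card = Nat.card F ^ 3 + 1 := by
  have hprime : Fact (Nat.Prime 2) := ⟨Nat.prime_two⟩
  have hfF : Fintype F := Fintype.ofFinite F
  have hcardF : Fintype.card F = 2 ^ h := by rw [← Nat.card_eq_fintype_card, hF]
  have hcharF : CharP F 2 := charP_of_card_eq_prime_pow hcardF
  have h2F : (2 : F) = 0 := by exact_mod_cast CharP.cast_eq_zero F 2
  obtain ⟨e, f, hef⟩ := hyp_basis 4 φ hφ hp
  obtain ⟨K, hK1, hK2, hK3, hK4⟩ : ∃ (K : Type) (_ : Field K) (_ : Finite K) (_ : Algebra F K),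
      finrank F K = 3 :=
    ⟨FiniteField.Extension F 2 3, inferInstance, inferInstance, inferInstance,
      FiniteField.finrank_extension F 2 3⟩
  have hfK : Fintype K := Fintype.ofFinite K
  have hcharK : CharP K 2 := charP_of_injective_algebraMap (algebraMap F K).injective 2
  have h2K : (2 : K) = 0 := by exact_mod_cast CharP.cast_eq_zero K 2
  obtain ⟨σ, hσ3, htr, hnorm⟩ := cubic (K := K) h hF hK4
  have b : Basis (Fin 3) F K := finBasisOfFinrankEq F K hK4
  obtain ⟨A, hA⟩ : ∃ A : K → K → F, A = fun s t => Algebra.trace F K (s * (σ t * σ (σ t))) :=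
    ⟨_, rfl⟩
  have hAs : ∀ s t, A s t = ∑ i, b.repr s i * Algebra.trace F K (b i * (σ t * σ (σ t))) := by
    intro s t
    rw [hA]
    simp only
    conv_lhs => rw [← b.sum_repr s]
    rw [Finset.sum_mul, map_sum]
    apply Finset.sum_congr rfl
    intro i _
    rw [smul_mul_assoc, map_smul, smul_eq_mul]
  have hAst : ∀ s t : K, algebraMap F K (A s t) =
      s * σ t * σ (σ t) + σ s * σ (σ t) * t + σ (σ s) * t * σ t := by
    intro s t
    rw [hA]
    simp only
    rw [htr]
    simp only [map_mul, hσ3]
    ring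
  have hinj := (algebraMap F K).injective
  have hAtt : ∀ t : K, A t t = Algebra.norm F t := by
    intro t
    apply hinj
    rw [hAst, hnorm]
    linear_combination (t * σ t * σ (σ t)) * h2K
  have hAdd : ∀ s t : K, Algebra.norm F (s + t) =
      Algebra.norm F s + Algebra.norm F t + A s t + A t s := by
    intro s t
    apply hinj
    rw [hnorm (s + t)]
    simp only [map_add, hAst, hnorm]
    ring
  obtain ⟨vx, hvx1, hvx2⟩ : ∃ vx : Option K → Fin 4 → F, vx none = 0 ∧
      ∀ t, vx (some t) = Fin.cons 1 (fun i => b.repr t i) :=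
    ⟨fun t => match t with
      | none => 0
      | some t => Fin.cons 1 (fun i => b.repr t i), rfl, fun _ => rfl⟩
  obtain ⟨vy, hvy1, hvy2⟩ : ∃ vy : Option K → Fin 4 → F, vy none = Fin.cons 1 0 ∧
      ∀ t, vy (some t) = Fin.cons (Algebra.norm F t)
        (fun i => Algebra.trace F K (b i * (σ t * σ (σ t)))) :=
    ⟨fun t => match t with
      | none => Fin.cons 1 0
      | some t => Fin.cons (Algebra.norm F t)
        (fun i => Algebra.trace F K (b i * (σ t * σ (σ t)))), rfl, fun _ => rfl⟩
  have hxy : ∀ s t : K, ∑ i, vx (some s) i * vy (some t) i = Algebra.norm F t + A s t := by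
    intro s t
    rw [hvx2, hvy2, Fin.sum_univ_succ, hAs]
    simp only [Fin.cons_zero, Fin.cons_succ, one_mul]
  have hxn : ∀ s : K, ∑ i, vx (some s) i * vy none i = 1 := by
    intro s
    rw [hvx2, hvy1, Fin.sum_univ_succ]
    simp
  have hnx : ∀ t : Option K, ∑ i, vx none i * vy t i = 0 := by
    intro t
    rw [hvx1]
    simp
  obtain ⟨vec, hvec⟩ : ∃ vec : Option K → V,
      vec = fun t => ∑ i, vx t i • e i + ∑ i, vy t i • f i := ⟨_, rfl⟩
  have hq : ∀ t, φ.q (vec t) = 0 := by
    intro t
    rw [hvec, hef]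
    cases t with
    | none => exact hnx none
    | some t =>
      rw [hxy, hAtt]
      linear_combination (Algebra.norm F t) * h2F
  have hf : ∀ s t, s ≠ t → φ.f (vec s) (vec t) ≠ 0 := by
    intro s t hst
    rw [hvec]
    simp only
    rw [f_formula φ hφ e f hef]
    cases s with
    | none =>
      cases t with
      | none => exact absurd rfl hst
      | some t =>
        rw [hnx, hxn, zero_add]
        exact one_ne_zero
    | some s =>
      cases t with
      | none =>
        rw [hnx, hxn, add_zero]
        exact one_ne_zero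
      | some t =>
        rw [hxy, hxy]
        intro h0
        have h1 : Algebra.norm F (s + t) = 0 := by
          rw [hAdd]
          linear_combination h0
        rw [Algebra.norm_eq_zero_iff] at h1
        apply hst
        congr 1
        have h2 : s = s + t - t := by ring
        rw [h2, h1]
        linear_combination (-t) * h2K
  have hvec0 : ∀ t, vec t ≠ 0 := by
    intro t h0
    obtain ⟨s, hs⟩ : ∃ s : Option K, s ≠ t := by
      cases t with
      | none => exact ⟨some 0, by simp⟩
      | some t => exact ⟨none, by simp⟩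
    apply hf s t hs
    rw [h0, map_zero]
  obtain ⟨O, hO⟩ : ∃ O : Option K → ℙ F V, O = fun t => Projectivization.mk F (vec t) (hvec0 t) :=
    ⟨_, rfl⟩
  have hrep : ∀ t, ∃ c : F, c ≠ 0 ∧ (O t).rep = c • vec t := by
    intro t
    obtain ⟨a, ha⟩ := Projectivization.exists_smul_eq_mk_rep F (vec t) (hvec0 t)
    refine ⟨a, a.ne_zero, ?_⟩
    rw [hO]
    exact ha.symm
  have hOf : ∀ s t, s ≠ t → φ.f (O s).rep (O t).rep ≠ 0 := by
    intro s t hst
    obtain ⟨c, hc, hc2⟩ := hrep s
    obtain ⟨d, hd, hd2⟩ := hrep t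
    rw [hc2, hd2, orth_f_smul φ hφ, map_smul, smul_eq_mul]
    exact mul_ne_zero hc (mul_ne_zero hd (hf s t hst))
  have hOs : ∀ t, φ.Sing (O t).rep := by
    intro t
    obtain ⟨c, hc, hc2⟩ := hrep t
    rw [hc2, orth_sing φ hφ, orth_smul φ hφ, hq, mul_zero]
  have hOinj : Function.Injective O := by
    intro s t hst
    by_contra hne
    apply hOf s t hne
    rw [hst]
    exact φ.toPolar.sing_self _ (hOs t)
  have hcard : (Finset.univ.image O).card = Nat.card F ^ 3 + 1 := by
    rw [Finset.card_image_of_injective _ hOinj, Finset.card_univ, Fintype.card_option,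
      Nat.card_eq_fintype_card]
    congr 1
    rw [Module.card_eq_pow_finrank (K := F) (V := K), hK4]
  refine ⟨Finset.univ.image O, ?_, hcard⟩
  apply ovoid_block (k := 3) (class_gen hp)
  · intro U hU
    exact hyp_nb φ hφ (r := 4) hp.1 (class_gen hp) hU
  · intro y hy
    obtain ⟨t, _, rfl⟩ := Finset.mem_image.1 hy
    exact hOs t
  · intro x hx y hy hxy
    obtain ⟨s, _, rfl⟩ := Finset.mem_image.1 hx
    obtain ⟨t, _, rfl⟩ := Finset.mem_image.1 hy
    exact hOf s t (fun h => hxy (by rw [h]))
  · exact hcard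

end Pool.Agent.Helper53.PB
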