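import Mathlib

/-!
# Abstract polar geometries: totally singular subspaces and generators
-/

set_option autoImplicit false

open Module

namespace Pool.Agent.Helper53.PB

universe u v

/-- Abstract data of a polar space in a vector space. -/
structure Polar (F : Type u) (V : Type v) [Field F] [AddCommGroup V] [Module F V] where
  f : V → Dual F V
  symm : ∀ x y, f x y = 0 → f y x = 0
  sing : V → Prop
  sing_zero : sing 0
  sing_smul : ∀ (c : F) x, sing x → sing (c • x)
  sing_self : ∀ x, sing x → f x x = 0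
  sing_add : ∀ x y, sing x → sing y → f x y = 0 → sing (x + y)
  nondeg : ∀ x, sing x → (∀ y, f x y = 0) → x = 0

variable {F : Type u} {V : Type v} [Field F] [AddCommGroup V] [Module F V]

namespace Polar

variable (P : Polar F V)

/-- totally singular subspaces -/
def TS (U : Submodule F V) : Prop :=
  (∀ x ∈ U, P.sing x) ∧ ∀ x ∈ U, ∀ y ∈ U, P.f x y = 0

/-- generators -/
def Gen (U : Submodule F V) : Prop :=
  P.TS U ∧ ∀ W : Submodule F V, P.TS W → U ≤ W → W = U

variable {P}

theorem add_left {x y z : V} (h1 : P.f x z = 0) (h2 : P.f y z = 0) : P.f (x + y) z = 0 := by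
  apply P.symm
  rw [map_add, P.symm _ _ h1, P.symm _ _ h2, add_zero]

theorem smul_left (c : F) {x z : V} (h1 : P.f x z = 0) : P.f (c • x) z = 0 := by
  apply P.symm
  rw [map_smul, P.symm _ _ h1, smul_zero]

theorem zero_left (z : V) : P.f 0 z = 0 := P.symm _ _ (map_zero _)

theorem perp_span {S : Set V} {z : V} (h : ∀ x ∈ S, P.f x z = 0) {y : V}
    (hy : y ∈ Submodule.span F S) : P.f y z = 0 := by
  induction hy using Submodule.span_induction with
  | mem x hx => exact h x hx
  | zero => exact zero_left z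
  | add x y _ _ hx hy => exact add_left hx hy
  | smul a x _ hx => exact smul_left a hx

theorem ts_bot : P.TS ⊥ := by
  constructor
  · intro x hx
    rw [Submodule.mem_bot] at hx
    rw [hx]
    exact P.sing_zero
  · intro x _ y hy
    rw [Submodule.mem_bot] at hy
    rw [hy, map_zero]

theorem TS.mono {U W : Submodule F V} (h : P.TS W) (hUW : U ≤ W) : P.TS U :=
  ⟨fun x hx => h.1 x (hUW hx), fun x hx y hy => h.2 x (hUW hx) y (hUW hy)⟩

theorem TS.sup_span {U : Submodule F V} (h : P.TS U) {v : V} (hv : P.sing v)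
    (hU : ∀ x ∈ U, P.f x v = 0) : P.TS (U ⊔ Submodule.span F {v}) := by
  have key : ∀ x ∈ U ⊔ Submodule.span F {v}, ∃ a ∈ U, ∃ c : F, x = a + c • v := by
    intro x hx
    obtain ⟨a, ha, b, hb, rfl⟩ := Submodule.mem_sup.1 hx
    obtain ⟨c, rfl⟩ := Submodule.mem_span_singleton.1 hb
    exact ⟨a, ha, c, rfl⟩
  constructor
  · intro x hx
    obtain ⟨a, ha, c, rfl⟩ := key x hx
    apply P.sing_add _ _ (h.1 a ha) (P.sing_smul c v hv)
    rw [map_smul, hU a ha, smul_zero]
  · intro x hx y hy
    obtain ⟨a, ha, c, rfl⟩ := key x hx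
    obtain ⟨b, hb, d, rfl⟩ := key y hy
    have h1 : P.f v b = 0 := P.symm _ _ (hU b hb)
    apply add_left
    · rw [map_add, map_smul, h.2 a ha b hb, hU a ha, smul_zero, add_zero]
    · apply smul_left
      rw [map_add, map_smul, h1, P.sing_self v hv, smul_zero, add_zero]

theorem exists_gen_ge [FiniteDimensional F V] {U : Submodule F V} (h : P.TS U) :
    ∃ W, P.Gen W ∧ U ≤ W := by
  obtain ⟨W, ⟨h1, h2⟩, h3⟩ := WellFounded.has_min (wellFounded_gt (α := Submodule F V))
    {W | P.TS W ∧ U ≤ W} ⟨U, h, le_rfl⟩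
  refine ⟨W, ⟨h1, ?_⟩, h2⟩
  intro X hX hWX
  by_contra hne
  exact h3 X ⟨hX, h2.trans hWX⟩ (lt_of_le_of_ne hWX (Ne.symm hne))

theorem Gen.not_le {U : Submodule F V} (h : P.Gen U) {y : V} (hy : P.sing y) (hyU : y ∉ U) :
    ¬ U ≤ LinearMap.ker (P.f y) := by
  intro hle
  have h1 : P.TS (U ⊔ Submodule.span F {y}) :=
    h.1.sup_span hy (fun x hx => P.symm _ _ (hle hx))
  have h2 := h.2 _ h1 le_sup_left
  apply hyU
  rw [← h2]
  exact Submodule.mem_sup_right (Submodule.mem_span_singleton_self y)

theorem finrank_inf_ker [FiniteDimensional F V] (U : Submodule F V) (g : Dual F V)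
    (h : ¬ U ≤ LinearMap.ker g) :
    finrank F (U ⊓ LinearMap.ker g : Submodule F V) + 1 = finrank F U := by
  have h1 : g.domRestrict U ≠ 0 := by
    intro h0
    apply h
    intro x hx
    have := LinearMap.congr_fun h0 ⟨x, hx⟩
    exact this
  have h2 := Module.Dual.finrank_ker_add_one_of_ne_zero h1
  have h3 : (LinearMap.ker (g.domRestrict U)) = (U ⊓ LinearMap.ker g).comap U.subtype := by
    ext x
    simp
  rw [← h2, h3, (Submodule.comapSubtypeEquivOfLe (inf_le_left : U ⊓ LinearMap.ker g ≤ U)).finrank_eq]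

theorem finrank_le_inf_ker [FiniteDimensional F V] (U : Submodule F V) (g : Dual F V) :
    finrank F U ≤ finrank F (U ⊓ LinearMap.ker g : Submodule F V) + 1 := by
  by_cases h : U ≤ LinearMap.ker g
  · rw [inf_eq_left.2 h]
    omega
  · rw [finrank_inf_ker U g h]

theorem finrank_le_biInf [FiniteDimensional F V] (U : Submodule F V) (l : List V) :
    ∃ W : Submodule F V, W ≤ U ∧ (∀ x ∈ W, ∀ c ∈ l, P.f c x = 0) ∧
      finrank F U ≤ finrank F W + l.length := by
  induction l with
  | nil => exact ⟨U, le_rfl, by simp, by simp⟩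
  | cons c l ih =>
    obtain ⟨W, h1, h2, h3⟩ := ih
    refine ⟨W ⊓ LinearMap.ker (P.f c), inf_le_left.trans h1, ?_, ?_⟩
    · intro x hx d hd
      rcases List.mem_cons.1 hd with rfl | hd
      · exact hx.2
      · exact h2 x hx.1 d hd
    · have := finrank_le_inf_ker W (P.f c)
      simp only [List.length_cons]
      omega

/-- a totally singular subspace smaller than another one can be enlarged by a vector -/
theorem gen_finrank_le [FiniteDimensional F V] {U M : Submodule F V} (hU : P.Gen U) (hM : P.TS M) :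
    finrank F M ≤ finrank F U := by
  by_contra hlt
  push Not at hlt
  obtain ⟨C, hC⟩ := Submodule.exists_isCompl ((U ⊓ M).comap U.subtype)
  obtain ⟨b⟩ : Nonempty (Basis (Fin (finrank F C)) F C) := ⟨finBasis F C⟩
  have hdim : finrank F (U ⊓ M : Submodule F V) + finrank F C = finrank F U := by
    rw [← Submodule.finrank_add_eq_of_isCompl hC,
      (Submodule.comapSubtypeEquivOfLe (inf_le_left : U ⊓ M ≤ U)).finrank_eq]
  obtain ⟨W, hW1, hW2, hW3⟩ := finrank_le_biInf (P := P) M
    (List.ofFn fun i => ((b i : U) : V))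
  rw [List.length_ofFn] at hW3
  have hlt2 : finrank F (U ⊓ M : Submodule F V) < finrank F W := by omega
  obtain ⟨x, hxW, hxU⟩ : ∃ x ∈ W, x ∉ U := by
    by_contra hcon
    push Not at hcon
    have hle : W ≤ U ⊓ M := fun x hx => ⟨hcon x hx, hW1 hx⟩
    have := Submodule.finrank_mono hle
    omega
  apply hU.not_le (hM.1 x (hW1 hxW)) hxU
  intro u hu
  rw [LinearMap.mem_ker]
  apply P.symm
  -- decompose u
  have htop : (⟨u, hu⟩ : U) ∈ (U ⊓ M).comap U.subtype ⊔ C := by
    rw [hC.sup_eq_top]
    trivial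
  obtain ⟨a, ha, c, hc, hac⟩ := Submodule.mem_sup.1 htop
  have hu2 : u = (a : V) + (c : V) := by
    rw [← Submodule.coe_add, hac]
  rw [hu2]
  apply add_left
  · exact hM.2 _ ha.2 _ (hW1 hxW)
  · have h1 : (⟨c, hc⟩ : C) ∈ Submodule.span F (Set.range b) := by
      rw [b.span_eq]
      trivial
    have h2 : (c : V) ∈ Submodule.span F (Set.range fun i => ((b i : U) : V)) := by
      have h3 := Submodule.mem_map_of_mem (f := U.subtype ∘ₗ C.subtype) h1
      rw [Submodule.map_span, ← Set.range_comp] at h3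
      exact h3
    apply perp_span _ h2
    rintro _ ⟨i, rfl⟩
    exact hW2 x hxW _ (by rw [List.mem_ofFn]; exact ⟨i, rfl⟩)

theorem gen_finrank_eq [FiniteDimensional F V] {U M : Submodule F V} (hU : P.Gen U) (hM : P.Gen M) :
    finrank F M = finrank F U :=
  le_antisymm (gen_finrank_le hU hM.1) (gen_finrank_le hM hU.1)

theorem gen_of_finrank [FiniteDimensional F V] {r : ℕ} (h : ∀ U, P.Gen U → finrank F U = r)
    {U : Submodule F V} (hU : P.TS U) (hr : finrank F U = r) : P.Gen U := by
  obtain ⟨W, hW, hUW⟩ := exists_gen_ge hU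
  have : U = W := Submodule.eq_of_le_of_finrank_eq hUW (by rw [hr, h W hW])
  rw [this]
  exact hW

end Polar

end Pool.Agent.Helper53.PB
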