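import Pool.Agent.Helper53.PB.Symp

/-!
# Symplectic spaces of rank two
-/

set_option autoImplicit false

open Module Classical
open scoped LinearAlgebra.Projectivization

namespace Pool.Agent.Helper53.PB

universe u v

variable {F : Type u} {V : Type v} [Field F] [AddCommGroup V] [Module F V]

theorem exists_ne_zero_of_finrank {W : Submodule F V} (h : 0 < finrank F W) :
    ∃ x ∈ W, x ≠ 0 := by
  obtain ⟨x, hx⟩ := (Submodule.ne_bot_iff W).1 (by
    rintro rfl
    rw [finrank_bot] at h
    omega)
  exact ⟨x, hx⟩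

theorem mk_mem_pts [Finite V] {W : Submodule F V} {x : V} (hx : x ≠ 0) (h : x ∈ W) :
    Projectivization.mk F x hx ∈ pts W := mem_pts.2 ((rep_mk_mem hx).2 h)

/-- A point set of size `q^2 + q - 1` meeting all generators of a symplectic space of
dimension four. -/
theorem symp_two_upper [Finite F] {V : Type v} [AddCommGroup V] [Module F V]
    [FiniteDimensional F V] (φ : Form F V) (hφ : φ.kind = .symplectic)
    (hV : finrank F V = 2 * 2) :
    ∃ T : Finset (ℙ F V), φ.toPolar.Block T ∧ T.card ≤ Nat.card F ^ 2 + Nat.card F - 1 := by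
  have : Finite V := Module.finite_of_finite F
  have hnt : Nontrivial V := Module.nontrivial_of_finrank_pos (R := F) (by omega)
  obtain ⟨v, hv⟩ := exists_ne (0 : V)
  have hs := symp_sing φ hφ v
  obtain ⟨w, hw⟩ := exists_pair φ hs hv
  have hh := finrank_perp2 φ hs hw
  have hK := finrank_perp1 φ hφ hv
  have hvK : φ.f v v = 0 := φ.toPolar.sing_self v hs
  have hw0 : w ≠ 0 := by
    rintro rfl
    apply hw
    have := symp_smul φ hφ 0 (0 : V) v
    rw [zero_smul, zero_mul] at this
    exact this
  obtain ⟨K, hKd⟩ : ∃ K, K = LinearMap.ker (φ.f v) := ⟨_, rfl⟩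
  obtain ⟨h, hhd⟩ : ∃ h, h = perp2 φ v w := ⟨_, rfl⟩
  obtain ⟨P0, hP0⟩ : ∃ P0, P0 = Projectivization.mk F v hv := ⟨_, rfl⟩
  obtain ⟨W0, hW0⟩ : ∃ W0, W0 = Projectivization.mk F w hw0 := ⟨_, rfl⟩
  have hne : P0 ≠ W0 := by
    intro he
    rw [hP0, hW0, Projectivization.mk_eq_mk_iff'] at he
    obtain ⟨a, ha⟩ := he
    apply hw
    have hww : φ.f w w = 0 := φ.toPolar.sing_self w (symp_sing φ hφ w)
    have h1 : a • φ.f w w = 0 := by
      rw [hww, smul_zero]
    rw [← map_smul, ha] at h1
    exact h1
  have hL := finrank_line hne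
  have hvL : v ∈ line P0 W0 := by
    have := left_mem_line P0 W0
    rwa [hP0, rep_mk_mem, ← hP0] at this
  have hwL : w ∈ line P0 W0 := by
    have := right_mem_line P0 W0
    rwa [hW0, rep_mk_mem, ← hW0] at this
  have hP0K : P0 ∈ pts K \ pts h := by
    rw [Finset.mem_sdiff, mem_pts, mem_pts, hP0, rep_mk_mem, rep_mk_mem, hKd, hhd]
    exact ⟨hvK, fun h1 => hw h1.2⟩
  refine ⟨(pts K \ pts h).erase P0 ∪ (pts (line P0 W0)).erase P0, ⟨fun y _ => symp_sing φ hφ _, ?_⟩,
    ?_⟩
  · intro U hU
    have hUr := symp_gen 2 φ hφ hV U hU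
    by_cases hvU : v ∈ U
    · have h1 : ¬ U ≤ LinearMap.ker (φ.f w) := fun hle => hw (hle hvU)
      have h2 := Polar.finrank_inf_ker U (φ.f w) h1
      obtain ⟨x, hx, hx0⟩ := exists_ne_zero_of_finrank (F := F)
        (W := U ⊓ LinearMap.ker (φ.f w)) (by omega)
      have hxw : φ.f w x = 0 := hx.2
      have hvx : φ.f v x = 0 := hU.1.2 v hvU x hx.1
      have h3 : φ.f w (v + x) ≠ 0 := by
        rw [map_add, hxw, add_zero]
        exact hw
      have h4 : v + x ≠ 0 := by
        intro h5
        rw [h5, map_zero] at h3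
        exact h3 rfl
      refine ⟨Projectivization.mk F _ h4, ?_, (rep_mk_mem h4).2 (U.add_mem hvU hx.1)⟩
      rw [Finset.mem_union, Finset.mem_erase, Finset.mem_sdiff]
      left
      refine ⟨?_, mk_mem_pts h4 ?_, ?_⟩
      · intro he
        rw [hP0, Projectivization.mk_eq_mk_iff'] at he
        obtain ⟨a, ha⟩ := he
        have h5 : (a - 1) • v = x := by
          rw [sub_smul, one_smul, ha]
          abel
        have h6 := congrArg (φ.f w) h5
        rw [map_smul, hxw, smul_eq_mul] at h6
        rcases mul_eq_zero.1 h6 with h7 | h7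
        · rw [h7, zero_smul] at h5
          exact hx0 h5.symm
        · exact hw h7
      · rw [hKd, LinearMap.mem_ker, map_add, hvK, hvx, add_zero]
      · rw [mem_pts, rep_mk_mem, hhd]
        exact fun h5 => h3 h5.2
    · have h1 := hU.not_le (y := v) hs hvU
      have h2 := Polar.finrank_inf_ker U _ h1
      obtain ⟨x, hx, hx0⟩ := exists_ne_zero_of_finrank (F := F)
        (W := U ⊓ LinearMap.ker (φ.toPolar.f v)) (by omega)
      have hPne : ∀ (y : V) (hy : y ≠ 0), y ∈ U → Projectivization.mk F y hy ≠ P0 := by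
        intro y hy hyU he
        rw [hP0, Projectivization.mk_eq_mk_iff'] at he
        obtain ⟨a, ha⟩ := he
        have ha0 : a ≠ 0 := by
          rintro rfl
          rw [zero_smul] at ha
          exact hy ha.symm
        apply hvU
        rw [← Submodule.smul_mem_iff U ha0, ha]
        exact hyU
      by_cases hxh : x ∈ h
      · have h3 : ¬ (⊤ : Submodule F V) ≤ LinearMap.ker (φ.f x) := by
          intro hle
          apply hx0
          apply φ.toPolar.nondeg x (symp_sing φ hφ x)
          intro y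
          exact hle Submodule.mem_top
        have hX := finrank_perp1 φ hφ hx0
        rw [hhd] at hxh
        have hLX : line P0 W0 ≤ LinearMap.ker (φ.f x) := by
          apply line_le
          · rw [hP0, rep_mk_mem]
            exact φ.f_symm _ _ hxh.1
          · rw [hW0, rep_mk_mem]
            exact φ.f_symm _ _ hxh.2
        have hUX : U ≤ LinearMap.ker (φ.f x) := fun y hy => hU.1.2 x hx.1 y hy
        have h4 := Submodule.finrank_sup_add_finrank_inf_eq U (line P0 W0)
        have h5 := Submodule.finrank_mono (sup_le hUX hLX)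
        obtain ⟨y, hy, hy0⟩ := exists_ne_zero_of_finrank (F := F)
          (W := U ⊓ line P0 W0) (by omega)
        refine ⟨Projectivization.mk F y hy0, ?_, (rep_mk_mem hy0).2 hy.1⟩
        rw [Finset.mem_union, Finset.mem_erase, Finset.mem_erase]
        right
        exact ⟨hPne y hy0 hy.1, mk_mem_pts hy0 hy.2⟩
      · refine ⟨Projectivization.mk F x hx0, ?_, (rep_mk_mem hx0).2 hx.1⟩
        rw [Finset.mem_union, Finset.mem_erase, Finset.mem_sdiff]
        left
        refine ⟨hPne x hx0 hx.1, mk_mem_pts hx0 ?_, ?_⟩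
        · rw [hKd]
          exact hx.2
        · rw [mem_pts, rep_mk_mem]
          exact hxh
  · refine (Finset.card_union_le _ _).trans ?_
    have hhK : pts h ⊆ pts K := by
      intro P hP
      rw [mem_pts] at hP ⊢
      rw [hhd] at hP
      rw [hKd]
      exact hP.1
    have h1 : P0 ∈ pts (line P0 W0) := mem_pts.2 (left_mem_line _ _)
    rw [Finset.card_erase_of_mem hP0K, Finset.card_erase_of_mem h1, Finset.card_sdiff_of_subset hhK,
      card_pts, card_pts, card_pts, hL]
    have h2 : finrank F K = 3 := by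
      rw [hKd]
      omega
    have h3 : finrank F h = 2 := by
      rw [hhd]
      omega
    rw [h2, h3, geo_two, show (3 : ℕ) = 2 + 1 by rfl, geo_succ, geo_two]
    have hq : 2 ≤ Nat.card F := Finite.one_lt_card
    have h4 : Nat.card F ^ 2 + Nat.card F - 1 + 1 = Nat.card F ^ 2 + Nat.card F := by omega
    have h5 : Nat.card F * (Nat.card F + 1) = Nat.card F ^ 2 + Nat.card F := by ring
    rw [h5]
    have h6 : 4 ≤ Nat.card F ^ 2 := by nlinarith
    omega

end Pool.Agent.Helper53.PB
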