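import Pool.Agent.Helper53.PB.WThree

/-!
# The symplectic space of dimension six over the field with three elements
-/

set_option autoImplicit false

open Module Classical
open scoped LinearAlgebra.Projectivization

namespace Pool.Agent.Helper53.PB

universe u v

variable {F : Type u} {V : Type v} [Field F] [AddCommGroup V] [Module F V]

/-- points perpendicular to `y` and not perpendicular to `z` -/
theorem card_perp_diff [Finite F] [Finite V] [FiniteDimensional F V] (φ : Form F V)
    (hφ : φ.kind = .symplectic) {d : ℕ} (hV : finrank F V = d + 2) (y z : ℙ F V) (hyz : y ≠ z) :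
    (Finset.univ.filter (fun R : ℙ F V => φ.f z.rep R.rep ≠ 0 ∧ φ.f y.rep R.rep = 0)).card =
      Nat.card F ^ d := by
  have h1 : Finset.univ.filter (fun R : ℙ F V => φ.f z.rep R.rep ≠ 0 ∧ φ.f y.rep R.rep = 0) =
      pts (LinearMap.ker (φ.f y.rep)) \
        pts (LinearMap.ker (φ.f y.rep) ⊓ LinearMap.ker (φ.f z.rep)) := by
    ext R
    simp only [Finset.mem_filter, Finset.mem_univ, true_and, Finset.mem_sdiff, mem_pts,
      Submodule.mem_inf, LinearMap.mem_ker, not_and]
    tauto
  rw [h1, Finset.card_sdiff_of_subset, card_pts, card_pts]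
  · have h2 := finrank_perp1 φ hφ y.rep_nonzero
    have h3 := finrank_perp_pair φ hφ hyz
    have h4 : finrank F (LinearMap.ker (φ.f y.rep)) = d + 1 := by omega
    have h5 : finrank F (LinearMap.ker (φ.f y.rep) ⊓ LinearMap.ker (φ.f z.rep) : Submodule F V) =
        d := by omega
    rw [h4, h5, geo_succ']
    omega
  · intro R hR
    rw [mem_pts] at hR ⊢
    exact hR.1

theorem card_nonperp [Finite F] [Finite V] [FiniteDimensional F V] (φ : Form F V)
    (hφ : φ.kind = .symplectic) {d : ℕ} (hV : finrank F V = d + 1) (z : ℙ F V) :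
    (Finset.univ.filter (fun R : ℙ F V => φ.f z.rep R.rep ≠ 0)).card = Nat.card F ^ d := by
  have h1 : Finset.univ.filter (fun R : ℙ F V => φ.f z.rep R.rep ≠ 0) =
      Finset.univ \ pts (LinearMap.ker (φ.f z.rep)) := by
    ext R
    simp [mem_pts]
  rw [h1, Finset.card_sdiff_of_subset (Finset.subset_univ _), card_points hV, card_pts]
  have h2 := finrank_perp1 φ hφ z.rep_nonzero
  have h4 : finrank F (LinearMap.ker (φ.f z.rep)) = d := by omega
  rw [h4, geo_succ']
  omega

/-- sum over the points not perpendicular to a point -/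
theorem sum_nonperp [Finite F] [Finite V] [FiniteDimensional F V] (φ : Form F V)
    (hφ : φ.kind = .symplectic) {d : ℕ} (hV : finrank F V = d + 2) (T : Finset (ℙ F V))
    {R : ℙ F V} (hR : R ∉ T) :
    ∑ X ∈ Finset.univ.filter (fun X : ℙ F V => φ.f R.rep X.rep ≠ 0), φ.toPolar.nn T X =
      T.card * Nat.card F ^ d := by
  unfold Polar.nn
  simp_rw [Finset.card_filter]
  rw [Finset.sum_comm]
  rw [Finset.sum_const_nat]
  intro y hy
  have hyR : y ≠ R := by
    rintro rfl
    exact hR hy
  rw [← card_perp_diff φ hφ hV y R hyR, Finset.card_filter, Finset.sum_filter]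
  apply Finset.sum_congr rfl
  intro X _
  change (if φ.f R.rep X.rep ≠ 0 then (if φ.f y.rep X.rep = 0 then 1 else 0) else 0) = _
  by_cases h1 : φ.f R.rep X.rep ≠ 0 <;> by_cases h2 : φ.f y.rep X.rep = 0 <;> simp [h1, h2]

/-- second moment -/
theorem sum_sq [Finite F] [Finite V] [FiniteDimensional F V] (φ : Form F V)
    (hφ : φ.kind = .symplectic) {d : ℕ} (hV : finrank F V = d + 2) (T : Finset (ℙ F V)) :
    ∑ R, φ.toPolar.nn T R ^ 2 =
      T.card * (geo (Nat.card F) (d + 1) + (T.card - 1) * geo (Nat.card F) d) := by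
  have h1 : ∀ R, φ.toPolar.nn T R ^ 2 =
      ∑ x ∈ T, ∑ y ∈ T, if (φ.f x.rep R.rep = 0 ∧ φ.f y.rep R.rep = 0) then 1 else 0 := by
    intro R
    unfold Polar.nn
    rw [pow_two, Finset.card_filter, Finset.sum_mul_sum]
    apply Finset.sum_congr rfl
    intro x _
    apply Finset.sum_congr rfl
    intro y _
    change (if φ.f x.rep R.rep = 0 then 1 else 0) * (if φ.f y.rep R.rep = 0 then 1 else 0) = _
    by_cases h1 : φ.f x.rep R.rep = 0 <;> by_cases h2 : φ.f y.rep R.rep = 0 <;> simp [h1, h2]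
  simp_rw [h1]
  rw [Finset.sum_comm]
  rw [Finset.sum_const_nat]
  intro x hx
  rw [Finset.sum_comm, ← Finset.add_sum_erase T _ hx]
  have h2 : ∀ y : ℙ F V, (∑ R : ℙ F V, if (φ.f x.rep R.rep = 0 ∧ φ.f y.rep R.rep = 0) then 1 else 0) =
      (pts (LinearMap.ker (φ.f x.rep) ⊓ LinearMap.ker (φ.f y.rep))).card := by
    intro y
    rw [← Finset.card_filter]
    congr 1
    ext R
    simp [mem_pts]
  rw [h2, inf_idem, card_pts]
  have h3 := finrank_perp1 φ hφ x.rep_nonzero
  have h4 : finrank F (LinearMap.ker (φ.f x.rep)) = d + 1 := by omega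
  rw [h4]
  congr 1
  rw [← Finset.card_erase_of_mem hx]
  apply Finset.sum_const_nat
  intro y hy
  rw [h2, card_pts]
  congr 1
  have h5 := finrank_perp_pair φ hφ (Finset.ne_of_mem_erase hy).symm
  omega

/-- the line inequality through a point of `T` -/
theorem line_ineq [Finite F] [Finite V] [FiniteDimensional F V] (φ : Form F V)
    (hφ : φ.kind = .symplectic) {d m c : ℕ} (hV : finrank F V = d + 2) {T : Finset (ℙ F V)}
    {z : ℙ F V} (hz : z ∈ T) (hres : ∀ R ∉ T, m ≤ φ.toPolar.nn T R)
    (hc : ∀ t, φ.toPolar.nn T z + Nat.card F * m ≤ T.card + Nat.card F * t → c ≤ t) :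
    (Nat.card F ^ (d + 1)) * c ≤ Nat.card F ^ d * (φ.toPolar.nn T z - 1) +
      Nat.card F * (T.card - φ.toPolar.nn T z) * c := by
  obtain ⟨G, hG⟩ : ∃ G, G = Finset.univ.filter (fun R : ℙ F V => φ.f z.rep R.rep ≠ 0) := ⟨_, rfl⟩
  obtain ⟨t, ht⟩ : ∃ t : ℙ F V → ℕ, t = fun R =>
    (T.filter (fun y => φ.f y.rep z.rep = 0 ∧ φ.f y.rep R.rep = 0)).card := ⟨_, rfl⟩
  obtain ⟨S, hS⟩ : ∃ S, S = T.filter (fun y => φ.f y.rep z.rep = 0) := ⟨_, rfl⟩
  have hScard : S.card = φ.toPolar.nn T z := by
    rw [hS]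
    rfl
  have hGcard : G.card = Nat.card F ^ (d + 1) := by
    rw [hG]
    exact card_nonperp φ hφ hV z
  have hfzz : φ.f z.rep z.rep = 0 := φ.toPolar.sing_self _ (symp_sing φ hφ _)
  have hzS : z ∈ S := by
    rw [hS, Finset.mem_filter]
    exact ⟨hz, hfzz⟩
  -- sum of t over G
  have hsum : ∑ R ∈ G, t R = Nat.card F ^ d * (φ.toPolar.nn T z - 1) := by
    have h1 : ∀ R, t R = ∑ y ∈ S, if φ.f y.rep R.rep = 0 then 1 else 0 := by
      intro R
      rw [ht, hS]
      simp only
      rw [← Finset.card_filter, Finset.filter_filter]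
    simp_rw [h1]
    rw [Finset.sum_comm, ← Finset.add_sum_erase S _ hzS]
    have h2 : ∑ R ∈ G, (if φ.f z.rep R.rep = 0 then 1 else 0) = 0 := by
      apply Finset.sum_eq_zero
      intro R hR
      rw [hG, Finset.mem_filter] at hR
      rw [if_neg hR.2]
    rw [h2, zero_add, ← hScard, ← Finset.card_erase_of_mem hzS, mul_comm]
    apply Finset.sum_const_nat
    intro y hy
    rw [← card_perp_diff φ hφ hV y z (Finset.ne_of_mem_erase hy), ← Finset.card_filter, hG,
      Finset.filter_filter]
  -- the bad points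
  obtain ⟨Bd, hBd⟩ : ∃ Bd, Bd = (T \ S).biUnion (fun y => (pts (line z y)).erase z) := ⟨_, rfl⟩
  have hBdcard : Bd.card ≤ Nat.card F * (T.card - φ.toPolar.nn T z) := by
    rw [hBd, ← hScard, ← Finset.card_sdiff_of_subset (by
      rw [hS]
      exact Finset.filter_subset _ _), mul_comm]
    apply Finset.card_biUnion_le_card_mul
    intro y hy
    have hyz : z ≠ y := by
      rintro rfl
      exact (Finset.mem_sdiff.1 hy).2 hzS
    rw [Finset.card_erase_of_mem (mem_pts.2 (left_mem_line _ _)), card_pts, finrank_line hyz,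
      geo_two]
    omega
  have hgood : ∀ R ∈ G \ Bd, c ≤ t R := by
    intro R hR
    rw [Finset.mem_sdiff] at hR
    obtain ⟨hRG, hRB⟩ := hR
    rw [hG, Finset.mem_filter] at hRG
    have hzR : z ≠ R := by
      rintro rfl
      exact hRG.2 hfzz
    apply hc
    have h1 := line_count φ.toPolar T hzR
    have h2 : (T.filter (fun y => line z R ≤ LinearMap.ker (φ.toPolar.f y.rep))).card = t R := by
      rw [ht]
      simp only
      congr 1
      apply Finset.filter_congr
      intro y _
      constructor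
      · intro h
        exact ⟨h (left_mem_line _ _), h (right_mem_line _ _)⟩
      · intro h
        exact line_le h.1 h.2
    rw [h2] at h1
    rw [← h1, ← Finset.add_sum_erase _ _ (mem_pts.2 (left_mem_line z R))]
    apply Nat.add_le_add_left
    have h3 : ((pts (line z R)).erase z).card = Nat.card F := by
      rw [Finset.card_erase_of_mem (mem_pts.2 (left_mem_line _ _)), card_pts, finrank_line hzR,
        geo_two]
      omega
    rw [← h3]
    apply Finset.card_nsmul_le_sum
    intro X hX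
    apply hres
    intro hXT
    rw [Finset.mem_erase, mem_pts] at hX
    apply hRB
    rw [hBd, Finset.mem_biUnion]
    have hl := line_eq hzR hX.2 hX.1
    refine ⟨X, ?_, ?_⟩
    · rw [Finset.mem_sdiff]
      refine ⟨hXT, ?_⟩
      rw [hS, Finset.mem_filter, not_and]
      intro _ h4
      apply hRG.2
      have h5 : line z X ≤ LinearMap.ker (φ.f z.rep) := line_le hfzz (φ.f_symm _ _ h4)
      rw [hl] at h5
      exact h5 (right_mem_line _ _)
    · rw [Finset.mem_erase, mem_pts, hl]
      exact ⟨hzR.symm, right_mem_line _ _⟩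
  have h1 : (G \ Bd).card * c ≤ ∑ R ∈ G, t R := by
    calc (G \ Bd).card * c = (G \ Bd).card • c := by rw [smul_eq_mul]
      _ ≤ ∑ R ∈ G \ Bd, t R := Finset.card_nsmul_le_sum _ _ _ hgood
      _ ≤ ∑ R ∈ G, t R := Finset.sum_le_sum_of_subset Finset.sdiff_subset
  have h2 : G.card ≤ (G \ Bd).card + Bd.card := by
    have := Finset.le_card_sdiff Bd G
    omega
  calc (Nat.card F ^ (d + 1)) * c = G.card * c := by rw [hGcard]
    _ ≤ ((G \ Bd).card + Bd.card) * c := Nat.mul_le_mul_right _ h2
    _ = (G \ Bd).card * c + Bd.card * c := by ring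
    _ ≤ _ := by
      rw [hsum] at h1
      exact Nat.add_le_add h1 (Nat.mul_le_mul_right _ hBdcard)

theorem w5_lower [Finite F] (hF : Nat.card F = 3) {V : Type v} [AddCommGroup V] [Module F V]
    [FiniteDimensional F V] (φ : Form F V) (hφ : φ.kind = .symplectic)
    (hV : finrank F V = 2 * 3) (T : Finset (ℙ F V)) (hT0 : φ.toPolar.Block T) : 33 ≤ T.card := by
  have : Finite V := Module.finite_of_finite F
  by_contra hlt
  push Not at hlt
  obtain ⟨S, hS, hmin⟩ := exists_min (P := φ.toPolar) ⟨T, hT0⟩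
  have hST := hmin T hT0
  have hres : ∀ R : ℙ F V, R ∉ S → 11 ≤ φ.toPolar.nn S R := by
    intro R hR
    exact symp_res (r := 2) (fun φ h1 h2 => w3_lower hF φ h1 h2) φ hφ hV hS hR
  have hcore := Polar.core (P := φ.toPolar) (le_refl 2) (symp_gen 3 φ hφ hV) hS hmin
    (fun R _ hR => hres R hR)
  rw [hF] at hcore
  norm_num at hcore
  have hcard : S.card = 32 := by omega
  have hg2 : geo 3 2 = 4 := by decide
  have hg4 : geo 3 4 = 40 := by decide
  have hg5 : geo 3 5 = 121 := by decide
  have hg6 : geo 3 6 = 364 := by decide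
  -- tangent bound
  have hle5 : ∀ z ∈ S, φ.toPolar.nn S z ≤ 5 := by
    intro z hz
    obtain ⟨U, hU, hzU, huniq⟩ := Polar.exists_tangent hS hmin hz
    have h1 := Polar.tangent_bound (m := 11) hS hU (symp_gen 3 φ hφ hV U hU) hz hzU huniq
    have h2 : 0 ≤ ∑ R ∈ (pts U).erase z, ((φ.toPolar.nn S R : ℤ) - (11 : ℕ)) := by
      apply Finset.sum_nonneg
      intro R hR
      rw [Finset.mem_erase, mem_pts] at hR
      have h3 := hres R (fun h => hR.1 (huniq R h hR.2))
      have : (11 : ℤ) ≤ φ.toPolar.nn S R := by exact_mod_cast h3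
      simpa using this
    rw [h1, hF, hg2, hcard] at h2
    norm_num at h2
    omega
  have h5 : ∀ z ∈ S, φ.toPolar.nn S z = 5 := by
    intro z hz
    have h1 := hle5 z hz
    have h2 := Polar.nn_self_pos hS hz
    have key := fun c hc => line_ineq (m := 11) (c := c) φ hφ (d := 4) hV hz hres hc
    obtain ⟨n, hn⟩ : ∃ n, n = φ.toPolar.nn S z := ⟨_, rfl⟩
    rw [← hn] at h1 h2 key ⊢
    rw [hF, hcard] at key
    interval_cases n
    · have := key 1 (by intro t ht; omega)
      norm_num at this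
    · have := key 1 (by intro t ht; omega)
      norm_num at this
    · have := key 2 (by intro t ht; omega)
      norm_num at this
    · have := key 2 (by intro t ht; omega)
      norm_num at this
    · rfl
  -- moments
  have hm1 := sum_nn φ hφ (d := 5) hV S
  have hm2 := sum_sq φ hφ (d := 4) hV S
  have hpt := card_points (F := F) (V := V) hV
  rw [hF, hcard, hg5] at hm1
  rw [hF, hcard, hg5, hg4] at hm2
  rw [hF, show 2 * 3 = 6 by rfl, hg6] at hpt
  have hs1 := Finset.sum_add_sum_compl S (fun R => φ.toPolar.nn S R)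
  have hs2 := Finset.sum_add_sum_compl S (fun R => φ.toPolar.nn S R ^ 2)
  have hS1 : ∑ R ∈ S, φ.toPolar.nn S R = 160 := by
    rw [Finset.sum_congr rfl h5, Finset.sum_const, hcard]
    rfl
  have hS2 : ∑ R ∈ S, φ.toPolar.nn S R ^ 2 = 800 := by
    rw [Finset.sum_congr rfl (fun R hR => by rw [h5 R hR]), Finset.sum_const, hcard]
    rfl
  have hScard : Sᶜ.card = 332 := by
    rw [Finset.card_compl, ← Finset.card_univ, hpt, hcard]
  have hup : ∀ R ∉ S, φ.toPolar.nn S R ≤ 18 := by
    intro R hR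
    have h1 := sum_nonperp φ hφ (d := 4) hV S hR
    obtain ⟨G, hG⟩ : ∃ G, G = Finset.univ.filter (fun X : ℙ F V => φ.f R.rep X.rep ≠ 0) :=
      ⟨_, rfl⟩
    have hGcard : G.card = 243 := by
      rw [hG, card_nonperp φ hφ (d := 5) hV R, hF]
      norm_num
    rw [← hG, hF, hcard] at h1
    have h2 : (G ∩ S).card + φ.toPolar.nn S R = 32 := by
      rw [← hcard]
      have h3 : G ∩ S = S.filter (fun y => ¬ φ.toPolar.f y.rep R.rep = 0) := by
        ext X
        rw [hG, Finset.mem_inter, Finset.mem_filter, Finset.mem_filter]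
        constructor
        · rintro ⟨⟨_, h4⟩, h5⟩
          exact ⟨h5, fun h6 => h4 (φ.f_symm _ _ h6)⟩
        · rintro ⟨h4, h5⟩
          exact ⟨⟨Finset.mem_univ _, fun h6 => h5 (φ.f_symm _ _ h6)⟩, h4⟩
      rw [h3, add_comm]
      exact Finset.card_filter_add_card_filter_not _
    have h3 : ∑ X ∈ G, φ.toPolar.nn S X =
        ∑ X ∈ G ∩ S, φ.toPolar.nn S X + ∑ X ∈ G \ S, φ.toPolar.nn S X := by
      rw [← Finset.sum_inter_add_sum_sdiff G S]
    have h4 : ∑ X ∈ G ∩ S, φ.toPolar.nn S X = (G ∩ S).card * 5 := by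
      apply Finset.sum_const_nat
      intro X hX
      exact h5 X (Finset.mem_inter.1 hX).2
    have h6 : (G \ S).card * 11 ≤ ∑ X ∈ G \ S, φ.toPolar.nn S X := by
      rw [← smul_eq_mul]
      apply Finset.card_nsmul_le_sum
      intro X hX
      exact hres X (Finset.mem_sdiff.1 hX).2
    have h7 : (G ∩ S).card + (G \ S).card = G.card := Finset.card_inter_add_card_sdiff _ _
    norm_num at h1
    omega
  -- the final contradiction
  have hfin : ∑ R ∈ Sᶜ, φ.toPolar.nn S R ^ 2 + 332 * 198 ≤ ∑ R ∈ Sᶜ, 29 * φ.toPolar.nn S R := by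
    have h1 : 332 * 198 = ∑ R ∈ Sᶜ, 198 := by
      rw [Finset.sum_const, hScard]
      rfl
    rw [h1, ← Finset.sum_add_distrib]
    apply Finset.sum_le_sum
    intro R hR
    have h2 := hres R (Finset.mem_compl.1 hR)
    have h3 := hup R (Finset.mem_compl.1 hR)
    obtain ⟨n, hn⟩ : ∃ n, n = φ.toPolar.nn S R := ⟨_, rfl⟩
    rw [← hn] at h2 h3 ⊢
    interval_cases n <;> norm_num
  rw [← Finset.mul_sum] at hfin
  omega

end Pool.Agent.Helper53.PB
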