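import Pool.Agent.Helper53.PB.SympTwo

/-!
# The symplectic space of dimension four over the field with three elements
-/

set_option autoImplicit false

open Module Classical
open scoped LinearAlgebra.Projectivization

namespace Pool.Agent.Helper53.PB

universe u v

variable {F : Type u} {V : Type v} [Field F] [AddCommGroup V] [Module F V]

theorem pts_top [Finite V] : pts (⊤ : Submodule F V) = Finset.univ := by
  ext P
  rw [mem_pts]
  simp

theorem sum_nn [Finite F] [Finite V] [FiniteDimensional F V] (φ : Form F V)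
    (hφ : φ.kind = .symplectic) {d : ℕ} (hV : finrank F V = d + 1) (T : Finset (ℙ F V)) :
    ∑ R, φ.toPolar.nn T R = T.card * geo (Nat.card F) d := by
  rw [← pts_top, double_count]
  rw [Finset.sum_const_nat]
  intro y _
  rw [top_inf_eq, card_pts]
  congr 1
  have := finrank_perp1 φ hφ y.rep_nonzero
  change finrank F (LinearMap.ker (φ.f y.rep)) = d
  omega

theorem card_points [Finite F] [Finite V] {d : ℕ} (hV : finrank F V = d) :
    (Finset.univ : Finset (ℙ F V)).card = geo (Nat.card F) d := by
  rw [← pts_top, card_pts, finrank_top, hV]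

theorem char_three [Finite F] (hF : Nat.card F = 3) : (3 : F) = 0 := by
  have : Fintype F := Fintype.ofFinite F
  rw [Nat.card_eq_fintype_card] at hF
  have := Nat.cast_card_eq_zero F
  rw [hF] at this
  exact_mod_cast this

theorem sq_three [Finite F] (hF : Nat.card F = 3) {a : F} (ha : a ≠ 0) : a ^ 2 = 1 := by
  have : Fintype F := Fintype.ofFinite F
  rw [Nat.card_eq_fintype_card] at hF
  have := FiniteField.pow_card_sub_one_eq_one a ha
  rw [hF] at this
  exact this

/-- three collinear points of `T` on a line meeting `T` in few points -/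
theorem no_three {T : Finset (ℙ F V)}
    (h3 : ∀ A ∈ T, ∀ B ∈ T, A ≠ B → ∀ C ∈ T, C.rep ∈ line A B → C = A ∨ C = B)
    {x y : V} (hind : ∀ a b : F, a • x + b • y = 0 → a = 0 ∧ b = 0) (hx : x ≠ 0) (hy : y ≠ 0)
    (hxT : Projectivization.mk F x hx ∈ T) (hyT : Projectivization.mk F y hy ∈ T) {z : V}
    (hz : z ≠ 0) (hzT : Projectivization.mk F z hz ∈ T) {a b : F} (ha : a ≠ 0) (hb : b ≠ 0)
    (he : z = a • x + b • y) : False := by
  have hne : Projectivization.mk F x hx ≠ Projectivization.mk F y hy := by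
    intro h
    rw [Projectivization.mk_eq_mk_iff'] at h
    obtain ⟨c, hc⟩ := h
    have := hind 1 (-c) (by rw [neg_smul, hc]; simp)
    exact one_ne_zero this.1
  have hx1 : x ∈ line (Projectivization.mk F x hx) (Projectivization.mk F y hy) := by
    rw [← rep_mk_mem hx]
    exact left_mem_line _ _
  have hy1 : y ∈ line (Projectivization.mk F x hx) (Projectivization.mk F y hy) := by
    rw [← rep_mk_mem hy]
    exact right_mem_line _ _
  rcases h3 _ hxT _ hyT hne _ hzT ((rep_mk_mem hz).2 (by
    rw [he]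
    exact Submodule.add_mem _ (Submodule.smul_mem _ _ hx1) (Submodule.smul_mem _ _ hy1))) with h | h
  · rw [Projectivization.mk_eq_mk_iff'] at h
    obtain ⟨c, hc⟩ := h
    have := hind (a - c) b (by rw [sub_smul, hc, he]; abel)
    exact hb this.2
  · rw [Projectivization.mk_eq_mk_iff'] at h
    obtain ⟨c, hc⟩ := h
    have := hind a (b - c) (by rw [sub_smul, hc, he]; abel)
    exact ha this.1

theorem w3_lower [Finite F] (hF : Nat.card F = 3) {V : Type v} [AddCommGroup V] [Module F V]
    [FiniteDimensional F V] (φ : Form F V) (hφ : φ.kind = .symplectic)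
    (hV : finrank F V = 2 * 2) (T : Finset (ℙ F V)) (hT0 : φ.toPolar.Block T) : 11 ≤ T.card := by
  have : Finite V := Module.finite_of_finite F
  by_contra hlt
  push Not at hlt
  obtain ⟨S, hS, hmin⟩ := exists_min (P := φ.toPolar) ⟨T, hT0⟩
  have hST := hmin T hT0
  have hres : ∀ R : ℙ F V, R ∉ S → 4 ≤ φ.toPolar.nn S R := by
    intro R hR
    have := symp_res (r := 1) (fun φ h1 h2 => (symp_one _ φ h1 h2).2) φ hφ hV hS hR
    rwa [hF] at this
  have hwb := Polar.weak_bound (P := φ.toPolar) (le_refl 1) (symp_gen 2 φ hφ hV) hS hmin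
    (fun R _ hR => hres R hR)
  rw [hF] at hwb
  have hcard : S.card = 10 := by omega
  have hone := hwb.2 (by omega)
  -- all other values are four
  have htot := sum_nn φ hφ (d := 3) hV S
  have hpt := card_points (F := F) (V := V) hV
  have hg3 : geo 3 3 = 13 := by decide
  have hg4 : geo 3 (2 * 2) = 40 := by decide
  rw [hF, hcard, hg3] at htot
  rw [hF, hg4] at hpt
  have hsplit := Finset.sum_add_sum_compl S (fun R => φ.toPolar.nn S R)
  have hS1 : ∑ R ∈ S, φ.toPolar.nn S R = 10 := by
    rw [Finset.sum_congr rfl hone, Finset.sum_const, hcard]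
    rfl
  have hScard : Sᶜ.card = 30 := by
    rw [Finset.card_compl, ← Finset.card_univ, hpt, hcard]
  have hfour : ∀ R ∉ S, φ.toPolar.nn S R = 4 := by
    have h1 : ∑ R ∈ Sᶜ, φ.toPolar.nn S R = ∑ R ∈ Sᶜ, 4 := by
      rw [Finset.sum_const, hScard]
      simp only [smul_eq_mul]
      omega
    have h2 := (Finset.sum_eq_sum_iff_of_le (s := Sᶜ) (f := fun _ => 4)
      (g := fun R => φ.toPolar.nn S R) (fun R hR => hres R (Finset.mem_compl.1 hR))).1 h1.symm
    intro R hR
    exact (h2 R (Finset.mem_compl.2 hR)).symm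
  -- lines
  have h3 : ∀ A ∈ S, ∀ B ∈ S, A ≠ B → ∀ C ∈ S, C.rep ∈ line A B → C = A ∨ C = B := by
    intro A hA B hB hAB C hC hCl
    by_contra hne
    push Not at hne
    have h1 := line_count φ.toPolar S hAB
    have h4 : ∀ R : ℙ F V, φ.toPolar.nn S R ≤ 4 := by
      intro R
      by_cases hR : R ∈ S
      · rw [hone R hR]
        omega
      · rw [hfour R hR]
    have hlc : (pts (line A B)).card = 4 := by
      rw [card_pts, finrank_line hAB, hF]
      decide
    have hsub : ({A, B, C} : Finset (ℙ F V)) ⊆ pts (line A B) := by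
      intro R hR
      simp only [Finset.mem_insert, Finset.mem_singleton] at hR
      rw [mem_pts]
      rcases hR with rfl | rfl | rfl
      · exact left_mem_line _ _
      · exact right_mem_line _ _
      · exact hCl
    have hc3 : ({A, B, C} : Finset (ℙ F V)).card = 3 := by
      rw [Finset.card_insert_of_notMem, Finset.card_pair]
      · exact Ne.symm hne.2
      · simp only [Finset.mem_insert, Finset.mem_singleton, not_or]
        exact ⟨hAB, Ne.symm hne.1⟩
    rw [← Finset.sum_sdiff hsub] at h1
    have h5 : ∑ R ∈ ({A, B, C} : Finset (ℙ F V)), φ.toPolar.nn S R = 3 := by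
      have h6 : ∀ R ∈ ({A, B, C} : Finset (ℙ F V)), φ.toPolar.nn S R = 1 := by
        intro R hR
        apply hone
        simp only [Finset.mem_insert, Finset.mem_singleton] at hR
        rcases hR with rfl | rfl | rfl <;> assumption
      rw [Finset.sum_congr rfl h6, Finset.sum_const, hc3]
      rfl
    have h7 : ∑ R ∈ pts (line A B) \ {A, B, C}, φ.toPolar.nn S R ≤ 4 := by
      refine (Finset.sum_le_card_nsmul _ _ 4 (fun R _ => h4 R)).trans ?_
      rw [Finset.card_sdiff_of_subset hsub, hlc, hc3]
      simp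
    rw [h5, hcard] at h1
    omega
  -- a point outside
  obtain ⟨R, hR⟩ : ∃ R, R ∉ S := by
    by_contra hall
    push Not at hall
    have : Sᶜ = ∅ := by
      ext R
      simp [hall R]
    rw [this] at hScard
    simp at hScard
  obtain ⟨p, hp⟩ : ∃ p, p = R.rep := ⟨_, rfl⟩
  have hp0 : p ≠ 0 := by
    rw [hp]
    exact R.rep_nonzero
  have hs := symp_sing φ hφ p
  obtain ⟨w, hw⟩ := exists_pair φ hs hp0
  have hh := finrank_perp2 φ hs hw
  have hgen : ∀ x ∈ perp2 φ p w, x ≠ 0 → ∃ (c : F) (h : x + c • p ≠ 0),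
      Projectivization.mk F (x + c • p) h ∈ S := by
    intro x hx hx0
    have hfx : φ.f p x = 0 := hx.1
    have hfp : φ.f x p = 0 := φ.f_symm _ _ hfx
    have hind : ∀ a b : F, a • p + b • x = 0 → a = 0 ∧ b = 0 := by
      intro a b hab
      have h1 := congrArg (φ.f w) hab
      rw [map_add, map_smul, map_smul, hx.2, smul_zero, add_zero, map_zero, smul_eq_mul] at h1
      have h2 : a = 0 := by
        rcases mul_eq_zero.1 h1 with h | h
        · exact h
        · exact absurd h hw
      rw [h2, zero_smul, zero_add] at hab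
      rcases smul_eq_zero.1 hab with h | h
      · exact ⟨h2, h⟩
      · exact absurd h hx0
    have hts : φ.toPolar.TS (Submodule.span F {p} ⊔ Submodule.span F {x}) := by
      apply Polar.TS.sup_span
      · constructor
        · intro y _
          exact symp_sing φ hφ y
        · intro y hy z hz
          obtain ⟨a, rfl⟩ := Submodule.mem_span_singleton.1 hy
          obtain ⟨b, rfl⟩ := Submodule.mem_span_singleton.1 hz
          apply Polar.smul_left
          rw [map_smul, φ.toPolar.sing_self _ hs, smul_zero]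
      · exact symp_sing φ hφ x
      · intro y hy
        obtain ⟨a, rfl⟩ := Submodule.mem_span_singleton.1 hy
        exact Polar.smul_left _ hfx
    have hfin : finrank F (Submodule.span F {p} ⊔ Submodule.span F {x} : Submodule F V) = 2 := by
      have h1 : Submodule.span F {p} ⊓ Submodule.span F {x} = ⊥ := by
        rw [eq_bot_iff]
        rintro y ⟨hy1, hy2⟩
        obtain ⟨a, ha⟩ := Submodule.mem_span_singleton.1 hy1
        obtain ⟨b, hb⟩ := Submodule.mem_span_singleton.1 hy2
        have := hind a (-b) (by rw [ha, neg_smul, hb]; simp)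
        rw [Submodule.mem_bot, ← ha, this.1, zero_smul]
      have h2 := Submodule.finrank_sup_add_finrank_inf_eq (Submodule.span F {p})
        (Submodule.span F {x})
      rw [h1, finrank_bot, finrank_span_singleton hp0, finrank_span_singleton hx0] at h2
      omega
    obtain ⟨y, hyS, hyU⟩ := hS.2 _ (Polar.gen_of_finrank (symp_gen 2 φ hφ hV) hts hfin)
    obtain ⟨y1, hy1, y2, hy2, hy⟩ := Submodule.mem_sup.1 hyU
    obtain ⟨a, rfl⟩ := Submodule.mem_span_singleton.1 hy1
    obtain ⟨b, rfl⟩ := Submodule.mem_span_singleton.1 hy2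
    have hb : b ≠ 0 := by
      rintro rfl
      rw [zero_smul, add_zero] at hy
      apply hR
      have : y = R := by
        apply eq_of_rep_mem_span
        rw [← hy, ← hp]
        exact Submodule.smul_mem _ _ (Submodule.mem_span_singleton_self _)
      rwa [← this]
    have hyx : x + (b⁻¹ * a) • p = b⁻¹ • y.rep := by
      rw [← hy, smul_add, smul_smul, smul_smul, inv_mul_cancel₀ hb, one_smul, add_comm]
    have hne : x + (b⁻¹ * a) • p ≠ 0 := by
      rw [hyx]
      exact smul_ne_zero (inv_ne_zero hb) y.rep_nonzero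
    refine ⟨b⁻¹ * a, hne, ?_⟩
    have : Projectivization.mk F (x + (b⁻¹ * a) • p) hne = y := by
      rw [← y.mk_rep, Projectivization.mk_eq_mk_iff']
      exact ⟨b⁻¹, hyx.symm⟩
    rw [this]
    exact hyS
  -- a basis of the residue
  have hfr : finrank F (perp2 φ p w) = 2 := by omega
  obtain ⟨b⟩ : Nonempty (Basis (Fin 2) F (perp2 φ p w)) := ⟨finBasisOfFinrankEq F _ hfr⟩
  obtain ⟨b1, hb1⟩ : ∃ b1 : V, b1 = (b 0 : V) := ⟨_, rfl⟩
  obtain ⟨b2, hb2⟩ : ∃ b2 : V, b2 = (b 1 : V) := ⟨_, rfl⟩
  have hb1m : b1 ∈ perp2 φ p w := by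
    rw [hb1]
    exact (b 0).2
  have hb2m : b2 ∈ perp2 φ p w := by
    rw [hb2]
    exact (b 1).2
  have hbind : ∀ x y : F, x • b1 + y • b2 = 0 → x = 0 ∧ y = 0 := by
    intro x y hxy
    have h1 := (Fintype.linearIndependent_iff.1 b.linearIndependent) ![x, y] (by
      rw [Fin.sum_univ_two]
      apply Subtype.ext
      change x • (b 0 : V) + y • (b 1 : V) = 0
      rw [← hb1, ← hb2, hxy])
    exact ⟨h1 0, h1 1⟩
  -- independence of `p, b1, b2`
  have hind3 : ∀ a x y : F, a • p + x • b1 + y • b2 = 0 → a = 0 ∧ x = 0 ∧ y = 0 := by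
    intro a x y h
    have h1 := congrArg (φ.f w) h
    rw [map_add, map_add, map_smul, map_smul, map_smul, hb1m.2, hb2m.2, smul_zero, smul_zero,
      add_zero, add_zero, map_zero, smul_eq_mul] at h1
    have h2 : a = 0 := by
      rcases mul_eq_zero.1 h1 with h | h
      · exact h
      · exact absurd h hw
    rw [h2, zero_smul, zero_add] at h
    exact ⟨h2, hbind x y h⟩
  have hadd : b1 + b2 ≠ 0 := by
    intro h
    have := hbind 1 1 (by rw [one_smul, one_smul, h])
    exact one_ne_zero this.1
  have hsub : b1 - b2 ≠ 0 := by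
    intro h
    have := hbind 1 (-1) (by rw [one_smul, neg_smul, one_smul, ← sub_eq_add_neg, h])
    exact one_ne_zero this.1
  have hb10 : b1 ≠ 0 := by
    rintro h
    have := hbind 1 0 (by rw [h]; simp)
    exact one_ne_zero this.1
  have hb20 : b2 ≠ 0 := by
    rintro h
    have := hbind 0 1 (by rw [h]; simp)
    exact one_ne_zero this.2
  obtain ⟨c1, h1, k1⟩ := hgen b1 hb1m hb10
  obtain ⟨c2, h2, k2⟩ := hgen b2 hb2m hb20
  obtain ⟨c3, h3', k3⟩ := hgen (b1 + b2) (Submodule.add_mem _ hb1m hb2m) hadd
  obtain ⟨c4, h4, k4⟩ := hgen (b1 - b2) (Submodule.sub_mem _ hb1m hb2m) hsub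
  have htwo : (2 : F) ≠ 0 := by
    intro h
    have h3 := char_three (F := F) hF
    have : (1 : F) = 0 := by linear_combination h3 - h
    exact one_ne_zero this
  -- the four inequalities
  have e1 : c3 - c1 - c2 ≠ 0 := by
    intro h
    refine no_three h3 (x := b1 + c1 • p) (y := b2 + c2 • p) ?_ h1 h2 k1 k2 h3' k3
      (a := 1) (b := 1) one_ne_zero one_ne_zero ?_
    · intro a b hab
      have := hind3 (a * c1 + b * c2) a b (by rw [← hab]; module)
      exact this.2
    · have : c3 = c1 + c2 := by linear_combination h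
      rw [this]
      module
  have e2 : c4 - c1 + c2 ≠ 0 := by
    intro h
    refine no_three h3 (x := b1 + c1 • p) (y := b2 + c2 • p) ?_ h1 h2 k1 k2 h4 k4
      (a := 1) (b := -1) one_ne_zero (neg_ne_zero.2 one_ne_zero) ?_
    · intro a b hab
      have := hind3 (a * c1 + b * c2) a b (by rw [← hab]; module)
      exact this.2
    · have : c4 = c1 - c2 := by linear_combination h
      rw [this]
      module
  have hind34 : ∀ a b : F, a • (b1 + b2 + c3 • p) + b • (b1 - b2 + c4 • p) = 0 →
      a = 0 ∧ b = 0 := by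
    intro a b hab
    have := hind3 (a * c3 + b * c4) (a + b) (a - b) (by rw [← hab]; module)
    constructor
    · have h5 : 2 * a = 0 := by linear_combination this.2.1 + this.2.2
      rcases mul_eq_zero.1 h5 with h | h
      · exact absurd h htwo
      · exact h
    · have h5 : 2 * b = 0 := by linear_combination this.2.1 - this.2.2
      rcases mul_eq_zero.1 h5 with h | h
      · exact absurd h htwo
      · exact h
  have e3 : (c3 - c1 - c2) + (c4 - c1 + c2) ≠ 0 := by
    intro h
    refine no_three h3 (x := b1 + b2 + c3 • p) (y := b1 - b2 + c4 • p) hind34 h3' h4 k3 k4 h1 k1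
      (a := 2⁻¹) (b := 2⁻¹) (inv_ne_zero htwo) (inv_ne_zero htwo) ?_
    have h5 : c1 = 2⁻¹ * c3 + 2⁻¹ * c4 := by
      field_simp
      linear_combination -h
    rw [h5]
    have h6 : (2⁻¹ : F) + 2⁻¹ = 1 := by
      field_simp
      norm_num
    have h7 : b1 = (2⁻¹ : F) • b1 + (2⁻¹ : F) • b1 := by rw [← add_smul, h6, one_smul]
    nth_rewrite 1 [h7]
    module
  have e4 : (c3 - c1 - c2) - (c4 - c1 + c2) ≠ 0 := by
    intro h
    refine no_three h3 (x := b1 + b2 + c3 • p) (y := b1 - b2 + c4 • p) hind34 h3' h4 k3 k4 h2 k2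
      (a := 2⁻¹) (b := -2⁻¹) (inv_ne_zero htwo) (neg_ne_zero.2 (inv_ne_zero htwo)) ?_
    have h5 : c2 = 2⁻¹ * c3 - 2⁻¹ * c4 := by
      field_simp
      linear_combination -h
    rw [h5]
    have h6 : (2⁻¹ : F) + 2⁻¹ = 1 := by
      field_simp
      norm_num
    have h7 : b2 = (2⁻¹ : F) • b2 + (2⁻¹ : F) • b2 := by rw [← add_smul, h6, one_smul]
    nth_rewrite 1 [h7]
    module
  have f1 := sq_three hF e1
  have f2 := sq_three hF e2
  have f3 : ((c3 - c1 - c2) + (c4 - c1 + c2)) * ((c3 - c1 - c2) - (c4 - c1 + c2)) = 0 := by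
    linear_combination f1 - f2
  rcases mul_eq_zero.1 f3 with h | h
  · exact e3 h
  · exact e4 h

end Pool.Agent.Helper53.PB
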