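import Pool.Agent.Helper53.PB.WeightTwo

/-!
# Total weight and a large set of pairwise non-orthogonal points
-/

set_option autoImplicit false

open Module Classical
open scoped LinearAlgebra.Projectivization

namespace Pool.Agent.Helper53.PB

universe u v

variable {F : Type u} {V : Type v} [Field F] [AddCommGroup V] [Module F V]
variable {P : Polar F V} {T : Finset (ℙ F V)} {ι : Type} [Fintype ι] {k j : ℕ}

theorem mem_line_comm [FiniteDimensional F V] {z X Y : ℙ F V} (hX : X ≠ z) (hY : Y ≠ z) :
    Y.rep ∈ line z X ↔ X.rep ∈ line z Y := by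
  constructor
  · intro h
    rw [line_eq (Ne.symm hX) h hY]
    exact right_mem_line _ _
  · intro h
    rw [line_eq (Ne.symm hY) h hX]
    exact right_mem_line _ _

/-- lines through `z` in `U` -/
theorem card_lines [Finite F] [Finite V] [FiniteDimensional F V] {U : Submodule F V}
    {z Y : ℙ F V} (hz : z.rep ∈ U) (hY : Y.rep ∈ U) (hYz : Y ≠ z) :
    (((pts U).erase z).filter (fun X => Y.rep ∈ line z X)).card = Nat.card F := by
  have h1 : ((pts U).erase z).filter (fun X => Y.rep ∈ line z X) = (pts (line z Y)).erase z := by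
    ext X
    rw [Finset.mem_filter, Finset.mem_erase, Finset.mem_erase, mem_pts, mem_pts]
    constructor
    · rintro ⟨⟨h2, h3⟩, h4⟩
      exact ⟨h2, (mem_line_comm h2 hYz).1 h4⟩
    · rintro ⟨h2, h3⟩
      exact ⟨⟨h2, line_le hz hY h3⟩, (mem_line_comm h2 hYz).2 h3⟩
  rw [h1, Finset.card_erase_of_mem (mem_pts.2 (left_mem_line _ _)), card_pts,
    finrank_line (Ne.symm hYz), geo_two]
  omega

/-- the weight of a generator -/
theorem gen_weight [Finite F] [Finite V] [FiniteDimensional F V] (S : Setup P T ι k j)
    (hj : j * (Nat.card F + 1) < Fintype.card ι * Nat.card F ^ k) {U : Submodule F V}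
    (hU : P.Gen U) : ∑ X ∈ pts U, eps P T X + 1 = tt T U := by
  obtain ⟨z, hz, hzU⟩ := S.block.2 U hU
  have hq : 0 < Nat.card F := Nat.card_pos
  -- double count of the weights
  have h1 : ∑ X ∈ (pts U).erase z, ∑ Y ∈ pts (line z X), eps P T Y =
      Nat.card F * ∑ Y ∈ pts U, eps P T Y := by
    have h2 : ∀ X ∈ (pts U).erase z, ∑ Y ∈ pts (line z X), eps P T Y =
        ∑ Y ∈ (pts U).erase z, if Y.rep ∈ line z X then eps P T Y else 0 := by
      intro X hX
      rw [Finset.mem_erase, mem_pts] at hX
      rw [← Finset.sum_filter]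
      have h3 : ((pts U).erase z).filter (fun Y => Y.rep ∈ line z X) =
          (pts (line z X)).erase z := by
        ext Y
        rw [Finset.mem_filter, Finset.mem_erase, Finset.mem_erase, mem_pts, mem_pts]
        constructor
        · rintro ⟨⟨h2, h3⟩, h4⟩
          exact ⟨h2, h4⟩
        · rintro ⟨h2, h3⟩
          exact ⟨⟨h2, line_le hzU hX.2 h3⟩, h3⟩
      rw [h3, ← Finset.add_sum_erase _ _ (mem_pts.2 (left_mem_line z X)), eps_mem hz, zero_add]
    rw [Finset.sum_congr rfl h2, Finset.sum_comm, ← Finset.add_sum_erase _ _ (mem_pts.2 hzU),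
      eps_mem hz, zero_add, Finset.mul_sum]
    apply Finset.sum_congr rfl
    intro Y hY
    rw [Finset.mem_erase, mem_pts] at hY
    rw [← Finset.sum_filter, Finset.sum_const, card_lines hzU hY.2 hY.1, smul_eq_mul]
  have h4 : ∑ X ∈ (pts U).erase z, tt T (line z X) =
      ((pts U).erase z).card + Nat.card F * (tt T U - 1) := by
    unfold tt
    simp_rw [Finset.card_filter]
    rw [Finset.sum_comm]
    simp_rw [← Finset.card_filter]
    have h5 : ∀ y ∈ T, (((pts U).erase z).filter (fun X => y.rep ∈ line z X)).card =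
        (if y = z then ((pts U).erase z).card else 0) +
          if (y.rep ∈ U ∧ y ≠ z) then Nat.card F else 0 := by
      intro y hy
      by_cases hyz : y = z
      · subst hyz
        rw [if_pos rfl, if_neg (fun h => h.2 rfl), add_zero]
        congr 1
        apply Finset.filter_true_of_mem
        intro X _
        exact left_mem_line _ _
      · rw [if_neg hyz, zero_add]
        by_cases hyU : y.rep ∈ U
        · rw [if_pos ⟨hyU, hyz⟩, card_lines hzU hyU hyz]
        · rw [if_neg (fun h => hyU h.1), Finset.card_eq_zero, Finset.filter_eq_empty_iff]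
          intro X hX h6
          rw [Finset.mem_erase, mem_pts] at hX
          exact hyU (line_le hzU hX.2 h6)
    rw [Finset.sum_congr rfl h5, Finset.sum_add_distrib, Finset.sum_ite_eq', if_pos hz,
      ← Finset.sum_filter, Finset.sum_const, smul_eq_mul, mul_comm]
    congr 2
    rw [← Finset.card_erase_of_mem (Finset.mem_filter.2 ⟨hz, hzU⟩)]
    congr 1
    ext y
    simp only [Finset.mem_filter, Finset.mem_erase]
    tauto
  have h7 : ∑ X ∈ (pts U).erase z, ∑ Y ∈ pts (line z X), eps P T Y + ((pts U).erase z).card =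
      ∑ X ∈ (pts U).erase z, tt T (line z X) := by
    rw [Finset.card_eq_sum_ones, ← Finset.sum_add_distrib]
    apply Finset.sum_congr rfl
    intro X hX
    rw [Finset.mem_erase, mem_pts] at hX
    exact line_weight S hj (Ne.symm hX.1) (hU.1.mono (line_le hzU hX.2)) hz (left_mem_line _ _)
  rw [h1, h4] at h7
  have h8 : Nat.card F * ∑ Y ∈ pts U, eps P T Y = Nat.card F * (tt T U - 1) := by omega
  have h9 := Nat.eq_of_mul_eq_mul_left hq h8
  have h10 := tt_pos S.block hU
  omega

/-- the total weight is `j` -/
theorem total_weight [Finite F] [Finite V] [FiniteDimensional F V] (S : Setup P T ι k j)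
    (hj : j * (Nat.card F + 1) < Fintype.card ι * Nat.card F ^ k) :
    ∑ X, eps P T X = j := by
  obtain ⟨z, hz⟩ : T.Nonempty := by
    rw [← Finset.card_pos, S.card]
    omega
  obtain ⟨U, hU, hzU, huniq⟩ := S.tangent z hz
  obtain ⟨N⟩ := S.nbs U hU
  have hfin := S.gen U hU
  have htU := tt_one hz hzU huniq
  have hA := sumA N (n := k + 1) hfin S.block.1
  have h1 : ∑ p, ∑ X ∈ pts (N.nb p), eps P T X = ∑ X, eps P T X := by
    have h2 : ∀ p, ∑ X ∈ pts (N.nb p), eps P T X =
        ∑ X, if X.rep ∈ N.nb p then eps P T X else 0 := by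
      intro p
      rw [← Finset.sum_filter]
      rfl
    simp_rw [h2]
    rw [Finset.sum_comm]
    apply Finset.sum_congr rfl
    intro X _
    rw [← Finset.sum_filter, Finset.sum_const, smul_eq_mul]
    by_cases hX : P.sing X.rep ∧ X ∉ T
    · by_cases hXU : X.rep ∈ U
      · have h3 := tmin_le (T := T) hU hXU
        rw [htU] at h3
        rw [eps_not hX.1 hX.2]
        have h4 : tmin P T X - 1 = 0 := by omega
        rw [h4, mul_zero]
      · obtain ⟨p, hp, hpu⟩ := N.out X.rep hX.1 hXU
        have h5 : Finset.univ.filter (fun p => X.rep ∈ N.nb p) = {p} := by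
          ext p'
          rw [Finset.mem_filter, Finset.mem_singleton]
          constructor
          · rintro ⟨_, h⟩
            exact hpu p' h
          · rintro rfl
            exact ⟨Finset.mem_univ _, hp⟩
        rw [h5, Finset.card_singleton, one_mul]
    · have h4 : eps P T X = 0 := by
        unfold eps
        rw [if_neg hX]
      rw [h4, mul_zero]
  have h2 : ∑ p, ∑ X ∈ pts (N.nb p), eps P T X + (Finset.univ : Finset (ι × ℙ F (Dual F U))).card =
      ∑ p, tt T (N.nb p) := by
    rw [Finset.card_eq_sum_ones, ← Finset.sum_add_distrib]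
    apply Finset.sum_congr rfl
    intro p _
    exact gen_weight S hj (N.gen p)
  have h4 : (Finset.univ : Finset (ι × ℙ F (Dual F U))).card =
      Fintype.card ι * geo (Nat.card F) (k + 2) := by
    rw [Finset.card_univ, Fintype.card_prod, ← Finset.card_univ (α := ℙ F (Dual F U)), ← hfin,
      ← pts_univ, card_pts, finrank_top, Subspace.dual_finrank_eq]
  rw [h1, h4, geo_succ'] at h2
  have hcard := S.card
  rw [htU] at hA
  have h5 : Fintype.card ι * (geo (Nat.card F) (k + 1) + Nat.card F ^ (k + 1)) =
    Fintype.card ι * geo (Nat.card F) (k + 1) + Fintype.card ι * Nat.card F ^ (k + 1) := by ring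
  omega

end Pool.Agent.Helper53.PB
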