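import Pool.Agent.Helper53.PB.Weight

/-!
# The structure of small sets meeting all generators
-/

set_option autoImplicit false

open Module Classical
open scoped LinearAlgebra.Projectivization

namespace Pool.Agent.Helper53.PB

universe u v

variable {F : Type u} {V : Type v} [Field F] [AddCommGroup V] [Module F V]
variable {P : Polar F V} {T : Finset (ℙ F V)} {ι : Type} [Fintype ι] {k j : ℕ}

/-- on a totally singular line meeting `T` the total weight is one less than the number of points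
of `T` -/
theorem line_weight [Finite F] [Finite V] [FiniteDimensional F V] (S : Setup P T ι k j)
    (hj : j * (Nat.card F + 1) < Fintype.card ι * Nat.card F ^ k) {A B : ℙ F V} (hAB : A ≠ B)
    (hTS : P.TS (line A B)) {z : ℙ F V} (hz : z ∈ T) (hzl : z.rep ∈ line A B) :
    ∑ X ∈ pts (line A B), eps P T X + 1 = tt T (line A B) := by
  obtain ⟨m, hm⟩ : ∃ m, m = Fintype.card ι * Nat.card F ^ k := ⟨_, rfl⟩
  obtain ⟨q, hq⟩ : ∃ q, q = Nat.card F := ⟨_, rfl⟩
  have hlc := line_count P T hAB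
  obtain ⟨t, ht⟩ : ∃ t, t = (T.filter (fun y => line A B ≤ LinearMap.ker (P.f y.rep))).card :=
    ⟨_, rfl⟩
  rw [← ht, ← hq] at hlc
  have ht1 : 1 ≤ t := by
    rw [ht, Nat.succ_le_iff, Finset.card_pos]
    refine ⟨z, Finset.mem_filter.2 ⟨hz, fun x hx => hTS.2 _ hzl x hx⟩⟩
  have ht2 : t ≤ 1 + j := by
    refine le_trans ?_ (nn_self_le S hz)
    rw [ht]
    unfold Polar.nn
    apply Finset.card_le_card
    intro y hy
    rw [Finset.mem_filter] at hy ⊢
    exact ⟨hy.1, hy.2 hzl⟩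
  have hcard : (pts (line A B)).card = q + 1 := by
    rw [card_pts, finrank_line hAB, geo_two, hq]
  obtain ⟨a, ha⟩ : ∃ a, a = pts (line A B) ∩ T := ⟨_, rfl⟩
  obtain ⟨b, hb⟩ : ∃ b, b = pts (line A B) \ T := ⟨_, rfl⟩
  have hsplit : ∀ g : ℙ F V → ℕ, ∑ X ∈ pts (line A B), g X = ∑ X ∈ a, g X + ∑ X ∈ b, g X := by
    intro g
    rw [ha, hb, Finset.sum_inter_add_sum_sdiff]
  have hab : a.card + b.card = q + 1 := by
    rw [← hcard, ha, hb, Finset.card_inter_add_card_sdiff]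
  have hak : a.card = tt T (line A B) := by
    rw [ha]
    unfold tt
    congr 1
    ext X
    rw [Finset.mem_inter, Finset.mem_filter, mem_pts, and_comm]
  have hea : ∑ X ∈ a, eps P T X = 0 := by
    apply Finset.sum_eq_zero
    intro X hX
    rw [ha, Finset.mem_inter] at hX
    exact eps_mem hX.2
  have hbX : ∀ X ∈ b, P.sing X.rep ∧ X ∉ T := by
    intro X hX
    rw [hb, Finset.mem_sdiff, mem_pts] at hX
    exact ⟨hTS.1 _ hX.1, hX.2⟩
  have hlow : ∑ X ∈ b, (eps P T X + 1) * (m + 1) ≤ ∑ X ∈ b, P.nn T X := by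
    apply Finset.sum_le_sum
    intro X hX
    obtain ⟨h1, h2⟩ := hbX X hX
    obtain ⟨h3, h4, h5⟩ := nn_lower S h1 h2
    rw [eps_not h1 h2, Nat.sub_add_cancel h3, hm]
    exact h4
  have hupp : ∑ X ∈ b, P.nn T X ≤ ∑ X ∈ b, (1 + j + (eps P T X + 1) * m) := by
    apply Finset.sum_le_sum
    intro X hX
    obtain ⟨h1, h2⟩ := hbX X hX
    obtain ⟨h3, h4, h5⟩ := nn_lower S h1 h2
    rw [eps_not h1 h2, Nat.sub_add_cancel h3, hm]
    exact h5
  have halow : a.card ≤ ∑ X ∈ a, P.nn T X := by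
    rw [Finset.card_eq_sum_ones]
    apply Finset.sum_le_sum
    intro X hX
    rw [ha, Finset.mem_inter] at hX
    exact Polar.nn_self_pos S.block hX.2
  have haupp : ∑ X ∈ a, P.nn T X ≤ a.card * (1 + j) := by
    rw [← smul_eq_mul]
    apply Finset.sum_le_card_nsmul
    intro X hX
    rw [ha, Finset.mem_inter] at hX
    exact nn_self_le S hX.2
  have hsum1 : ∑ X ∈ b, (eps P T X + 1) = ∑ X ∈ b, eps P T X + b.card := by
    rw [Finset.sum_add_distrib, Finset.sum_const, smul_eq_mul, mul_one]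
  rw [← Finset.sum_mul, hsum1] at hlow
  rw [Finset.sum_add_distrib, ← Finset.sum_mul, hsum1, Finset.sum_const, smul_eq_mul] at hupp
  rw [hsplit, hea, zero_add, ← hak]
  rw [hsplit] at hlc
  obtain ⟨E, hE⟩ : ∃ E, E = ∑ X ∈ b, eps P T X := ⟨_, rfl⟩
  rw [← hE] at hlow hupp ⊢
  have hTc := S.card
  rw [pow_succ, ← mul_assoc, ← hm, ← hq] at hTc
  rw [← hm, ← hq] at hj
  obtain ⟨sa, hsa⟩ : ∃ sa, sa = ∑ X ∈ a, P.nn T X := ⟨_, rfl⟩
  obtain ⟨sb, hsb⟩ : ∃ sb, sb = ∑ X ∈ b, P.nn T X := ⟨_, rfl⟩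
  rw [← hsa] at halow haupp
  rw [← hsb] at hlow hupp
  rw [← hsa, ← hsb] at hlc
  obtain ⟨κ, hκ⟩ : ∃ κ, κ = a.card := ⟨_, rfl⟩
  obtain ⟨β, hβ⟩ : ∃ β, β = b.card := ⟨_, rfl⟩
  rw [← hκ, ← hβ] at hab
  rw [← hκ] at halow haupp ⊢
  rw [← hβ] at hlow hupp
  rw [hTc] at hlc
  zify at *
  have e1 : ((E : ℤ) + 1 - κ) * m ≤ j * (q + 1) - E := by nlinarith
  have e2 : ((κ : ℤ) - 1 - E) * m ≤ j * q := by nlinarith
  have hm0 : (0 : ℤ) < m := by nlinarith
  have hE0 : (0 : ℤ) ≤ E := by rw [hE]; positivity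
  by_contra hne
  rcases lt_or_gt_of_ne hne with h | h
  · have h1 : (1 : ℤ) ≤ κ - 1 - E := by omega
    nlinarith
  · have h1 : (1 : ℤ) ≤ E + 1 - κ := by omega
    nlinarith

end Pool.Agent.Helper53.PB
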